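import Pool.Agent.SawClose.Ratio

/-!
The limit points of `s_{n+1} / s_n`.
-/

set_option autoImplicit false

open Pool.Agent.SawKes Pool.Agent.SawLim Filter Topology

namespace Pool.Agent.SawClose

/-- one step of the ratio of the mean square displacements -/
lemma sq_step {n : ℕ} (hn : 1 ≤ n) {θ : ℝ} (hθ : 0 < θ) :
    (1 - θ) * (s (n + 1) / s n) ^ 2 ≤
      cN n / cN (n + 1) * ((9 + cN (n + 2) / cN n * (1 + θ) * (s (n + 2) / s n) ^ 2) / 6) +
      (1 / θ + cN n / cN (n + 1) * ((cN (n + 2) / cN n * (4 * (1 + 1 / θ)) +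
        4 * (((cl (n + 1)).card : ℝ) / cN n)) / 6)) * (s n ^ 2)⁻¹ := by
  have key := ext_sq hn hθ
  have c0 := cN_pos n
  have c1 := cN_pos (n + 1)
  have hs := s_pos hn
  have hs2 : 0 < s n ^ 2 := by positivity
  have e1 : ((1 - θ) * (s (n + 1) / s n) ^ 2) * (6 * cN (n + 1) * s n ^ 2) =
      6 * (cN (n + 1) * ((1 - θ) * s (n + 1) ^ 2 - 1 / θ)) + 6 * cN (n + 1) * (1 / θ) := by
    rw [div_pow]
    have : s (n + 1) ^ 2 / s n ^ 2 * s n ^ 2 = s (n + 1) ^ 2 := by field_simp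
    linear_combination (6 * cN (n + 1) * (1 - θ)) * this
  have e2 : (cN n / cN (n + 1) * ((9 + cN (n + 2) / cN n * (1 + θ) * (s (n + 2) / s n) ^ 2) / 6) +
      (1 / θ + cN n / cN (n + 1) * ((cN (n + 2) / cN n * (4 * (1 + 1 / θ)) +
        4 * (((cl (n + 1)).card : ℝ) / cN n)) / 6)) * (s n ^ 2)⁻¹) * (6 * cN (n + 1) * s n ^ 2) =
      9 * (cN n * s n ^ 2) + cN (n + 2) * ((1 + θ) * s (n + 2) ^ 2 + 4 * (1 + 1 / θ)) +
        4 * ((cl (n + 1)).card : ℝ) + 6 * cN (n + 1) * (1 / θ) := by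
    field_simp
    ring
  have h3 : ((1 - θ) * (s (n + 1) / s n) ^ 2) * (6 * cN (n + 1) * s n ^ 2) ≤
      (cN n / cN (n + 1) * ((9 + cN (n + 2) / cN n * (1 + θ) * (s (n + 2) / s n) ^ 2) / 6) +
      (1 / θ + cN n / cN (n + 1) * ((cN (n + 2) / cN n * (4 * (1 + 1 / θ)) +
        4 * (((cl (n + 1)).card : ℝ) / cN n)) / 6)) * (s n ^ 2)⁻¹) *
        (6 * cN (n + 1) * s n ^ 2) := by
    rw [e1, e2]
    linarith
  exact le_of_mul_le_mul_right h3 (by positivity)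

lemma le_of_forall_small {x y : ℝ} (h : ∀ θ : ℝ, 0 < θ → θ < 1 → (1 - θ) * x ≤ (1 + θ) * y)
    (_hx : 0 ≤ x) (hy : 0 ≤ y) : x ≤ y := by
  by_contra hcon
  push Not at hcon
  obtain ⟨θ, h1, h2, h3⟩ : ∃ θ : ℝ, 0 < θ ∧ θ < 1 ∧ (1 + θ) * y < (1 - θ) * x := by
    refine ⟨min (1 / 2) ((x - y) / (2 * (x + y + 1))), ?_, ?_, ?_⟩
    · apply lt_min (by norm_num)
      apply div_pos (by linarith) (by linarith)
    · exact lt_of_le_of_lt (min_le_left _ _) (by norm_num)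
    · have h4 := min_le_right (1 / 2) ((x - y) / (2 * (x + y + 1)))
      set θ := min (1 / 2) ((x - y) / (2 * (x + y + 1)))
      have h5 : θ * (2 * (x + y + 1)) ≤ x - y := by
        rwa [le_div_iff₀ (by linarith)] at h4
      have h6 : 0 < θ := by
        apply lt_min (by norm_num)
        apply div_pos (by linarith) (by linarith)
      nlinarith
  linarith [h θ h1 h2]

/-- the limit points of `s_{n+1}/s_n` -/
theorem s_ratio_limit' (φ : ℕ → ℕ) (hφ : Tendsto φ atTop atTop) (lam : ℝ)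
    (h : Tendsto (fun k => s (φ k + 1) / s (φ k)) atTop (𝓝 lam)) :
    6 * mu / (9 + mu ^ 2) ≤ lam ∧ lam ≤ (9 + mu ^ 2) / (6 * mu) := by
  have hmu := mu_pos
  have hlam0 : 0 ≤ lam := ge_of_tendsto' h (fun k => div_nonneg (s_nonneg _) (s_nonneg _))
  obtain ⟨D, hD, N, hN, hr⟩ := ratio_large (1 / 4) (by norm_num) (by norm_num)
  obtain ⟨τ, hτ⟩ : ∃ τ, τ = (9 + mu ^ 2) / (6 * mu ^ 2) := ⟨_, rfl⟩
  have hτ0 : 0 < τ := by rw [hτ]; positivity
  obtain ⟨T, hT⟩ : ∃ T, T = (9 + mu ^ 2) / (6 * mu) := ⟨_, rfl⟩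
  have hT0 : 0 < T := by rw [hT]; positivity
  have hTsq : T ^ 2 = τ * ((9 + mu ^ 2) / 6) := by rw [hT, hτ]; field_simp
  have hTinv : 6 * mu / (9 + mu ^ 2) = T⁻¹ := by rw [hT, inv_div]
  -- a uniform bound along any sequence of lengths
  have gen : ∀ (ψ : ℕ → ℕ), Tendsto ψ atTop atTop → ∀ l : ℝ,
      Tendsto (fun k => s (ψ k + 1) / s (ψ k)) atTop (𝓝 l) → l ^ 2 ≤ T ^ 2 := by
    intro ψ hψ l hl
    have hsψ : Tendsto (fun k => s (ψ k)) atTop atTop := tendsto_s.comp hψ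
    have hinv : Tendsto (fun k => ((s (ψ k)) ^ 2)⁻¹) atTop (𝓝 0) :=
      tendsto_inv_atTop_zero.comp ((tendsto_pow_atTop (by norm_num : (2 : ℕ) ≠ 0)).comp hsψ)
    have hR : Tendsto (fun k => cN (ψ k + 2) / cN (ψ k)) atTop (𝓝 (mu ^ 2)) :=
      tendsto_ratio.comp hψ
    have h2 : Tendsto (fun k => s (ψ k + 2) / s (ψ k)) atTop (𝓝 1) := tendsto_s_ratio.comp hψ
    have he : Tendsto (fun k => D * (ψ k : ℝ) ^ ((1 : ℝ) / 4 - 1 / 2)) atTop (𝓝 0) := by
      have e : ((1 : ℝ) / 4 - 1 / 2) = -(1 / 4) := by norm_num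
      rw [e]
      have := ((tendsto_rpow_neg_atTop (by norm_num : (0 : ℝ) < 1 / 4)).comp
        (tendsto_natCast_atTop_atTop.comp hψ)).const_mul D
      simpa using this
    apply le_of_forall_small _ (sq_nonneg l) (sq_nonneg T)
    intro θ hθ hθ1
    have t1 : Tendsto (fun k => (τ + D * (ψ k : ℝ) ^ ((1 : ℝ) / 4 - 1 / 2)) *
        ((9 + cN (ψ k + 2) / cN (ψ k) * (1 + θ) * (s (ψ k + 2) / s (ψ k)) ^ 2) / 6) +
        (1 / θ + (τ + D * (ψ k : ℝ) ^ ((1 : ℝ) / 4 - 1 / 2)) *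
          ((cN (ψ k + 2) / cN (ψ k) * (4 * (1 + 1 / θ)) +
          4 * (D * (ψ k : ℝ) ^ ((1 : ℝ) / 4 - 1 / 2))) / 6)) * ((s (ψ k)) ^ 2)⁻¹) atTop
        (𝓝 ((τ + 0) * ((9 + mu ^ 2 * (1 + θ) * 1 ^ 2) / 6) +
          (1 / θ + (τ + 0) * ((mu ^ 2 * (4 * (1 + 1 / θ)) + 4 * 0) / 6)) * 0)) :=
      ((he.const_add τ).mul (((((hR.mul_const (1 + θ)).mul (h2.pow 2)).const_add 9).div_const 6))).add
        ((((he.const_add τ).mul (((hR.mul_const _).add (he.const_mul 4)).div_const 6)).const_add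
          (1 / θ)).mul hinv)
    have t2 : Tendsto (fun k => (1 - θ) * (s (ψ k + 1) / s (ψ k)) ^ 2) atTop
        (𝓝 ((1 - θ) * l ^ 2)) := (hl.pow 2).const_mul _
    have h3 : (1 - θ) * l ^ 2 ≤ (τ + 0) * ((9 + mu ^ 2 * (1 + θ) * 1 ^ 2) / 6) +
          (1 / θ + (τ + 0) * ((mu ^ 2 * (4 * (1 + 1 / θ)) + 4 * 0) / 6)) * 0 := by
      apply le_of_tendsto_of_tendsto t2 t1
      filter_upwards [hψ.eventually_ge_atTop N] with k hk
      obtain ⟨-, r2, r3, -⟩ := hr (ψ k) hk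
      have hn : 1 ≤ ψ k := hN.trans hk
      have hs := s_pos hn
      have c0 := cN_pos (ψ k)
      have c2 := cN_pos (ψ k + 2)
      refine (sq_step hn hθ).trans ?_
      rw [← hτ] at r2
      have p0 : 0 ≤ D * (ψ k : ℝ) ^ ((1 : ℝ) / 4 - 1 / 2) := by positivity
      gcongr
    rw [hTsq]
    have h4 : τ * ((9 + mu ^ 2 * (1 + θ)) / 6) ≤ (1 + θ) * (τ * ((9 + mu ^ 2) / 6)) := by
      have : 0 ≤ τ * θ := by positivity
      nlinarith
    have h5 : (τ + 0) * ((9 + mu ^ 2 * (1 + θ) * 1 ^ 2) / 6) +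
          (1 / θ + (τ + 0) * ((mu ^ 2 * (4 * (1 + 1 / θ)) + 4 * 0) / 6)) * 0 =
          τ * ((9 + mu ^ 2 * (1 + θ)) / 6) := by ring
    linarith
  have k1 := gen φ hφ lam h
  have hle : lam ≤ T := by
    by_contra hcon
    push Not at hcon
    have := pow_lt_pow_left₀ hcon hT0.le (by norm_num : (2 : ℕ) ≠ 0)
    linarith
  -- the next ratio
  have h2 : Tendsto (fun k => s (φ k + 2) / s (φ k)) atTop (𝓝 1) := tendsto_s_ratio.comp hφ
  have h0 : 0 < lam := lt_of_lt_of_le (by positivity) (s_ratio_limit φ hφ lam h).1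
  have k2 : 1 ≤ T ^ 2 * lam ^ 2 := by
    have hl1 : Tendsto (fun k => s (φ k + 1 + 1) / s (φ k + 1)) atTop (𝓝 (1 / lam)) := by
      have := h2.div h h0.ne'
      refine this.congr' ?_
      filter_upwards [hφ.eventually_ge_atTop 1] with k hk
      have hs := s_pos hk
      have hs1 : 0 < s (φ k + 1) := s_pos (by omega)
      rw [Pi.div_apply]
      field_simp
    have hφ1 : Tendsto (fun k => φ k + 1) atTop atTop :=
      tendsto_atTop_mono (fun k => Nat.le_succ _) hφ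
    have := gen (fun k => φ k + 1) hφ1 (1 / lam) hl1
    rw [div_pow, one_pow, div_le_iff₀ (by positivity)] at this
    exact this
  refine ⟨?_, by rw [← hT]; exact hle⟩
  rw [hTinv, inv_le_iff_one_le_mul₀ hT0]
  have hp : 0 ≤ lam * T := by positivity
  by_contra hcon
  push Not at hcon
  have : (lam * T) ^ 2 < 1 := by nlinarith
  have e : (lam * T) ^ 2 = T ^ 2 * lam ^ 2 := by ring
  linarith

end Pool.Agent.SawClose
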