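import Pool.Agent.SawClose.Basic
import Pool.Agent.SawMrg.H
import Pool.Agent.SawLim.MuInf

/-!
The closing probability: definitions and one-step comparisons.
-/

set_option autoImplicit false

open Pool.Agent.SawLim Pool.Agent.SawKes Pool.Agent.SawMrg

namespace Pool.Agent.SawClose

lemma cardW_cp (n : ℕ) : ((W n).card : ℝ) = cc n := by
  rw [card_W, card_saws]

/-- closing probability -/
noncomputable def cp (n : ℕ) : ℝ := ((cl n).card : ℝ) / (W n).card

/-- normalised number of walks -/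
noncomputable def fW (n : ℕ) : ℝ := (mu⁻¹) ^ n * ((W n).card : ℝ)

lemma fW_ge (n : ℕ) : 1 ≤ fW n := by
  unfold fW
  rw [cardW_cp]
  have h := mu_pow_le n
  have hm := mu_pos
  calc (1 : ℝ) = (mu⁻¹) ^ n * mu ^ n := by
        rw [← mul_pow, inv_mul_cancel₀ hm.ne', one_pow]
    _ ≤ _ := mul_le_mul_of_nonneg_left h (by positivity)

lemma fW_le {ε : ℝ} {n : ℕ} (h : (cc n : ℝ) ≤ mu ^ n * Real.exp ((n : ℝ) ^ ε)) :
    fW n ≤ Real.exp ((n : ℝ) ^ ε) := by
  unfold fW
  rw [cardW_cp]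
  have hm := mu_pos
  calc (mu⁻¹) ^ n * (cc n : ℝ) ≤ (mu⁻¹) ^ n * (mu ^ n * Real.exp ((n : ℝ) ^ ε)) :=
        mul_le_mul_of_nonneg_left h (by positivity)
    _ = _ := by rw [← mul_assoc, ← mul_pow, inv_mul_cancel₀ hm.ne', one_pow, one_mul]

lemma fW_succ (n : ℕ) : fW (n + 1) ≤ cc 1 * fW n := by
  unfold fW
  rw [cardW_cp, cardW_cp, pow_succ]
  have h1 : (cc (n + 1) : ℝ) ≤ cc n * cc 1 := by exact_mod_cast cc_mul n 1
  have h2 : mu⁻¹ ≤ 1 := inv_le_one_of_one_le₀ one_le_mu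
  have h3 : 0 < mu⁻¹ := inv_pos.2 mu_pos
  calc (mu⁻¹) ^ n * mu⁻¹ * (cc (n + 1) : ℝ) ≤ (mu⁻¹) ^ n * 1 * (cc n * cc 1) := by
        apply mul_le_mul _ h1 (Nat.cast_nonneg _) (by positivity)
        exact mul_le_mul_of_nonneg_left h2 (by positivity)
    _ = _ := by ring

lemma eventually_lt_rpow (a : ℝ) (ha : 0 < a) (b : ℝ) : ∃ N₀ : ℕ, ∀ N : ℕ, N₀ ≤ N → b < (N : ℝ) ^ a := by
  have := (tendsto_rpow_atTop ha).comp tendsto_natCast_atTop_atTop
  exact Filter.eventually_atTop.1 (this.eventually_gt_atTop b)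

lemma card_cl (n : ℕ) : ((cl n).card : ℝ) =
    ∑ w ∈ saws n, if adj 0 (w (Fin.last n)) then (1 : ℝ) else 0 := by
  classical
  have h1 : ((cl n).card : ℝ) = ∑ v ∈ W n, if adj 0 (v n) then (1 : ℝ) else 0 := by
    unfold cl
    rw [Finset.card_filter]
    push_cast
    rfl
  rw [h1, sum_W]
  apply Finset.sum_congr rfl
  intro w _
  rw [w_eq_wN w (Fin.last n)]
  rfl

lemma cp_avg (n : ℕ) : cp n = avg n (fun w => if adj 0 (w (Fin.last n)) then (1 : ℝ) else 0) := by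
  classical
  rw [avg_eq, cp, card_W, card_cl]

lemma cp_nonneg (n : ℕ) : 0 ≤ cp n := by unfold cp; positivity

lemma cp_step {n : ℕ} {m2 a e : ℝ} (hm : 1 ≤ m2) (ha : 0 < a) (hn : 1 ≤ n)
    (hna : 8 * m2 ≤ a * n) (hen : 1 / (n : ℝ) ≤ e) (he : KC m2 a * e ≤ 1 / 2)
    (hB : Balanced n m2 a e) :
    cp (n + 2) ≤ cp n * (1 + 4 * KC m2 a * e) + 4 * KC m2 a / (n : ℝ) ^ 3 := by
  classical
  have h := transfer_avg hm ha hn hna hen he hB 1
    (fun v => if adj 0 (v (Fin.last (n + 2))) then (1 : ℝ) else 0)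
    (fun w => if adj 0 (w (Fin.last n)) then (1 : ℝ) else 0) (fun _ => 0)
    (by intro v _; split_ifs <;> simp) (by intro v _; split_ifs <;> simp)
    (by intro _ _; exact le_rfl) (by
      intro w _ p hp
      have hk := (mem_Ins.1 (show (p.1, p.2) ∈ Ins n w from hp)).1
      rw [ins_last w p.2 hk]
      simp)
  rw [← cp_avg] at h
  have e1 : avg n (fun w => |if adj 0 (w (Fin.last n)) then (1 : ℝ) else 0|) = cp n := by
    rw [cp_avg]
    congr 1
    funext w
    split_ifs <;> simp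
  have e2 : avg n (fun _ => (0 : ℝ)) = 0 := by
    rw [avg_eq]; simp
  have e3 : avg n (fun w => if adj 0 (w (Fin.last n)) then (1 : ℝ) else 0) = cp n := (cp_avg n).symm
  rw [e1, e2, e3] at h
  have h1 := (abs_le.1 h).2
  have e4 : 4 * KC m2 a * (0 + e * cp n + 1 / (n : ℝ) ^ 3) =
      cp n * (4 * KC m2 a * e) + 4 * KC m2 a / (n : ℝ) ^ 3 := by ring
  linarith

lemma cp_le_one (n : ℕ) : cp n ≤ 1 := by
  unfold cp
  have hcard : (0 : ℝ) < ((W n).card : ℝ) := by
    rw [card_W]; exact card_saws_pos _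
  rw [div_le_one hcard]
  exact_mod_cast Finset.card_le_card (cl_subset n)

lemma cp_step_low {n : ℕ} {m2 a e : ℝ} (hm : 1 ≤ m2) (ha : 0 < a) (hn : 1 ≤ n)
    (hna : 8 * m2 ≤ a * n) (hen : 1 / (n : ℝ) ≤ e) (he : KC m2 a * e ≤ 1 / 2)
    (hB : Balanced n m2 a e) :
    cp n * (1 - 4 * KC m2 a * e) - 4 * KC m2 a / (n : ℝ) ^ 3 ≤ cp (n + 2) := by
  classical
  have h := transfer_avg hm ha hn hna hen he hB 1
    (fun v => if adj 0 (v (Fin.last (n + 2))) then (1 : ℝ) else 0)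
    (fun w => if adj 0 (w (Fin.last n)) then (1 : ℝ) else 0) (fun _ => 0)
    (by intro v _; split_ifs <;> simp) (by intro v _; split_ifs <;> simp)
    (by intro _ _; exact le_rfl) (by
      intro w _ p hp
      have hk := (mem_Ins.1 (show (p.1, p.2) ∈ Ins n w from hp)).1
      rw [ins_last w p.2 hk]
      simp)
  rw [← cp_avg] at h
  have e1 : avg n (fun w => |if adj 0 (w (Fin.last n)) then (1 : ℝ) else 0|) = cp n := by
    rw [cp_avg]
    congr 1
    funext w
    split_ifs <;> simp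
  have e2 : avg n (fun _ => (0 : ℝ)) = 0 := by
    rw [avg_eq]; simp
  have e3 : avg n (fun w => if adj 0 (w (Fin.last n)) then (1 : ℝ) else 0) = cp n := (cp_avg n).symm
  rw [e1, e2, e3] at h
  have h1 := (abs_le.1 h).1
  have e4 : 4 * KC m2 a * (0 + e * cp n + 1 / (n : ℝ) ^ 3) =
      cp n * (4 * KC m2 a * e) + 4 * KC m2 a / (n : ℝ) ^ 3 := by ring
  linarith

lemma iter_low (q : ℕ → ℝ) (a b : ℝ) (ha : 0 ≤ a) (ha1 : a ≤ 1) (hb : 0 ≤ b) (hq : 0 ≤ q 0) (k : ℕ)
    (h : ∀ i < k, q i * (1 - a) - b ≤ q (i + 1)) : q 0 * (1 - k * a) - k * b ≤ q k := by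
  induction k with
  | zero => simp
  | succ k ih =>
    have h1 := ih (fun i hi => h i (by omega))
    have h2 := h k (by omega)
    have h3 := mul_le_mul_of_nonneg_right h1 (by linarith : 0 ≤ 1 - a)
    have h4 : 0 ≤ q 0 * (k * a * a) := by positivity
    have h5 : 0 ≤ (k : ℝ) * b * a := by positivity
    push_cast
    nlinarith

lemma fW_two {n : ℕ} {a e : ℝ} (ha : 0 < a) (hn : 1 ≤ n) (hna : 8 * mu ^ 2 ≤ a * n)
    (hen : 1 / (n : ℝ) ≤ e) (he : KC (mu ^ 2) a * e ≤ 1 / 2) (hB : Balanced n (mu ^ 2) a e) :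
    fW (n + 2) ≤ (1 + 2 * (KC (mu ^ 2) a * e)) * fW n ∧
    fW n ≤ (1 + 2 * (KC (mu ^ 2) a * e)) * fW (n + 2) := by
  have hm : 1 ≤ mu ^ 2 := one_le_pow₀ one_le_mu
  have h8 := eight_le_KC hm ha
  have he0 : 0 ≤ e := le_trans (by positivity) hen
  have h := card_bal hm ha hn hna hen (by nlinarith) hB
  have hmu := mu_pos
  obtain ⟨T, hT⟩ : ∃ T, T = KC (mu ^ 2) a * e := ⟨_, rfl⟩
  rw [← hT] at h he ⊢
  have hT0 : 0 ≤ T := by rw [hT]; positivity
  unfold fW
  rw [card_W, card_W]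
  obtain ⟨c, hc⟩ : ∃ c : ℝ, c = ((saws n).card : ℝ) := ⟨_, rfl⟩
  obtain ⟨c', hc'⟩ : ∃ c' : ℝ, c' = ((saws (n + 2)).card : ℝ) := ⟨_, rfl⟩
  rw [← hc, ← hc'] at h ⊢
  have hc0 : 0 ≤ c := by rw [hc]; positivity
  have e1 : (mu⁻¹) ^ (n + 2) * c' = (mu⁻¹) ^ n * (c' / mu ^ 2) := by
    rw [pow_add, inv_pow mu 2]; ring
  have hp : 0 < (mu⁻¹) ^ n := by positivity
  obtain ⟨a1, a2⟩ := abs_le.1 h
  have b1 : c' / mu ^ 2 ≤ (1 + T) * c := by
    rw [div_le_iff₀ (by positivity)]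
    have : T * c ≤ T * c * mu ^ 2 := le_mul_of_one_le_right (by positivity) hm
    nlinarith
  have b2 : (1 - T) * c ≤ c' / mu ^ 2 := by
    rw [le_div_iff₀ (by positivity)]
    have : T * c ≤ T * c * mu ^ 2 := le_mul_of_one_le_right (by positivity) hm
    nlinarith
  rw [e1]
  constructor
  · calc (mu⁻¹) ^ n * (c' / mu ^ 2) ≤ (mu⁻¹) ^ n * ((1 + 2 * T) * c) := by
          apply mul_le_mul_of_nonneg_left _ hp.le
          nlinarith [mul_nonneg hT0 hc0]
      _ = _ := by ring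
  · calc (mu⁻¹) ^ n * c ≤ (mu⁻¹) ^ n * ((1 + 2 * T) * (c' / mu ^ 2)) := by
          apply mul_le_mul_of_nonneg_left _ hp.le
          have b3 : (1 + 2 * T) * ((1 - T) * c) ≤ (1 + 2 * T) * (c' / mu ^ 2) :=
            mul_le_mul_of_nonneg_left b2 (by linarith)
          have b4 : c ≤ (1 + 2 * T) * ((1 - T) * c) := by
            have : 0 ≤ T * (1 - 2 * T) * c := by
              apply mul_nonneg (mul_nonneg hT0 (by linarith)) hc0
            nlinarith
          linarith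
      _ = _ := by ring

/-- slowly varying sequences are comparable on short windows -/
lemma slow (g : ℕ → ℝ) (b : ℝ) (hb : 0 ≤ b) (N : ℕ) (hg : ∀ i, 0 ≤ g i)
    (h1 : ∀ i < N, g (i + 1) ≤ (1 + b) * g i) (h2 : ∀ i < N, g i ≤ (1 + b) * g (i + 1))
    (hN : b * N ≤ 1) {i j : ℕ} (hi : i ≤ N) (hj : j ≤ N) : g i ≤ 3 * g j := by
  have hpow : ∀ d : ℕ, d ≤ N → (1 + b) ^ d ≤ 3 := by
    intro d hd
    have e1 : (1 + b) ^ d ≤ Real.exp (b * d) := by
      have : 1 + b ≤ Real.exp b := by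
        have := Real.add_one_le_exp b
        linarith
      calc (1 + b) ^ d ≤ (Real.exp b) ^ d := pow_le_pow_left₀ (by linarith) this d
        _ = Real.exp (b * d) := by rw [← Real.exp_nat_mul]; congr 1; ring
    have e2 : b * d ≤ 1 := by
      have : (d : ℝ) ≤ N := by exact_mod_cast hd
      have := mul_le_mul_of_nonneg_left this hb
      linarith
    have e3 : Real.exp (b * d) ≤ Real.exp 1 := Real.exp_le_exp.2 e2
    have := Real.exp_one_lt_d9
    have h4 : Real.exp 1 ≤ 3 := by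
      norm_num at this ⊢
      linarith
    linarith
  have up : ∀ d i, i + d ≤ N → g (i + d) ≤ (1 + b) ^ d * g i := by
    intro d
    induction d with
    | zero => intro i _; simp
    | succ d ih =>
      intro i hid
      have a1 := ih i (by omega)
      have a2 := h1 (i + d) (by omega)
      calc g (i + (d + 1)) ≤ (1 + b) * g (i + d) := a2
        _ ≤ (1 + b) * ((1 + b) ^ d * g i) := mul_le_mul_of_nonneg_left a1 (by linarith)
        _ = (1 + b) ^ (d + 1) * g i := by ring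
  have down : ∀ d i, i + d ≤ N → g i ≤ (1 + b) ^ d * g (i + d) := by
    intro d
    induction d with
    | zero => intro i _; simp
    | succ d ih =>
      intro i hid
      have a1 := ih i (by omega)
      have a2 := h2 (i + d) (by omega)
      calc g i ≤ (1 + b) ^ d * g (i + d) := a1
        _ ≤ (1 + b) ^ d * ((1 + b) * g (i + d + 1)) :=
            mul_le_mul_of_nonneg_left a2 (by positivity)
        _ = (1 + b) ^ (d + 1) * g (i + (d + 1)) := by rw [pow_succ, ← add_assoc]; ring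
  rcases le_total i j with hij | hij
  · obtain ⟨d, rfl⟩ := Nat.exists_eq_add_of_le hij
    refine (down d i hj).trans ?_
    exact mul_le_mul_of_nonneg_right (hpow d (by omega)) (hg _)
  · obtain ⟨d, rfl⟩ := Nat.exists_eq_add_of_le hij
    refine (up d j hi).trans ?_
    exact mul_le_mul_of_nonneg_right (hpow d (by omega)) (hg _)

end Pool.Agent.SawClose
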