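import Pool.Agent.SawClose.Snake
import Pool.Agent.SawMrg.H

/-!
Closing walks in windows of lengths, and a pigeonhole argument over windows.
-/

set_option autoImplicit false

open Pool.Agent.SawLim Pool.Agent.SawKes Pool.Agent.SawMrg

namespace Pool.Agent.SawClose

lemma cardW_cc (n : ℕ) : ((W n).card : ℝ) = cc n := by
  rw [card_W, card_saws]

lemma WW_nonneg {x : ℝ} (hx : 0 < x) (N K : ℕ) : 0 ≤ WW x N K :=
  Finset.sum_nonneg fun _ _ => by positivity

lemma QQ_le_WW {x : ℝ} (hx : 0 < x) {N K : ℕ} (hK : 1 ≤ K) (hKN : K ≤ N) :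
    QQ x N K ≤ WW x N K := by
  unfold QQ WW
  refine le_trans (Finset.sum_le_sum (g := fun n => x ^ n * ((W n).card : ℝ)) ?_) ?_
  · intro n _
    apply mul_le_mul_of_nonneg_left _ (by positivity)
    exact_mod_cast Finset.card_le_card (cl_subset n)
  · apply Finset.sum_le_sum_of_subset_of_nonneg
    · intro n hn
      rw [Finset.mem_Ico] at hn ⊢
      omega
    · intro n _ _
      positivity

/-- **Closing walks in a window.** -/
theorem window (δ : ℝ) (hδ : 0 < δ) (hδ1 : δ < 1) : ∃ C : ℝ, 1 ≤ C ∧ ∀ x : ℝ, 0 < x → x ≤ mu⁻¹ →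
    ∀ N K : ℕ, 1 ≤ K → K ≤ N → QQ x N K ≤ C * (K : ℝ) ^ (δ - 1) * WW x N K := by
  obtain ⟨n₀, h₀⟩ := hw_bound (δ / 2) (by positivity)
  obtain ⟨K₁, hK₁⟩ : ∃ K₁ : ℕ, ∀ K : ℕ, K₁ ≤ K → 8 * (5 + 2 / δ) < (K : ℝ) ^ (δ / 2) := by
    have := (tendsto_rpow_atTop (by positivity : 0 < δ / 2)).comp tendsto_natCast_atTop_atTop
    obtain ⟨K₁, h⟩ := Filter.eventually_atTop.1 (this.eventually_gt_atTop (8 * (5 + 2 / δ)))
    exact ⟨K₁, h⟩
  obtain ⟨K₀, hK₀⟩ : ∃ K₀ : ℕ, K₀ = max (n₀ + 1) (max K₁ 1) := ⟨_, rfl⟩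
  have hK₀1 : 1 ≤ K₀ := by omega
  refine ⟨(K₀ : ℝ) ^ (1 - δ), Real.one_le_rpow (by exact_mod_cast hK₀1) (by linarith), ?_⟩
  intro x hx hxm N K hK hKN
  have hKr : (0 : ℝ) < K := by exact_mod_cast hK
  have hK1r : (1 : ℝ) ≤ K := by exact_mod_cast hK
  have hQV := QQ_le_WW hx hK hKN
  have hV0 := WW_nonneg hx N K
  have hC1 : 1 ≤ (K₀ : ℝ) ^ (1 - δ) := Real.one_le_rpow (by exact_mod_cast hK₀1) (by linarith)
  have hKp : 0 < (K : ℝ) ^ (δ - 1) := Real.rpow_pos_of_pos hKr _
  rcases lt_or_ge K K₀ with h | h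
  · have h1 : 1 ≤ (K₀ : ℝ) ^ (1 - δ) * (K : ℝ) ^ (δ - 1) := by
      rw [show δ - 1 = -(1 - δ) by ring, Real.rpow_neg hKr.le, ← div_eq_mul_inv,
        one_le_div (Real.rpow_pos_of_pos hKr _)]
      exact Real.rpow_le_rpow hKr.le (by exact_mod_cast h.le) (by linarith)
    nlinarith
  · by_contra hcon
    push Not at hcon
    have hcon' : (K : ℝ) ^ (δ - 1) * WW x N K < QQ x N K := by
      refine lt_of_le_of_lt ?_ hcon
      rw [mul_assoc]
      exact le_mul_of_one_le_left (mul_nonneg hKp.le hV0) hC1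
    have hQ : 0 < QQ x N K := lt_of_le_of_lt (mul_nonneg hKp.le hV0) hcon'
    have hV : 0 < WW x N K := lt_of_lt_of_le hQ hQV
    obtain ⟨t, ht⟩ : ∃ t, t = WW x N K / QQ x N K := ⟨_, rfl⟩
    have ht0 : 0 < t := by rw [ht]; positivity
    have ht1 : t ≤ (K : ℝ) ^ (1 - δ) := by
      rw [ht, div_le_iff₀ hQ]
      have e1 : (K : ℝ) ^ (1 - δ) * (K : ℝ) ^ (δ - 1) = 1 := by
        rw [← Real.rpow_add hKr]; simp
      have e2 := mul_lt_mul_of_pos_left hcon' (Real.rpow_pos_of_pos hKr (1 - δ))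
      rw [← mul_assoc, e1, one_mul] at e2
      exact e2.le
    have hsn := snake hx hK hKN hQ
    rw [← ht] at hsn
    obtain ⟨f, hf⟩ : ∃ f : ℝ, f = x ^ (K - 1) * (W (K - 1)).card := ⟨_, rfl⟩
    rw [← hf] at hsn
    have hf0 : 0 < f := by
      rw [hf, card_W]
      have := card_saws_pos (K - 1)
      positivity
    obtain ⟨y, hy⟩ : ∃ y : ℝ, y = (K : ℝ) ^ (δ / 2) := ⟨_, rfl⟩
    have hy1 : 1 ≤ y := by rw [hy]; exact Real.one_le_rpow hK1r (by positivity)
    have hfy : f ≤ Real.exp y := by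
      rw [hf, cardW_cc]
      have h1 := h₀ (K - 1) (by omega)
      have h2 : x ^ (K - 1) ≤ (mu⁻¹) ^ (K - 1) := pow_le_pow_left₀ hx.le hxm _
      calc x ^ (K - 1) * (cc (K - 1) : ℝ)
          ≤ (mu⁻¹) ^ (K - 1) * (mu ^ (K - 1) * Real.exp (((K - 1 : ℕ) : ℝ) ^ (δ / 2))) := by
            apply mul_le_mul h2 h1 (Nat.cast_nonneg _)
            have := mu_pos
            positivity
        _ = Real.exp (((K - 1 : ℕ) : ℝ) ^ (δ / 2)) := by
            rw [← mul_assoc, ← mul_pow, inv_mul_cancel₀ mu_pos.ne', one_pow, one_mul]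
        _ ≤ Real.exp y := by
            apply Real.exp_le_exp.2
            rw [hy]
            apply Real.rpow_le_rpow (Nat.cast_nonneg _) _ (by positivity)
            exact_mod_cast Nat.sub_le K 1
    have hlog : Real.log (8 * f * t) ≤ 3 + y + 2 / δ * y := by
      rw [Real.log_mul (by positivity) ht0.ne', Real.log_mul (by norm_num) hf0.ne']
      have l1 : Real.log 8 ≤ 3 := by
        have : (8 : ℝ) = 2 ^ 3 := by norm_num
        rw [this, Real.log_pow]
        have := Real.log_two_lt_d9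
        push_cast
        linarith
      have l2 : Real.log f ≤ y := by
        rw [← Real.log_exp y]
        exact Real.log_le_log hf0 hfy
      have l3 : Real.log t ≤ 2 / δ * y := by
        have a1 : Real.log t ≤ Real.log (K : ℝ) := by
          apply Real.log_le_log ht0
          refine ht1.trans ?_
          calc (K : ℝ) ^ (1 - δ) ≤ (K : ℝ) ^ (1 : ℝ) :=
                Real.rpow_le_rpow_of_exponent_le hK1r (by linarith)
            _ = K := Real.rpow_one _
        have a2 := Real.log_le_rpow_div hKr.le (by positivity : 0 < δ / 2)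
        rw [← hy] at a2
        have : y / (δ / 2) = 2 / δ * y := by field_simp
        linarith
      linarith
    have h2 : (K : ℝ) ≤ 8 * (K : ℝ) ^ (1 - δ) * (1 + (3 + y + 2 / δ * y)) := by
      refine hsn.trans ?_
      have hd : 0 < 2 / δ := by positivity
      have hnn : 0 ≤ 1 + (3 + y + 2 / δ * y) := by positivity
      calc 8 * t * (1 + Real.log (8 * f * t)) ≤ 8 * t * (1 + (3 + y + 2 / δ * y)) :=
            mul_le_mul_of_nonneg_left (by linarith) (by positivity)
        _ ≤ 8 * (K : ℝ) ^ (1 - δ) * (1 + (3 + y + 2 / δ * y)) :=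
            mul_le_mul_of_nonneg_right (by linarith) hnn
    have h3 : y * y * (K : ℝ) ^ (1 - δ) = K := by
      rw [hy, ← Real.rpow_add hKr, ← Real.rpow_add hKr]
      have : δ / 2 + δ / 2 + (1 - δ) = 1 := by ring
      rw [this, Real.rpow_one]
    have hKd : 0 < (K : ℝ) ^ (1 - δ) := Real.rpow_pos_of_pos hKr _
    have h4 : y * y ≤ 8 * (1 + (3 + y + 2 / δ * y)) := by
      have : y * y * (K : ℝ) ^ (1 - δ) ≤ 8 * (1 + (3 + y + 2 / δ * y)) * (K : ℝ) ^ (1 - δ) := by
        rw [h3]; linarith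
      exact le_of_mul_le_mul_right this hKd
    have h5 := hK₁ K (by omega)
    rw [← hy] at h5
    have h6 : 8 * (1 + (3 + y + 2 / δ * y)) ≤ 8 * (5 + 2 / δ) * y := by
      nlinarith
    nlinarith

/-! ### Pigeonhole over windows -/

lemma grow (T : ℕ → ℝ) (m : ℕ) (hpos : ∀ i, 0 < T i) (h1 : 3 * T 0 ≤ T 1)
    (h : ∀ i, 1 ≤ i → i < m → 6 * T i < T (i - 1) + T (i + 1)) :
    3 ^ m * T 0 ≤ T m := by
  have key : ∀ i, i < m → 3 * T i ≤ T (i + 1) := by
    intro i
    induction i with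
    | zero => intro _; exact h1
    | succ i ih =>
      intro hi
      have h2 := ih (by omega)
      have h3 := h (i + 1) (by omega) hi
      rw [Nat.add_sub_cancel] at h3
      have := hpos (i + 1)
      linarith
  have key2 : ∀ i, i ≤ m → 3 ^ i * T 0 ≤ T i := by
    intro i
    induction i with
    | zero => intro _; simp
    | succ i ih =>
      intro hi
      have h2 := ih (by omega)
      have h3 := key i (by omega)
      calc 3 ^ (i + 1) * T 0 = 3 * (3 ^ i * T 0) := by ring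
        _ ≤ 3 * T i := by linarith
        _ ≤ T (i + 1) := h3
  exact key2 m le_rfl

lemma pigeon (S : ℕ → ℝ) (m : ℕ) (hm : 1 ≤ m) (hpos : ∀ j, 0 < S j)
    (h0 : S 0 < 3 ^ m * S m) (h1 : S (2 * m) < 3 ^ m * S m) :
    ∃ j, 1 ≤ j ∧ j < 2 * m ∧ S (j - 1) + S (j + 1) ≤ 6 * S j := by
  by_contra hcon
  push Not at hcon
  rcases le_or_gt (3 * S m) (S (m + 1)) with h | h
  · have := grow (fun i => S (m + i)) m (fun i => hpos _) (by simpa using h) (by
      intro i hi him
      have h2 := hcon (m + i) (by omega) (by omega)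
      rw [show m + (i - 1) = m + i - 1 by omega, show m + (i + 1) = m + i + 1 by omega]
      exact h2)
    simp only [Nat.add_zero] at this
    rw [← two_mul] at this
    linarith
  · have h3 := hcon m hm (by omega)
    have := grow (fun i => S (m - i)) m (fun i => hpos _) (by
      simp only [Nat.sub_zero]; linarith) (by
      intro i hi him
      have h2 := hcon (m - i) (by omega) (by omega)
      rw [show m - (i - 1) = m - i + 1 by omega, show m - (i + 1) = m - i - 1 by omega]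
      linarith)
    simp only [Nat.sub_zero, Nat.sub_self] at this
    linarith

lemma sum_pairs (g : ℕ → ℝ) (N L : ℕ) : ∑ n ∈ Finset.Ico N (N + 2 * L), g n =
    ∑ i ∈ Finset.range L, (g (N + 2 * i) + g (N + 2 * i + 1)) := by
  induction L with
  | zero => simp
  | succ L ih =>
    rw [Finset.sum_range_succ, ← ih, show N + 2 * (L + 1) = N + 2 * L + 1 + 1 by ring,
      Finset.sum_Ico_succ_top (by omega), Finset.sum_Ico_succ_top (by omega)]
    ring

/-! ### Parity -/

lemma parity_site {n : ℕ} {v : ℕ → ℤ × ℤ} (h : IsW n v) :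
    ∀ k ≤ n, ((v k).1 + (v k).2 - k) % 2 = 0 := by
  intro k
  induction k with
  | zero => intro _; rw [h.1]; simp
  | succ k ih =>
    intro hk
    have h1 := ih (by omega)
    have h2 := h.2.1 k (by omega)
    rw [adj_iff] at h2
    have h3 : v (k + 1) = v k + (v (k + 1) - v k) := by abel
    simp only [Pool.Agent.SawLim.dirs, Finset.mem_insert, Finset.mem_singleton] at h2
    rcases h2 with e | e | e | e <;> rw [e] at h3 <;> rw [h3] <;> push_cast <;>
      simp only [Prod.fst_add, Prod.snd_add] <;> omega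

lemma cl_even {n : ℕ} (hn : Even n) : cl n = ∅ := by
  classical
  rw [Finset.eq_empty_iff_forall_notMem]
  intro v hv
  obtain ⟨h1, h2⟩ := mem_cl.1 hv
  have h3 := parity_site h1 n le_rfl
  rw [adj_iff, sub_zero] at h2
  obtain ⟨m, rfl⟩ := hn
  simp only [Pool.Agent.SawLim.dirs, Finset.mem_insert, Finset.mem_singleton] at h2
  rcases h2 with e | e | e | e <;> rw [e] at h3 <;> push_cast at h3 <;> omega

end Pool.Agent.SawClose
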