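import Pool.Agent.SawClose.Window
import Pool.Agent.SawClose.Cp

/-!
A bound for the closing probability which holds for all lengths.
-/

set_option autoImplicit false

open Pool.Agent.SawLim Pool.Agent.SawKes Pool.Agent.SawMrg

namespace Pool.Agent.SawClose

/-- the closing probability at every large length -/
theorem cp_large (δ : ℝ) (hδ : 0 < δ) (hδ' : δ < 1 / 2) : ∃ C : ℝ, 0 ≤ C ∧ ∃ N₀ : ℕ, ∀ M : ℕ,
    N₀ ≤ M → cp M ≤ C * (M : ℝ) ^ (-(1 / 2) + δ) := by
  classical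
  obtain ⟨C, hC1, hwin⟩ := window (δ / 2) (by positivity) (by linarith)
  obtain ⟨a, ha, _, hbal⟩ := balanced_large
  obtain ⟨N₂, h₂⟩ := hbal (δ / 4) (by positivity) (by linarith)
  have hm : 1 ≤ mu ^ 2 := one_le_pow₀ one_le_mu
  obtain ⟨K, hKdef⟩ : ∃ K, K = KC (mu ^ 2) a := ⟨_, rfl⟩
  have h8 : 8 ≤ K := by rw [hKdef]; exact eight_le_KC hm ha
  obtain ⟨N₃, h₃⟩ := eventually_lt_rpow (δ / 4) (by positivity) (16 * K)
  obtain ⟨N₄, h₄⟩ := eventually_lt_rpow (1 / 2 - δ / 4) (by linarith) (4 * K)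
  obtain ⟨N₅, h₅⟩ := eventually_lt_rpow (1 / 2 - δ / 2) (by linarith) 2
  obtain ⟨N₆, h₆⟩ := eventually_lt_rpow (1 / 2 + δ / 2) (by linarith) 4
  obtain ⟨N₇, h₇⟩ : ∃ N : ℕ, ∀ n : ℕ, N ≤ n → 8 * mu ^ 2 ≤ a * n := by
    obtain ⟨N, hN⟩ := exists_nat_ge (8 * mu ^ 2 / a)
    refine ⟨N, fun n hn => ?_⟩
    have : (N : ℝ) ≤ n := by exact_mod_cast hn
    have h3 : 8 * mu ^ 2 / a ≤ n := hN.trans this
    rw [div_le_iff₀ ha] at h3
    linarith
  have hC0 : 0 ≤ C := by linarith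
  refine ⟨14 * C * (1 + cc 1) + 8 * K, by positivity,
    2 * (N₂ + N₃ + N₄ + N₅ + N₆ + N₇ + 2), fun M hM => ?_⟩
  have hMr : (0 : ℝ) < M := by exact_mod_cast (by omega : 0 < M)
  have hMr1 : (1 : ℝ) ≤ M := by exact_mod_cast (by omega : 1 ≤ M)
  obtain ⟨P, hP⟩ : ∃ P : ℝ, P = (M : ℝ) ^ (1 / 2 - δ / 2) := ⟨_, rfl⟩
  have hP2 : 2 < P := by rw [hP]; exact h₅ M (by omega)
  obtain ⟨L, hL⟩ : ∃ L : ℕ, L = ⌊P⌋₊ := ⟨_, rfl⟩
  have hLP : (L : ℝ) ≤ P := by rw [hL]; exact Nat.floor_le (by linarith)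
  have hLP2 : P < L + 1 := by rw [hL]; exact Nat.lt_floor_add_one P
  have hL1 : 1 ≤ L := by
    rw [hL]; exact Nat.le_floor (by push_cast; linarith)
  have hL1r : (1 : ℝ) ≤ L := by exact_mod_cast hL1
  have h2L : P ≤ ((2 * L : ℕ) : ℝ) := by
    push_cast; linarith
  -- `4 L ≤ M`
  have h4L : 4 * (L : ℝ) ≤ M := by
    have h1 := h₆ M (by omega)
    have h2 : (M : ℝ) ^ (1 / 2 + δ / 2) * (M : ℝ) ^ (1 / 2 - δ / 2) = M := by
      rw [← Real.rpow_add hMr]
      have : 1 / 2 + δ / 2 + (1 / 2 - δ / 2) = 1 := by ring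
      rw [this, Real.rpow_one]
    rw [← hP] at h2
    have h3 := mul_le_mul_of_nonneg_right h1.le (by linarith : (0 : ℝ) ≤ P)
    linarith only [h2, h3, hLP]
  have h4L' : 4 * L ≤ M := by exact_mod_cast h4L
  -- error terms
  obtain ⟨E, hE⟩ : ∃ E : ℝ, E = (M : ℝ) ^ (δ / 4 - 1 / 2) := ⟨_, rfl⟩
  have hE0 : 0 < E := by rw [hE]; exact Real.rpow_pos_of_pos hMr _
  have hEn : ∀ n : ℕ, M ≤ 2 * n → (n : ℝ) ^ (δ / 4 - 1 / 2) ≤ 2 * E := by
    intro n hn
    have hn0 : (0 : ℝ) < n := by exact_mod_cast (by omega : 0 < n)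
    have h1 : (M : ℝ) / 2 ≤ n := by
      have : (M : ℝ) ≤ 2 * n := by exact_mod_cast hn
      linarith
    calc (n : ℝ) ^ (δ / 4 - 1 / 2) ≤ ((M : ℝ) / 2) ^ (δ / 4 - 1 / 2) :=
          Real.rpow_le_rpow_of_nonpos (by positivity) h1 (by linarith)
      _ = (2 : ℝ) ^ (1 / 2 - δ / 4) * E := by
          rw [Real.div_rpow hMr.le (by norm_num), hE, div_eq_mul_inv, mul_comm,
            ← Real.rpow_neg (by norm_num)]
          congr 2; ring
      _ ≤ 2 * E := by
          apply mul_le_mul_of_nonneg_right _ hE0.le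
          calc (2 : ℝ) ^ (1 / 2 - δ / 4) ≤ 2 ^ (1 : ℝ) :=
                Real.rpow_le_rpow_of_exponent_le (by norm_num) (by linarith)
            _ = 2 := Real.rpow_one 2
  have hKE : K * (2 * E) ≤ 1 / 2 := by
    have h1 := h₄ M (by omega)
    have h2 : (M : ℝ) ^ (1 / 2 - δ / 4) * E = 1 := by
      rw [hE, ← Real.rpow_add hMr]
      have : 1 / 2 - δ / 4 + (δ / 4 - 1 / 2) = 0 := by ring
      rw [this, Real.rpow_zero]
    have h3 := mul_le_mul_of_nonneg_right h1.le hE0.le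
    linarith only [h2, h3]
  have hLKE : 16 * K * (L * E) ≤ 1 := by
    have h1 := h₃ M (by omega)
    have h2 : P * E = (M : ℝ) ^ (-(δ / 4)) := by
      rw [hP, hE, ← Real.rpow_add hMr]
      congr 1; ring
    have h3 : (L : ℝ) * E ≤ P * E := mul_le_mul_of_nonneg_right hLP hE0.le
    have h4 : (M : ℝ) ^ (δ / 4) * (M : ℝ) ^ (-(δ / 4)) = 1 := by
      rw [← Real.rpow_add hMr]; simp
    have h5 : 0 < (M : ℝ) ^ (-(δ / 4)) := Real.rpow_pos_of_pos hMr _
    have h6 : 16 * K * (L * E) ≤ 16 * K * (M : ℝ) ^ (-(δ / 4)) := by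
      rw [← h2]
      exact mul_le_mul_of_nonneg_left h3 (by linarith)
    have h7 := mul_le_mul_of_nonneg_right h1.le h5.le
    linarith only [h4, h6, h7]
  have hcond : ∀ n : ℕ, M ≤ 2 * n → 1 ≤ n ∧ 8 * mu ^ 2 ≤ a * n ∧
      1 / (n : ℝ) ≤ (n : ℝ) ^ (δ / 4 - 1 / 2) ∧
      KC (mu ^ 2) a * (n : ℝ) ^ (δ / 4 - 1 / 2) ≤ 1 / 2 ∧
      Balanced n (mu ^ 2) a ((n : ℝ) ^ (δ / 4 - 1 / 2)) := by
    intro n hn
    have hn1 : (1 : ℝ) ≤ n := by exact_mod_cast (by omega : 1 ≤ n)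
    refine ⟨by omega, h₇ n (by omega), ?_, ?_, h₂ n (by omega)⟩
    · rw [one_div, ← Real.rpow_neg_one]
      exact Real.rpow_le_rpow_of_exponent_le hn1 (by linarith)
    · rw [← hKdef]
      have := mul_le_mul_of_nonneg_left (hEn n hn) (by linarith : 0 ≤ K)
      linarith
  -- comparison of the numbers of walks
  obtain ⟨g, hg⟩ : ∃ g : ℕ → ℝ, g = fun i => fW (M - 2 * L + 2 * i) := ⟨_, rfl⟩
  have hg0 : ∀ i, 0 ≤ g i := by
    intro i; rw [hg]; exact le_trans zero_le_one (fW_ge _)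
  have hstep : ∀ i, g (i + 1) ≤ (1 + 4 * (K * E)) * g i ∧ g i ≤ (1 + 4 * (K * E)) * g (i + 1) := by
    intro i
    obtain ⟨c1, c2, c3, c4, c5⟩ := hcond (M - 2 * L + 2 * i) (by omega)
    obtain ⟨d1, d2⟩ := fW_two ha c1 c2 c3 c4 c5
    rw [← hKdef] at d1 d2
    have hle : 2 * (K * ((M - 2 * L + 2 * i : ℕ) : ℝ) ^ (δ / 4 - 1 / 2)) ≤ 4 * (K * E) := by
      have := mul_le_mul_of_nonneg_left (hEn (M - 2 * L + 2 * i) (by omega)) (by linarith : 0 ≤ K)
      linarith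
    have e1 : M - 2 * L + 2 * (i + 1) = M - 2 * L + 2 * i + 2 := by ring
    rw [hg]
    beta_reduce
    rw [e1]
    have p1 : 0 ≤ fW (M - 2 * L + 2 * i) := le_trans zero_le_one (fW_ge _)
    have p2 : 0 ≤ fW (M - 2 * L + 2 * i + 2) := le_trans zero_le_one (fW_ge _)
    constructor
    · refine d1.trans (mul_le_mul_of_nonneg_right (by linarith) p1)
    · refine d2.trans (mul_le_mul_of_nonneg_right (by linarith) p2)
  have hslow : ∀ i j, i ≤ 3 * L → j ≤ 3 * L → g i ≤ 3 * g j := by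
    intro i j hi hj
    refine slow g (4 * (K * E)) (by positivity) (3 * L) hg0 (fun i _ => (hstep i).1)
      (fun i _ => (hstep i).2) ?_ hi hj
    push_cast
    have : 4 * (K * E) * (3 * L) = 12 * K * (L * E) := by ring
    rw [this]
    have h1 : 0 ≤ K * (L * E) := by positivity
    linarith
  obtain ⟨S, hS⟩ : ∃ S : ℝ, S = ∑ i ∈ Finset.range L, fW (M + 2 * i) := ⟨_, rfl⟩
  have hSpos : 0 < S := by
    rw [hS]
    apply Finset.sum_pos
    · intro i _
      exact lt_of_lt_of_le one_pos (fW_ge _)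
    · exact Finset.nonempty_range_iff.2 (by omega)
  have hgS : S = ∑ i ∈ Finset.range L, g (L + i) := by
    rw [hS, hg]
    apply Finset.sum_congr rfl
    intro i _
    beta_reduce
    congr 1
    omega
  have hV : WW mu⁻¹ M (2 * L) ≤ (1 + cc 1) * (7 * S) := by
    have h1 : WW mu⁻¹ M (2 * L) ≤ ∑ n ∈ Finset.Ico (M - 2 * L) (M - 2 * L + 2 * (3 * L)), fW n := by
      unfold WW fW
      apply Finset.sum_le_sum_of_subset_of_nonneg
      · intro n hn
        rw [Finset.mem_Ico] at hn ⊢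
        omega
      · intro n _ _
        have := mu_pos
        positivity
    refine h1.trans ?_
    rw [sum_pairs]
    have h2 : ∑ i ∈ Finset.range (3 * L), (fW (M - 2 * L + 2 * i) + fW (M - 2 * L + 2 * i + 1)) ≤
        (1 + cc 1) * ∑ i ∈ Finset.range (3 * L), g i := by
      rw [Finset.mul_sum]
      apply Finset.sum_le_sum
      intro i _
      have := fW_succ (M - 2 * L + 2 * i)
      rw [hg]
      beta_reduce
      linarith
    refine h2.trans ?_
    apply mul_le_mul_of_nonneg_left _ (by positivity)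
    have e1 : 3 * L = L + (L + L) := by ring
    rw [e1, Finset.sum_range_add, Finset.sum_range_add, ← Finset.sum_add_distrib,
      ← Finset.sum_add_distrib, hgS, Finset.mul_sum]
    apply Finset.sum_le_sum
    intro i hi
    rw [Finset.mem_range] at hi
    have a1 := hslow i (L + i) (by omega) (by omega)
    have a2 := hslow (L + (L + i)) (L + i) (by omega) (by omega)
    linarith
  -- the closing probabilities in the window
  have hcpw : ∀ i ≤ L, cp M / 2 - L * (4 * K / (M : ℝ) ^ 3) ≤ cp (M + 2 * i) := by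
    intro i hi
    have hir : (i : ℝ) ≤ L := by exact_mod_cast hi
    have := iter_low (fun i => cp (M + 2 * i)) (8 * (K * E)) (4 * K / (M : ℝ) ^ 3) (by positivity)
      (by
        have h1 : 0 ≤ K * (L * E) := by positivity
        have h2 : K * E ≤ K * (L * E) := by
          apply mul_le_mul_of_nonneg_left _ (by linarith)
          exact le_mul_of_one_le_left hE0.le hL1r
        linarith) (by positivity) (cp_nonneg _) i (by
        intro j hj
        obtain ⟨c1, c2, c3, c4, c5⟩ := hcond (M + 2 * j) (by omega)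
        have hst := cp_step_low hm ha c1 c2 c3 c4 c5
        rw [← hKdef] at hst
        have e1 : M + 2 * (j + 1) = M + 2 * j + 2 := by ring

        rw [e1]
        refine le_trans ?_ hst
        have t1 : 4 * K * ((M + 2 * j : ℕ) : ℝ) ^ (δ / 4 - 1 / 2) ≤ 8 * (K * E) := by
          have := mul_le_mul_of_nonneg_left (hEn (M + 2 * j) (by omega))
            (by linarith : 0 ≤ 4 * K)
          linarith
        have t2 := mul_le_mul_of_nonneg_left t1 (cp_nonneg (M + 2 * j))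
        have t3 : 4 * K / ((M + 2 * j : ℕ) : ℝ) ^ 3 ≤ 4 * K / (M : ℝ) ^ 3 := by
          apply div_le_div_of_nonneg_left (by linarith) (by positivity)
          apply pow_le_pow_left₀ hMr.le
          push_cast
          have : (0 : ℝ) ≤ j := Nat.cast_nonneg _
          linarith
        linarith)
    beta_reduce at this
    rw [Nat.mul_zero, Nat.add_zero] at this
    refine le_trans ?_ this
    have t1 : (i : ℝ) * (8 * (K * E)) ≤ 1 / 2 := by
      have : (i : ℝ) * (8 * (K * E)) ≤ L * (8 * (K * E)) :=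
        mul_le_mul_of_nonneg_right hir (by positivity)
      have e : (L : ℝ) * (8 * (K * E)) = 8 * K * (L * E) := by ring
      linarith
    have t2 : cp M * (1 / 2) ≤ cp M * (1 - (i : ℝ) * (8 * (K * E))) :=
      mul_le_mul_of_nonneg_left (by linarith) (cp_nonneg M)
    have t3 : (i : ℝ) * (4 * K / (M : ℝ) ^ 3) ≤ L * (4 * K / (M : ℝ) ^ 3) :=
      mul_le_mul_of_nonneg_right hir (by positivity)
    linarith
  have hQ : (cp M / 2 - L * (4 * K / (M : ℝ) ^ 3)) * S ≤ QQ mu⁻¹ M (2 * L) := by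
    have h1 : ∑ i ∈ Finset.range L, (mu⁻¹) ^ (M + 2 * i) * ((cl (M + 2 * i)).card : ℝ) ≤
        QQ mu⁻¹ M (2 * L) := by
      unfold QQ
      rw [sum_pairs]
      apply Finset.sum_le_sum
      intro i _
      have := mu_pos
      have h1 : 0 ≤ (mu⁻¹) ^ (M + 2 * i + 1) * ((cl (M + 2 * i + 1)).card : ℝ) := by positivity
      linarith
    refine le_trans ?_ h1
    rw [hS, Finset.mul_sum]
    apply Finset.sum_le_sum
    intro i hi
    rw [Finset.mem_range] at hi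
    have hcard : (0 : ℝ) < ((W (M + 2 * i)).card : ℝ) := by
      rw [card_W]; exact card_saws_pos _
    have e1 : (mu⁻¹) ^ (M + 2 * i) * ((cl (M + 2 * i)).card : ℝ) =
        cp (M + 2 * i) * fW (M + 2 * i) := by
      unfold cp fW
      field_simp
    rw [e1]
    exact mul_le_mul_of_nonneg_right (hcpw i hi.le) (le_trans zero_le_one (fW_ge _))
  have hw := hwin mu⁻¹ (inv_pos.2 mu_pos) le_rfl M (2 * L) (by omega) (by omega)
  have hκ0 : 0 ≤ ((2 * L : ℕ) : ℝ) ^ (δ / 2 - 1) := Real.rpow_nonneg (Nat.cast_nonneg _) _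
  have hκ : ((2 * L : ℕ) : ℝ) ^ (δ / 2 - 1) ≤ (M : ℝ) ^ (-(1 / 2) + δ) := by
    calc ((2 * L : ℕ) : ℝ) ^ (δ / 2 - 1) ≤ P ^ (δ / 2 - 1) :=
          Real.rpow_le_rpow_of_nonpos (by linarith) h2L (by linarith)
      _ = (M : ℝ) ^ ((1 / 2 - δ / 2) * (δ / 2 - 1)) := by rw [hP, ← Real.rpow_mul hMr.le]
      _ ≤ (M : ℝ) ^ (-(1 / 2) + δ) := by
          apply Real.rpow_le_rpow_of_exponent_le hMr1
          nlinarith
  have hfin : cp M / 2 - L * (4 * K / (M : ℝ) ^ 3) ≤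
      7 * C * (1 + cc 1) * (M : ℝ) ^ (-(1 / 2) + δ) := by
    have h1 : (cp M / 2 - L * (4 * K / (M : ℝ) ^ 3)) * S ≤
        (7 * C * (1 + cc 1) * (M : ℝ) ^ (-(1 / 2) + δ)) * S := by
      refine (hQ.trans hw).trans ?_
      calc C * ((2 * L : ℕ) : ℝ) ^ (δ / 2 - 1) * WW mu⁻¹ M (2 * L)
          ≤ C * ((2 * L : ℕ) : ℝ) ^ (δ / 2 - 1) * ((1 + cc 1) * (7 * S)) :=
            mul_le_mul_of_nonneg_left hV (by positivity)
        _ ≤ C * (M : ℝ) ^ (-(1 / 2) + δ) * ((1 + cc 1) * (7 * S)) := by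
            apply mul_le_mul_of_nonneg_right _ (by positivity)
            exact mul_le_mul_of_nonneg_left hκ hC0
        _ = _ := by ring
    exact le_of_mul_le_mul_right h1 hSpos
  have hlast : L * (4 * K / (M : ℝ) ^ 3) ≤ 4 * K * (M : ℝ) ^ (-(1 / 2) + δ) := by
    have hLM : (L : ℝ) ≤ M := by linarith
    have h1 : L * (4 * K / (M : ℝ) ^ 3) ≤ M * (4 * K / (M : ℝ) ^ 3) :=
      mul_le_mul_of_nonneg_right hLM (by positivity)
    have h2 : M * (4 * K / (M : ℝ) ^ 3) = 4 * K * ((M : ℝ) ^ 2)⁻¹ := by field_simp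
    have h3 : ((M : ℝ) ^ 2)⁻¹ ≤ (M : ℝ) ^ (-(1 / 2) + δ) := by
      rw [← Real.rpow_natCast, ← Real.rpow_neg hMr.le]
      apply Real.rpow_le_rpow_of_exponent_le hMr1
      push_cast
      linarith
    have := mul_le_mul_of_nonneg_left h3 (by linarith : 0 ≤ 4 * K)
    linarith
  linarith

/-- the closing probability at every length -/
theorem cp_all (δ : ℝ) (hδ : 0 < δ) (hδ' : δ < 1 / 2) : ∃ C : ℝ, 0 ≤ C ∧ ∀ n : ℕ, 1 ≤ n →
    cp n ≤ C * (n : ℝ) ^ (δ - 1 / 2) := by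
  obtain ⟨C₀, hC₀, N, h⟩ := cp_large δ hδ hδ'
  obtain ⟨C1, p1, h1⟩ := extend_rpow (ι := Unit) (fun _ n => cp n) (fun _ => 1) (δ - 1 / 2) C₀ N
    (fun _ n hn _ => by
      have := h n hn
      rwa [neg_add_eq_sub] at this)
    (fun _ n _ => cp_le_one n)
  exact ⟨C1, p1, fun n hn => h1 () n hn⟩

end Pool.Agent.SawClose
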