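import Pool.Agent.SawLim.Moves

/-!
Self-avoiding walks on `ℤ²` as functions on `ℕ` (constant after the last step), initial pieces,
closing walks and their rotation.
-/

set_option autoImplicit false

open Pool.Agent.SawLim

namespace Pool.Agent.SawClose

/-- `v` is an `n`-step self-avoiding walk from the origin, constant after time `n` -/
def IsW (n : ℕ) (v : ℕ → ℤ × ℤ) : Prop :=
  v 0 = 0 ∧ (∀ k < n, adj (v k) (v (k + 1))) ∧ (∀ i j, i < j → j ≤ n → v i ≠ v j) ∧
    ∀ k, n ≤ k → v k = v n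

lemma IsW.inj {n : ℕ} {v : ℕ → ℤ × ℤ} (h : IsW n v) {i j : ℕ} (hi : i ≤ n) (hj : j ≤ n)
    (he : v i = v j) : i = j := by
  rcases lt_trichotomy i j with h1 | h1 | h1
  · exact absurd he (h.2.2.1 i j h1 hj)
  · exact h1
  · exact absurd he.symm (h.2.2.1 j i h1 hi)

lemma IsW.ne {n : ℕ} {v : ℕ → ℤ × ℤ} (h : IsW n v) {i j : ℕ} (hi : i ≤ n) (hj : j ≤ n)
    (he : i ≠ j) : v i ≠ v j := fun h' => he (h.inj hi hj h')

/-- the walks as functions on `ℕ` -/
noncomputable def W (n : ℕ) : Finset (ℕ → ℤ × ℤ) := by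
  classical
  exact (saws n).image (wN n)

lemma wN_ge {n : ℕ} (w : Fin (n + 1) → ℤ × ℤ) {k : ℕ} (h : n ≤ k) : wN n w k = wN n w n := by
  unfold wN
  congr 1
  exact Fin.ext (by simp [h])

lemma isW_wN {n : ℕ} {w : Fin (n + 1) → ℤ × ℤ} (h : IsSAW n w) : IsW n (wN n w) := by
  refine ⟨wN_zero h, fun k hk => wN_adj h hk, fun i j hij hj he => ?_, fun k hk => wN_ge w hk⟩
  have := wN_inj h (by omega) hj he
  omega

lemma wN_injective (n : ℕ) : Function.Injective (wN n) := by
  intro w w' h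
  funext j
  rw [w_eq_wN w, w_eq_wN w', h]

theorem mem_W {n : ℕ} {v : ℕ → ℤ × ℤ} : v ∈ W n ↔ IsW n v := by
  classical
  unfold W
  rw [Finset.mem_image]
  constructor
  · rintro ⟨w, hw, rfl⟩
    exact isW_wN (mem_saws.1 hw)
  · intro h
    refine ⟨fun j => v j, ?_, ?_⟩
    · rw [mem_saws]
      exact isSAW_of v (fun j => rfl) h.1 h.2.1 h.2.2.1
    · funext k
      rcases le_total k n with hk | hk
      · rw [wN_of_le _ hk]
      · rw [wN_ge _ hk, wN_of_le _ le_rfl, h.2.2.2 k hk]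

lemma card_W (n : ℕ) : (W n).card = (saws n).card := by
  classical
  unfold W
  rw [Finset.card_image_of_injective _ (wN_injective n)]

/-- sums over `W n` -/
lemma sum_W {n : ℕ} {M : Type*} [AddCommMonoid M] (f : (ℕ → ℤ × ℤ) → M) :
    ∑ v ∈ W n, f v = ∑ w ∈ saws n, f (wN n w) := by
  classical
  unfold W
  rw [Finset.sum_image (fun _ _ _ _ h => wN_injective n h)]

/-! ### Initial pieces -/

/-- the first `l` steps -/
def tr (l : ℕ) (v : ℕ → ℤ × ℤ) : ℕ → ℤ × ℤ := fun k => v (min k l)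

lemma tr_of_le {l k : ℕ} (v : ℕ → ℤ × ℤ) (h : k ≤ l) : tr l v k = v k := by
  unfold tr; rw [min_eq_left h]

lemma tr_ge {l k : ℕ} (v : ℕ → ℤ × ℤ) (h : l ≤ k) : tr l v k = v l := by
  unfold tr; rw [min_eq_right h]

lemma tr_tr {l m : ℕ} (h : l ≤ m) (v : ℕ → ℤ × ℤ) : tr l (tr m v) = tr l v := by
  funext k
  unfold tr
  congr 1
  omega

lemma isW_tr {n l : ℕ} {v : ℕ → ℤ × ℤ} (h : IsW n v) (hl : l ≤ n) : IsW l (tr l v) := by
  refine ⟨?_, ?_, ?_, ?_⟩
  · rw [tr_of_le _ (Nat.zero_le _)]; exact h.1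
  · intro k hk
    rw [tr_of_le _ hk.le, tr_of_le _ hk]
    exact h.2.1 k (by omega)
  · intro i j hij hj
    rw [tr_of_le _ (by omega), tr_of_le _ hj]
    exact h.2.2.1 i j hij (by omega)
  · intro k hk
    rw [tr_ge _ hk, tr_ge _ le_rfl]

/-! ### Closing walks -/

open scoped Classical in
/-- the walks whose last site is a neighbour of the origin -/
noncomputable def cl (n : ℕ) : Finset (ℕ → ℤ × ℤ) := (W n).filter fun v => adj 0 (v n)

lemma mem_cl {n : ℕ} {v : ℕ → ℤ × ℤ} : v ∈ cl n ↔ IsW n v ∧ adj 0 (v n) := by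
  unfold cl
  rw [Finset.mem_filter, mem_W]

/-- `B` has only its starting point in common with the first `l` steps of `A` -/
def Av (l : ℕ) (A : ℕ → ℤ × ℤ) (m : ℕ) (B : ℕ → ℤ × ℤ) : Prop :=
  ∀ j, 1 ≤ j → j ≤ m → ∀ i ≤ l, B j ≠ A i

open scoped Classical in
/-- the `m`-step walks avoiding the first `l` steps of `A` -/
noncomputable def Z (l : ℕ) (A : ℕ → ℤ × ℤ) (m : ℕ) : Finset (ℕ → ℤ × ℤ) :=
  (W m).filter fun B => Av l A m B

lemma mem_Z {l m : ℕ} {A B : ℕ → ℤ × ℤ} : B ∈ Z l A m ↔ IsW m B ∧ Av l A m B := by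
  classical
  unfold Z
  rw [Finset.mem_filter, mem_W]

lemma Z_anti {l l' m : ℕ} (h : l ≤ l') (A : ℕ → ℤ × ℤ) : Z l' A m ⊆ Z l A m := by
  intro B hB
  rw [mem_Z] at hB ⊢
  exact ⟨hB.1, fun j h1 h2 i hi => hB.2 j h1 h2 i (by omega)⟩

lemma Z_congr {l m : ℕ} {A A' : ℕ → ℤ × ℤ} (h : ∀ i ≤ l, A i = A' i) : Z l A m = Z l A' m := by
  ext B
  rw [mem_Z, mem_Z]
  refine and_congr_right fun _ => ?_
  unfold Av
  constructor
  · intro h1 j a b i hi
    rw [← h i hi]; exact h1 j a b i hi
  · intro h1 j a b i hi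
    rw [h i hi]; exact h1 j a b i hi

/-- the other way round a closing walk: `0, v n, v (n-1), ..., v (l+1)` -/
def rot (n l : ℕ) (v : ℕ → ℤ × ℤ) : ℕ → ℤ × ℤ := fun j =>
  if min j (n - l) = 0 then 0 else v (n + 1 - min j (n - l))

lemma rot_zero (n l : ℕ) (v : ℕ → ℤ × ℤ) : rot n l v 0 = 0 := by
  simp [rot]

lemma rot_of_le {n l j : ℕ} (v : ℕ → ℤ × ℤ) (h1 : 1 ≤ j) (h2 : j ≤ n - l) :
    rot n l v j = v (n + 1 - j) := by
  unfold rot
  rw [min_eq_left h2, if_neg (by omega)]

lemma rot_mem {n l : ℕ} {v : ℕ → ℤ × ℤ} (h : v ∈ cl n) (hl : l < n) :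
    rot n l v ∈ Z l v (n - l) := by
  rw [mem_cl] at h
  obtain ⟨h, hc⟩ := h
  rw [mem_Z]
  refine ⟨⟨rot_zero n l v, ?_, ?_, ?_⟩, ?_⟩
  · intro k hk
    rcases Nat.eq_zero_or_pos k with h0 | h0
    · subst h0
      rw [rot_zero, rot_of_le v (by omega) (by omega)]
      exact hc
    · rw [rot_of_le v h0 hk.le, rot_of_le v (by omega) hk, adj_comm]
      have := h.2.1 (n + 1 - (k + 1)) (by omega)
      rwa [show n + 1 - (k + 1) + 1 = n + 1 - k by omega] at this
  · intro i j hij hj
    rw [rot_of_le v (by omega) hj]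
    rcases Nat.eq_zero_or_pos i with h0 | h0
    · subst h0
      rw [rot_zero, ← h.1]
      exact h.ne (by omega) (by omega) (by omega)
    · rw [rot_of_le v h0 (by omega)]
      exact h.ne (by omega) (by omega) (by omega)
  · intro k hk
    unfold rot
    rw [min_eq_right hk, min_self]
  · intro j h1 h2 i hi
    rw [rot_of_le v h1 h2]
    exact h.ne (by omega) (by omega) (by omega)

lemma rot_last {n l : ℕ} (v : ℕ → ℤ × ℤ) (hl : l < n) : rot n l v (n - l) = v (l + 1) := by
  rw [rot_of_le v (by omega) le_rfl]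
  congr 1
  omega

/-- a walk is determined by its first `l` steps and the rotated rest -/
lemma eq_of_rot {n l : ℕ} {v v' : ℕ → ℤ × ℤ} (h : IsW n v) (h' : IsW n v')
    (hl : l < n) (h1 : tr l v = tr l v') (h2 : rot n l v = rot n l v') : v = v' := by
  have key : ∀ k ≤ n, v k = v' k := by
    intro k hk
    rcases le_or_gt k l with hkl | hkl
    · have := congrFun h1 k
      rwa [tr_of_le _ hkl, tr_of_le _ hkl] at this
    · have := congrFun h2 (n + 1 - k)
      rw [rot_of_le _ (by omega) (by omega), rot_of_le _ (by omega) (by omega)] at this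
      rwa [show n + 1 - (n + 1 - k) = k by omega] at this
  funext k
  rcases le_total k n with hk | hk
  · exact key k hk
  · rw [h.2.2.2 k hk, h'.2.2.2 k hk]
    exact key n le_rfl

/-! ### Pairs of walks from the same point -/

/-- the walk `A` backwards followed by `B`, moved to start at the origin -/
def glue (l m : ℕ) (A B : ℕ → ℤ × ℤ) : ℕ → ℤ × ℤ := fun k =>
  if k ≤ l then A (l - k) - A l else B (min (k - l) m) - A l

lemma glue_le {l m k : ℕ} (A B : ℕ → ℤ × ℤ) (h : k ≤ l) : glue l m A B k = A (l - k) - A l := by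
  unfold glue; rw [if_pos h]

lemma glue_gt {l m k : ℕ} (A B : ℕ → ℤ × ℤ) (h : l < k) :
    glue l m A B k = B (min (k - l) m) - A l := by
  unfold glue; rw [if_neg (by omega)]

lemma adj_sub (p q r : ℤ × ℤ) : adj (p - r) (q - r) ↔ adj p q := by
  rw [adj_iff, adj_iff]
  rw [sub_sub_sub_cancel_right]

lemma glue_mem {l m : ℕ} {A B : ℕ → ℤ × ℤ} (hA : IsW l A) (hB : B ∈ Z l A m) :
    IsW (l + m) (glue l m A B) := by
  rw [mem_Z] at hB
  obtain ⟨hB, hav⟩ := hB
  have key : ∀ j ≤ m, glue l m A B (l + j) = B j - A l := by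
    intro j hj
    rcases Nat.eq_zero_or_pos j with h0 | h0
    · subst h0
      rw [glue_le _ _ (by omega), Nat.add_zero, Nat.sub_self, hA.1, hB.1]
    · rw [glue_gt _ _ (by omega), Nat.add_sub_cancel_left, min_eq_left hj]
  refine ⟨?_, ?_, ?_, ?_⟩
  · rw [glue_le _ _ (Nat.zero_le _), Nat.sub_zero, sub_self]
  · intro k hk
    rcases Nat.lt_or_ge k l with hkl | hkl
    · rw [glue_le _ _ hkl.le, glue_le _ _ hkl, adj_sub, adj_comm]
      have := hA.2.1 (l - (k + 1)) (by omega)
      rwa [show l - (k + 1) + 1 = l - k by omega] at this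
    · obtain ⟨j, rfl⟩ := Nat.exists_eq_add_of_le hkl
      rw [key j (by omega), show l + j + 1 = l + (j + 1) by omega, key (j + 1) (by omega), adj_sub]
      exact hB.2.1 j (by omega)
  · intro i j hij hj
    rcases Nat.lt_or_ge l j with hjl | hjl
    · obtain ⟨j', rfl⟩ := Nat.exists_eq_add_of_le hjl.le
      rw [key j' (by omega)]
      rcases Nat.lt_or_ge i l with hil | hil
      · rw [glue_le _ _ hil.le]
        intro he
        exact hav j' (by omega) (by omega) (l - i) (by omega) (sub_left_inj.1 he).symm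
      · obtain ⟨i', rfl⟩ := Nat.exists_eq_add_of_le hil
        rw [key i' (by omega)]
        intro he
        exact hB.2.2.1 i' j' (by omega) (by omega) (sub_left_inj.1 he)
    · rw [glue_le _ _ (by omega), glue_le _ _ hjl]
      intro he
      have := hA.inj (by omega) (by omega) (sub_left_inj.1 he)
      omega
  · intro k hk
    rcases Nat.eq_zero_or_pos m with h0 | h0
    · subst h0
      have e1 := key 0 le_rfl
      rw [e1]
      rcases Nat.lt_or_ge l k with hkl | hkl
      · rw [glue_gt _ _ hkl, Nat.min_zero]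
      · have : k = l + 0 := by omega
        rw [this, e1]
    · rw [key m le_rfl, glue_gt _ _ (by omega), min_eq_right (by omega)]

lemma glue_inj {l m : ℕ} {A B A' B' : ℕ → ℤ × ℤ} (hA : IsW l A) (hA' : IsW l A')
    (hB : IsW m B) (hB' : IsW m B') (h : glue l m A B = glue l m A' B') : A = A' ∧ B = B' := by
  have e0 : A l = A' l := by
    have := congrFun h l
    rw [glue_le _ _ le_rfl, glue_le _ _ le_rfl, Nat.sub_self, hA.1, hA'.1, zero_sub, zero_sub,
      neg_inj] at this
    exact this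
  have keyA : ∀ k ≤ l, A k = A' k := by
    intro k hk
    have := congrFun h (l - k)
    rw [glue_le _ _ (by omega), glue_le _ _ (by omega), show l - (l - k) = k by omega, e0] at this
    exact sub_left_inj.1 this
  have keyB : ∀ k ≤ m, B k = B' k := by
    intro k hk
    rcases Nat.eq_zero_or_pos k with h0 | h0
    · subst h0; rw [hB.1, hB'.1]
    · have := congrFun h (l + k)
      rw [glue_gt _ _ (by omega), glue_gt _ _ (by omega), Nat.add_sub_cancel_left,
        min_eq_left hk, e0] at this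
      exact sub_left_inj.1 this
  constructor
  · funext k
    rcases le_total k l with hk | hk
    · exact keyA k hk
    · rw [hA.2.2.2 k hk, hA'.2.2.2 k hk]; exact keyA l le_rfl
  · funext k
    rcases le_total k m with hk | hk
    · exact keyB k hk
    · rw [hB.2.2.2 k hk, hB'.2.2.2 k hk]; exact keyB m le_rfl

/-- the number of pairs of walks of `l` and `m` steps which meet only at the origin -/
theorem sum_card_Z_le (l m : ℕ) : ∑ A ∈ W l, (Z l A m).card ≤ (W (l + m)).card := by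
  classical
  rw [← Finset.card_sigma]
  apply Finset.card_le_card_of_injOn (fun p => glue l m p.1 p.2)
  · rintro ⟨A, B⟩ hp
    rw [Finset.mem_coe, Finset.mem_sigma] at hp
    rw [Finset.mem_coe, mem_W]
    exact glue_mem (mem_W.1 hp.1) hp.2
  · rintro ⟨A, B⟩ hp ⟨A', B'⟩ hp' he
    rw [Finset.mem_coe, Finset.mem_sigma] at hp hp'
    obtain ⟨e1, e2⟩ := glue_inj (mem_W.1 hp.1) (mem_W.1 hp'.1) (mem_Z.1 hp.2).1 (mem_Z.1 hp'.2).1 he
    subst e1
    subst e2
    rfl

open scoped Classical in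
/-- Rotation: for a walk `χ` and `m ≥ 1` the closing continuations of the initial pieces of `χ`
by `m` steps number at most four times the walks avoiding the shortest piece. -/
theorem sum_card_cl_le (χ : ℕ → ℤ × ℤ) (l₀ K m : ℕ) (hm : 1 ≤ m)
    (hχ : ∀ i j, i < K → j < K → χ i = χ j → i = j) :
    ∑ l ∈ Finset.Ico l₀ K, ((cl (l + m)).filter fun v => tr l v = tr l χ).card ≤
      (Z l₀ χ m).card * 4 := by
  classical
  rw [← Finset.card_sigma, show (4 : ℕ) = dirs.card by decide, ← Finset.card_product]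
  apply Finset.card_le_card_of_injOn
    (fun p => (rot (p.1 + m) p.1 p.2, χ p.1 - rot (p.1 + m) p.1 p.2 m))
  · rintro ⟨l, v⟩ hp
    rw [Finset.mem_coe, Finset.mem_sigma, Finset.mem_Ico, Finset.mem_filter] at hp
    obtain ⟨⟨h1, h2⟩, h3, h4⟩ := hp
    simp only at h1 h2 h3 h4
    rw [Finset.mem_coe, Finset.mem_product]
    have hv : ∀ i ≤ l, v i = χ i := by
      intro i hi
      have := congrFun h4 i
      rwa [tr_of_le _ hi, tr_of_le _ hi] at this
    refine ⟨?_, ?_⟩
    · have h5 := rot_mem h3 (by omega : l < l + m)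
      rw [Nat.add_sub_cancel_left] at h5
      have h6 := Z_anti h1 v h5
      rwa [Z_congr (fun i hi => hv i (by omega))] at h6
    · have h5 := rot_last v (by omega : l < l + m)
      rw [Nat.add_sub_cancel_left] at h5
      simp only
      rw [h5, ← hv l le_rfl, ← adj_iff, adj_comm]
      exact (mem_cl.1 h3).1.2.1 l (by omega)
  · rintro ⟨l, v⟩ hp ⟨l', v'⟩ hp' he
    rw [Finset.mem_coe, Finset.mem_sigma, Finset.mem_Ico, Finset.mem_filter] at hp hp'
    obtain ⟨⟨h1, h2⟩, h3, h4⟩ := hp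
    obtain ⟨⟨h1', h2'⟩, h3', h4'⟩ := hp'
    simp only at h1 h2 h3 h4 h1' h2' h3' h4'
    simp only [Prod.mk.injEq] at he
    obtain ⟨e1, e2⟩ := he
    rw [e1] at e2
    have e3 : l = l' := hχ l l' h2 h2' (sub_left_inj.1 e2)
    subst e3
    have e4 : v = v' := eq_of_rot (mem_cl.1 h3).1 (mem_cl.1 h3').1 (by omega) (h4.trans h4'.symm) e1
    subst e4
    rfl

lemma cl_subset (n : ℕ) : cl n ⊆ W n := by
  classical
  exact Finset.filter_subset _ _

end Pool.Agent.SawClose
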