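import Pool.Agent.SawClose.Good

/-!
From one length with a small closing probability to a block of lengths.
-/

set_option autoImplicit false

open Pool.Agent.SawLim Pool.Agent.SawKes Pool.Agent.SawMrg

namespace Pool.Agent.SawClose

lemma iter (q : ℕ → ℝ) (a b : ℝ) (ha : 0 ≤ a) (hb : 0 ≤ b) (hq : 0 ≤ q 0) (k : ℕ)
    (h : ∀ i < k, q (i + 1) ≤ q i * (1 + a) + b) : q k ≤ Real.exp (a * k) * (q 0 + b * k) := by
  induction k with
  | zero => simp
  | succ k ih =>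
    have h1 := ih (fun i hi => h i (by omega))
    have h2 := h k (by omega)
    have h3 : 1 + a ≤ Real.exp a := by
      have := Real.add_one_le_exp a
      linarith
    have h4 : Real.exp (a * ((k + 1 : ℕ) : ℝ)) = Real.exp (a * k) * Real.exp a := by
      rw [← Real.exp_add]
      congr 1
      push_cast
      ring
    have h5 : 1 ≤ Real.exp (a * k) := Real.one_le_exp (by positivity)
    have h6 : 1 ≤ Real.exp a := Real.one_le_exp ha
    calc q (k + 1) ≤ q k * (1 + a) + b := h2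
      _ ≤ (Real.exp (a * k) * (q 0 + b * k)) * (1 + a) + b := by
          have := mul_le_mul_of_nonneg_right h1 (by linarith : 0 ≤ 1 + a)
          linarith
      _ ≤ (Real.exp (a * k) * (q 0 + b * k)) * Real.exp a + b := by
          have h7 : 0 ≤ Real.exp (a * k) * (q 0 + b * k) := by positivity
          have := mul_le_mul_of_nonneg_left h3 h7
          linarith
      _ ≤ (Real.exp (a * k) * (q 0 + b * k)) * Real.exp a + Real.exp (a * k) * Real.exp a * b := by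
          have h8 : 1 ≤ Real.exp (a * k) * Real.exp a := by
            rw [← Real.exp_add]
            exact Real.one_le_exp (by positivity)
          have h9 := mul_le_mul_of_nonneg_right h8 hb
          linarith
      _ = Real.exp (a * ((k + 1 : ℕ) : ℝ)) * (q 0 + b * ((k + 1 : ℕ) : ℝ)) := by
          rw [h4]; push_cast; ring

/-- **Closing probability on blocks of lengths.** -/
theorem blocks (δ : ℝ) (hδ : 0 < δ) (hδ' : δ < 1 / 2) : ∃ N₀ : ℕ, ∀ N : ℕ, N₀ ≤ N →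
    ∃ M : ℕ, N ≤ M ∧ (M : ℝ) ≤ N + (N : ℝ) ^ (1 - δ / 4) ∧
      ∀ n : ℕ, M ≤ n → (n : ℝ) ≤ M + (M : ℝ) ^ (1 / 2 - δ) → cp n ≤ (n : ℝ) ^ (-1 + δ) := by
  classical
  obtain ⟨C, hC, N₁, h₁⟩ := good δ hδ hδ'
  obtain ⟨a, ha, _, hbal⟩ := balanced_large
  obtain ⟨N₂, h₂⟩ := hbal (δ / 4) (by positivity) (by linarith)
  have hm : 1 ≤ mu ^ 2 := one_le_pow₀ one_le_mu
  obtain ⟨K, hKdef⟩ : ∃ K, K = KC (mu ^ 2) a := ⟨_, rfl⟩
  have h8 : 8 ≤ K := by rw [hKdef]; exact eight_le_KC hm ha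
  obtain ⟨N₃, h₃⟩ := eventually_lt_rpow (δ / 8) (by positivity) 23
  obtain ⟨N₄, h₄⟩ := eventually_lt_rpow (1 / 2 - δ / 4) (by linarith) (2 * K)
  obtain ⟨N₅, h₅⟩ := eventually_lt_rpow (3 * δ / 4) (by positivity) (4 * K)
  obtain ⟨N₆, h₆⟩ := eventually_lt_rpow (δ / 4) (by positivity) (9 * (C + 4 * K))
  obtain ⟨N₇, h₇⟩ : ∃ N : ℕ, ∀ n : ℕ, N ≤ n → 8 * mu ^ 2 ≤ a * n := by
    obtain ⟨N, hN⟩ := exists_nat_ge (8 * mu ^ 2 / a)
    refine ⟨N, fun n hn => ?_⟩
    have : (N : ℝ) ≤ n := by exact_mod_cast hn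
    have h3 : 8 * mu ^ 2 / a ≤ n := hN.trans this
    rw [div_le_iff₀ ha] at h3
    linarith
  refine ⟨N₁ + N₂ + N₃ + N₄ + N₅ + N₆ + N₇ + 2, fun N hN => ?_⟩
  have hNr : (0 : ℝ) < N := by exact_mod_cast (by omega : 0 < N)
  have hNr1 : (1 : ℝ) ≤ N := by exact_mod_cast (by omega : 1 ≤ N)
  obtain ⟨M, hM1, hM2, hM3, hM4⟩ := h₁ N (by omega)
  have hMN : (N : ℝ) ≤ M := by exact_mod_cast hM1
  have hMr : (0 : ℝ) < M := by linarith
  have hspan : 23 * (N : ℝ) ^ (1 - 3 * δ / 8) ≤ (N : ℝ) ^ (1 - δ / 4) := by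
    have h1 := h₃ N (by omega)
    calc 23 * (N : ℝ) ^ (1 - 3 * δ / 8) ≤ (N : ℝ) ^ (δ / 8) * (N : ℝ) ^ (1 - 3 * δ / 8) :=
          mul_le_mul_of_nonneg_right h1.le (Real.rpow_nonneg hNr.le _)
      _ = _ := by
          rw [← Real.rpow_add hNr]
          congr 1; ring
  have hspan2 : (N : ℝ) ^ (1 - δ / 4) ≤ N := by
    calc (N : ℝ) ^ (1 - δ / 4) ≤ (N : ℝ) ^ (1 : ℝ) :=
          Real.rpow_le_rpow_of_exponent_le hNr1 (by linarith)
      _ = N := Real.rpow_one _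
  have hM2N : (M : ℝ) ≤ 2 * N := by linarith
  refine ⟨M, hM1, by linarith, fun n hn hn2 => ?_⟩
  have hnN : (N : ℝ) ≤ n := hMN.trans (by exact_mod_cast hn)
  have hnr : (0 : ℝ) < n := by linarith
  have hpow : (M : ℝ) ^ (1 / 2 - δ) ≤ 2 * (N : ℝ) ^ (1 / 2 - δ) := by
    calc (M : ℝ) ^ (1 / 2 - δ) ≤ (2 * (N : ℝ)) ^ (1 / 2 - δ) :=
          Real.rpow_le_rpow hMr.le hM2N (by linarith)
      _ = 2 ^ (1 / 2 - δ) * (N : ℝ) ^ (1 / 2 - δ) := Real.mul_rpow (by norm_num) hNr.le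
      _ ≤ 2 * (N : ℝ) ^ (1 / 2 - δ) := by
          apply mul_le_mul_of_nonneg_right _ (Real.rpow_nonneg hNr.le _)
          calc (2 : ℝ) ^ (1 / 2 - δ) ≤ 2 ^ (1 : ℝ) :=
                Real.rpow_le_rpow_of_exponent_le (by norm_num) (by linarith)
            _ = 2 := Real.rpow_one 2
  have hMpow : (M : ℝ) ^ (1 / 2 - δ) ≤ N := by
    have h1 : (N : ℝ) ^ (1 / 2 - δ) ≤ (N : ℝ) ^ ((1 : ℝ) / 2) :=
      Real.rpow_le_rpow_of_exponent_le hNr1 (by linarith)
    have h2 : 2 * (N : ℝ) ^ ((1 : ℝ) / 2) ≤ N := by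
      have h3 : (2 : ℝ) ≤ (N : ℝ) ^ ((1 : ℝ) / 2) := by
        have h4 := h₄ N (by omega)
        have h5 : (N : ℝ) ^ (1 / 2 - δ / 4) ≤ (N : ℝ) ^ ((1 : ℝ) / 2) :=
          Real.rpow_le_rpow_of_exponent_le hNr1 (by linarith)
        linarith
      have h4 : (N : ℝ) ^ ((1 : ℝ) / 2) * (N : ℝ) ^ ((1 : ℝ) / 2) = N := by
        rw [← Real.rpow_add hNr]; norm_num
      have h6 := mul_le_mul_of_nonneg_right h3 (by linarith : (0 : ℝ) ≤ (N : ℝ) ^ ((1 : ℝ) / 2))
      linarith only [h4, h6]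
    linarith
  have hn3N : (n : ℝ) ≤ 3 * N := by linarith
  rcases Nat.even_or_odd n with hev | hod
  · unfold cp
    rw [cl_even hev]
    simp only [Finset.card_empty, Nat.cast_zero, zero_div]
    exact Real.rpow_nonneg hnr.le _
  · obtain ⟨k, hk⟩ : ∃ k, n = M + 2 * k := by
      obtain ⟨i, hi⟩ := hod
      obtain ⟨j, hj⟩ := hM2
      exact ⟨i - j, by omega⟩
    subst hk
    obtain ⟨al, hal⟩ : ∃ al, al = 4 * K * (N : ℝ) ^ (δ / 4 - 1 / 2) := ⟨_, rfl⟩
    obtain ⟨be, hbe⟩ : ∃ be, be = 4 * K / (N : ℝ) ^ 3 := ⟨_, rfl⟩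
    have hal0 : 0 ≤ al := by rw [hal]; positivity
    have hbe0 : 0 ≤ be := by rw [hbe]; positivity
    have hit := iter (fun i => cp (M + 2 * i)) al be hal0 hbe0 (cp_nonneg _) k (by
      intro i hi
      have hiN : N ≤ M + 2 * i := by omega
      have hir : (N : ℝ) ≤ ((M + 2 * i : ℕ) : ℝ) := by exact_mod_cast hiN
      have hi0 : (0 : ℝ) < ((M + 2 * i : ℕ) : ℝ) := by linarith
      have hi1 : (1 : ℝ) ≤ ((M + 2 * i : ℕ) : ℝ) := by linarith
      have hexp : ((M + 2 * i : ℕ) : ℝ) ^ (δ / 4 - 1 / 2) ≤ (N : ℝ) ^ (δ / 4 - 1 / 2) :=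
        Real.rpow_le_rpow_of_nonpos hNr hir (by linarith)
      have hsmall : K * (N : ℝ) ^ (δ / 4 - 1 / 2) ≤ 1 / 2 := by
        have h1 := h₄ N (by omega)
        have h2 : (N : ℝ) ^ (1 / 2 - δ / 4) * (N : ℝ) ^ (δ / 4 - 1 / 2) = 1 := by
          rw [← Real.rpow_add hNr]
          have : 1 / 2 - δ / 4 + (δ / 4 - 1 / 2) = 0 := by ring
          rw [this, Real.rpow_zero]
        have h3 : 0 < (N : ℝ) ^ (δ / 4 - 1 / 2) := Real.rpow_pos_of_pos hNr _
        have h4 := mul_le_mul_of_nonneg_right h1.le h3.le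
        linarith only [h2, h4]
      have hK0 : 0 ≤ K := by linarith
      have hst := cp_step (n := M + 2 * i) (e := ((M + 2 * i : ℕ) : ℝ) ^ (δ / 4 - 1 / 2)) hm ha
        (by omega) (h₇ _ (by omega)) (by
          rw [one_div, ← Real.rpow_neg_one]
          exact Real.rpow_le_rpow_of_exponent_le hi1 (by linarith)) (by
          rw [← hKdef]
          have := mul_le_mul_of_nonneg_left hexp hK0
          linarith) (h₂ _ (by omega))
      rw [← hKdef] at hst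
      have e1 : M + 2 * (i + 1) = M + 2 * i + 2 := by ring
      beta_reduce
      rw [e1]
      refine hst.trans ?_
      have t1 : cp (M + 2 * i) * (1 + 4 * K * ((M + 2 * i : ℕ) : ℝ) ^ (δ / 4 - 1 / 2)) ≤
          cp (M + 2 * i) * (1 + al) := by
        apply mul_le_mul_of_nonneg_left _ (cp_nonneg _)
        rw [hal]
        have := mul_le_mul_of_nonneg_left hexp (by linarith : 0 ≤ 4 * K)
        linarith
      have t2 : 4 * K / ((M + 2 * i : ℕ) : ℝ) ^ 3 ≤ be := by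
        rw [hbe]
        apply div_le_div_of_nonneg_left (by linarith) (by positivity)
        exact pow_le_pow_left₀ hNr.le hir 3
      linarith)
    beta_reduce at hit
    rw [Nat.mul_zero, Nat.add_zero] at hit
    have hk2 : (2 * k : ℝ) ≤ (M : ℝ) ^ (1 / 2 - δ) := by
      have : ((M + 2 * k : ℕ) : ℝ) = M + 2 * k := by push_cast; ring
      rw [this] at hn2
      linarith
    have hkN : (k : ℝ) ≤ (N : ℝ) ^ (1 / 2 - δ) := by linarith
    have hkN' : (k : ℝ) ≤ N := by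
      have : (0 : ℝ) ≤ k := Nat.cast_nonneg _
      linarith
    have hak : al * k ≤ 1 := by
      have h1 : al * k ≤ al * (N : ℝ) ^ (1 / 2 - δ) := mul_le_mul_of_nonneg_left hkN hal0
      have h2 : al * (N : ℝ) ^ (1 / 2 - δ) = 4 * K * (N : ℝ) ^ (-(3 * δ / 4)) := by
        rw [hal, mul_assoc, ← Real.rpow_add hNr]
        congr 2; ring
      have h3 := h₅ N (by omega)
      have h4 : (N : ℝ) ^ (3 * δ / 4) * (N : ℝ) ^ (-(3 * δ / 4)) = 1 := by
        rw [← Real.rpow_add hNr]; simp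
      have h5 : 0 < (N : ℝ) ^ (-(3 * δ / 4)) := Real.rpow_pos_of_pos hNr _
      have h6 := mul_le_mul_of_nonneg_right h3.le h5.le
      linarith only [h1, h2, h4, h6]
    have hexp3 : Real.exp (al * k) ≤ 3 := by
      refine (Real.exp_le_exp.2 hak).trans ?_
      have := Real.exp_one_lt_d9
      norm_num at this ⊢
      linarith
    obtain ⟨T, hT⟩ : ∃ T : ℝ, T = (N : ℝ) ^ (-1 + 3 * δ / 4) := ⟨_, rfl⟩
    have hT0 : 0 < T := by rw [hT]; exact Real.rpow_pos_of_pos hNr _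
    have hbk : be * k ≤ 4 * K * T := by
      have h1 : be * k ≤ be * N := mul_le_mul_of_nonneg_left hkN' hbe0
      have h2 : be * N = 4 * K * ((N : ℝ) ^ 2)⁻¹ := by
        rw [hbe]; field_simp
      have h3 : ((N : ℝ) ^ 2)⁻¹ ≤ T := by
        rw [hT, ← Real.rpow_natCast, ← Real.rpow_neg hNr.le]
        apply Real.rpow_le_rpow_of_exponent_le hNr1
        push_cast
        linarith
      have := mul_le_mul_of_nonneg_left h3 (by linarith : 0 ≤ 4 * K)
      linarith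
    rw [← hT] at hM4
    have h9 : cp (M + 2 * k) ≤ 3 * ((C + 4 * K) * T) := by
      refine hit.trans ?_
      have hnn : 0 ≤ cp M + be * k := by
        have := cp_nonneg M
        positivity
      calc Real.exp (al * k) * (cp M + be * k) ≤ 3 * (cp M + be * k) :=
            mul_le_mul_of_nonneg_right hexp3 hnn
        _ ≤ 3 * ((C + 4 * K) * T) := by linarith
    have h10 : 9 * ((C + 4 * K) * T) ≤ (N : ℝ) ^ (-1 + δ) := by
      have h1 := h₆ N (by omega)
      have h2 : (N : ℝ) ^ (δ / 4) * T = (N : ℝ) ^ (-1 + δ) := by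
        rw [hT, ← Real.rpow_add hNr]
        congr 1; ring
      rw [← h2]
      calc 9 * ((C + 4 * K) * T) = (9 * (C + 4 * K)) * T := by ring
        _ ≤ _ := mul_le_mul_of_nonneg_right h1.le hT0.le
    have h11 : (N : ℝ) ^ (-1 + δ) ≤ 3 * ((M + 2 * k : ℕ) : ℝ) ^ (-1 + δ) := by
      have h1 : (3 * (N : ℝ)) ^ (-1 + δ) ≤ ((M + 2 * k : ℕ) : ℝ) ^ (-1 + δ) :=
        Real.rpow_le_rpow_of_nonpos hnr hn3N (by linarith)
      rw [Real.mul_rpow (by norm_num) hNr.le] at h1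
      have h2 : (1 / 3 : ℝ) ≤ 3 ^ (-1 + δ) := by
        calc (1 / 3 : ℝ) = 3 ^ (-1 : ℝ) := by rw [Real.rpow_neg_one]; norm_num
          _ ≤ 3 ^ (-1 + δ) := Real.rpow_le_rpow_of_exponent_le (by norm_num) (by linarith)
      have h3 : 0 < (N : ℝ) ^ (-1 + δ) := Real.rpow_pos_of_pos hNr _
      have h4 := mul_le_mul_of_nonneg_right h2 h3.le
      linarith only [h1, h4]
    linarith

end Pool.Agent.SawClose
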