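import Pool.Agent.SawClose.Window
import Pool.Agent.SawClose.Cp

/-!
There are odd lengths with a small closing probability in every window.
-/

set_option autoImplicit false

open Pool.Agent.SawLim Pool.Agent.SawKes Pool.Agent.SawMrg

namespace Pool.Agent.SawClose

/-- total weight in a block -/
noncomputable def SS (N L j : ℕ) : ℝ :=
  ∑ n ∈ Finset.Ico (N + j * (2 * L)) (N + j * (2 * L) + 2 * L), fW n

lemma SS_ge (N L j : ℕ) : ((2 * L : ℕ) : ℝ) ≤ SS N L j := by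
  unfold SS
  calc ((2 * L : ℕ) : ℝ) = ∑ _n ∈ Finset.Ico (N + j * (2 * L)) (N + j * (2 * L) + 2 * L), (1 : ℝ) := by
        rw [Finset.sum_const, Nat.card_Ico, nsmul_eq_mul, mul_one]
        congr 1
        omega
    _ ≤ _ := Finset.sum_le_sum fun n _ => fW_ge n

lemma SS_le {N L j : ℕ} {B : ℝ} (h : ∀ n, N + j * (2 * L) ≤ n → n < N + j * (2 * L) + 2 * L → fW n ≤ B) :
    SS N L j ≤ ((2 * L : ℕ) : ℝ) * B := by
  unfold SS
  calc _ ≤ ∑ _n ∈ Finset.Ico (N + j * (2 * L)) (N + j * (2 * L) + 2 * L), B := by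
        apply Finset.sum_le_sum
        intro n hn
        rw [Finset.mem_Ico] at hn
        exact h n hn.1 hn.2
    _ = _ := by
        rw [Finset.sum_const, Nat.card_Ico, nsmul_eq_mul]
        congr 2
        omega

/-- a block in the middle of which few walks close -/
lemma block_step {C κ : ℝ} (hC : 0 ≤ C)
    {N L j : ℕ} (hL : 1 ≤ L) (hj : 1 ≤ j)
    (hwin : QQ mu⁻¹ (N + j * (2 * L)) (2 * L) ≤
      C * κ * WW mu⁻¹ (N + j * (2 * L)) (2 * L)) (hκ : 0 ≤ κ)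
    (h : SS N L (j - 1) + SS N L (j + 1) ≤ 6 * SS N L j) :
    ∃ i < L, cp (N + j * (2 * L) + 2 * i) ≤ 7 * C * (1 + cc 1) * κ := by
  have hle : 2 * L ≤ j * (2 * L) := Nat.le_mul_of_pos_left _ hj
  obtain ⟨N', hN'⟩ : ∃ N', N' = N + j * (2 * L) := ⟨_, rfl⟩
  have e0 : N + (j - 1) * (2 * L) = N' - 2 * L := by
    rw [hN', Nat.sub_mul, Nat.one_mul]
    omega
  have e2 : N + (j + 1) * (2 * L) = N' + 2 * L := by
    rw [hN', Nat.add_mul, Nat.one_mul]
    omega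
  have hW : WW mu⁻¹ N' (2 * L) ≤ SS N L (j - 1) + SS N L j + SS N L (j + 1) := by
    have h1 : SS N L (j - 1) = ∑ n ∈ Finset.Ico (N' - 2 * L) N', fW n := by
      unfold SS
      rw [e0, Nat.sub_add_cancel (by omega)]
    have h2 : SS N L j = ∑ n ∈ Finset.Ico N' (N' + 2 * L), fW n := by
      unfold SS; rw [← hN']
    have h3 : SS N L (j + 1) = ∑ n ∈ Finset.Ico (N' + 2 * L) (N' + 2 * L + 2 * L), fW n := by
      unfold SS; rw [e2]
    rw [h1, h2, h3, Finset.sum_Ico_consecutive _ (by omega) (by omega),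
      Finset.sum_Ico_consecutive _ (by omega) (by omega)]
    unfold WW fW
    apply Finset.sum_le_sum_of_subset_of_nonneg
    · intro n hn
      rw [Finset.mem_Ico] at hn ⊢
      omega
    · intro n _ _
      have := mu_pos
      positivity
  rw [← hN'] at hwin ⊢
  have hS0 : 0 ≤ SS N L j := le_trans (Nat.cast_nonneg _) (SS_ge N L j)
  have hQ : QQ mu⁻¹ N' (2 * L) ≤ C * κ * (7 * SS N L j) := by
    refine hwin.trans ?_
    apply mul_le_mul_of_nonneg_left _ (by positivity)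
    linarith
  have hSodd : SS N L j ≤ (1 + cc 1) * ∑ i ∈ Finset.range L, fW (N' + 2 * i) := by
    unfold SS
    rw [← hN', sum_pairs, Finset.mul_sum]
    apply Finset.sum_le_sum
    intro i _
    have := fW_succ (N' + 2 * i)
    linarith
  have hQodd : ∑ i ∈ Finset.range L, (mu⁻¹) ^ (N' + 2 * i) * ((cl (N' + 2 * i)).card : ℝ) ≤
      QQ mu⁻¹ N' (2 * L) := by
    unfold QQ
    rw [sum_pairs]
    apply Finset.sum_le_sum
    intro i _
    have := mu_pos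
    have h1 : 0 ≤ (mu⁻¹) ^ (N' + 2 * i + 1) * ((cl (N' + 2 * i + 1)).card : ℝ) := by positivity
    linarith
  have hsum : ∑ i ∈ Finset.range L, (mu⁻¹) ^ (N' + 2 * i) * ((cl (N' + 2 * i)).card : ℝ) ≤
      ∑ i ∈ Finset.range L, 7 * C * (1 + cc 1) * κ * fW (N' + 2 * i) := by
    rw [← Finset.mul_sum]
    refine (hQodd.trans hQ).trans ?_
    calc C * κ * (7 * SS N L j) = 7 * C * κ * SS N L j := by ring
      _ ≤ 7 * C * κ * ((1 + cc 1) * ∑ i ∈ Finset.range L, fW (N' + 2 * i)) :=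
          mul_le_mul_of_nonneg_left hSodd (by positivity)
      _ = _ := by ring
  obtain ⟨i, hi, h4⟩ := Finset.exists_le_of_sum_le
    (Finset.nonempty_range_iff.2 (by omega : L ≠ 0)) hsum
  refine ⟨i, Finset.mem_range.1 hi, ?_⟩
  unfold cp
  have hcard : (0 : ℝ) < ((W (N' + 2 * i)).card : ℝ) := by
    rw [card_W]; exact card_saws_pos _
  rw [div_le_iff₀ hcard]
  unfold fW at h4
  have hmp : 0 < (mu⁻¹) ^ (N' + 2 * i) := by
    have := mu_pos
    positivity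
  have h5 : (mu⁻¹) ^ (N' + 2 * i) * ((cl (N' + 2 * i)).card : ℝ) ≤
      (mu⁻¹) ^ (N' + 2 * i) * (7 * C * (1 + cc 1) * κ * ((W (N' + 2 * i)).card : ℝ)) := by
    refine h4.trans (le_of_eq ?_)
    ring
  exact le_of_mul_le_mul_left h5 hmp

/-- odd lengths with a small closing probability -/
theorem good (δ : ℝ) (hδ : 0 < δ) (hδ' : δ < 1 / 2) : ∃ C : ℝ, 0 ≤ C ∧ ∃ N₀ : ℕ, ∀ N : ℕ, N₀ ≤ N →
    ∃ n : ℕ, N ≤ n ∧ Odd n ∧ (n : ℝ) ≤ N + 23 * (N : ℝ) ^ (1 - 3 * δ / 8) ∧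
      cp n ≤ C * (N : ℝ) ^ (-1 + 3 * δ / 4) := by
  obtain ⟨C, hC1, hwin⟩ := window (δ / 4) (by positivity) (by linarith)
  obtain ⟨n₀, h₀⟩ := hw_bound (δ / 8) (by positivity)
  obtain ⟨N₁, h₁⟩ := eventually_lt_rpow (δ / 8) (by positivity) 23
  have hC0 : 0 ≤ C := by linarith
  refine ⟨7 * C * (1 + cc 1), by positivity, max n₀ (max N₁ 2), fun N hN => ?_⟩
  have hNn : n₀ ≤ N := by omega
  have hN1 : N₁ ≤ N := by omega
  have hN2 : 2 ≤ N := by omega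
  have hNr : (0 : ℝ) < N := by exact_mod_cast (by omega : 0 < N)
  have hNr1 : (1 : ℝ) ≤ N := by exact_mod_cast (by omega : 1 ≤ N)
  obtain ⟨u, hu⟩ : ∃ u : ℝ, u = (N : ℝ) ^ (δ / 8) := ⟨_, rfl⟩
  have hu23 : 23 < u := by rw [hu]; exact h₁ N hN1
  obtain ⟨P, hP⟩ : ∃ P : ℝ, P = (N : ℝ) ^ (1 - δ / 2) := ⟨_, rfl⟩
  have hP2 : 2 ≤ P := by
    have h1 : u ≤ P := by
      rw [hu, hP]
      exact Real.rpow_le_rpow_of_exponent_le hNr1 (by linarith)
    linarith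
  obtain ⟨L, hL⟩ : ∃ L : ℕ, L = ⌊P⌋₊ := ⟨_, rfl⟩
  have hLP : (L : ℝ) ≤ P := by rw [hL]; exact Nat.floor_le (by linarith)
  have hLP2 : P < L + 1 := by rw [hL]; exact Nat.lt_floor_add_one P
  have hL1 : 1 ≤ L := by
    rw [hL]; exact Nat.le_floor (by push_cast; linarith)
  have h2L : P ≤ ((2 * L : ℕ) : ℝ) := by
    push_cast
    have : (1 : ℝ) ≤ L := by exact_mod_cast hL1
    linarith
  obtain ⟨y, hy⟩ : ∃ y : ℝ, y = (3 * (N : ℝ)) ^ (δ / 8) := ⟨_, rfl⟩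
  have hyu : y ≤ 3 * u := by
    rw [hy, hu, Real.mul_rpow (by norm_num) hNr.le]
    apply mul_le_mul_of_nonneg_right _ (Real.rpow_nonneg hNr.le _)
    calc (3 : ℝ) ^ (δ / 8) ≤ 3 ^ (1 : ℝ) :=
          Real.rpow_le_rpow_of_exponent_le (by norm_num) (by linarith)
      _ = 3 := Real.rpow_one 3
  have hy0 : 0 ≤ y := by rw [hy]; positivity
  obtain ⟨m, hm⟩ : ∃ m : ℕ, m = ⌈y⌉₊ + 1 := ⟨_, rfl⟩
  have hm1 : 1 ≤ m := by omega
  have hmy : y + 1 ≤ m := by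
    rw [hm]; push_cast
    have := Nat.le_ceil y
    linarith
  have hmy2 : (m : ℝ) ≤ y + 2 := by
    rw [hm]; push_cast
    have := Nat.ceil_lt_add_one hy0
    linarith
  obtain ⟨M₁, hM₁⟩ : ∃ M₁ : ℕ, M₁ = 2 * (N / 2) + 1 := ⟨_, rfl⟩
  have hMN : N ≤ M₁ := by omega
  have hMN2 : M₁ ≤ N + 1 := by omega
  have hodd : Odd M₁ := ⟨N / 2, hM₁⟩
  obtain ⟨R, hR⟩ : ∃ R : ℝ, R = (N : ℝ) ^ (1 - 3 * δ / 8) := ⟨_, rfl⟩
  have hR1 : 1 ≤ R := by rw [hR]; exact Real.one_le_rpow hNr1 (by linarith)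
  have huP : u * P = R := by
    rw [hu, hP, hR, ← Real.rpow_add hNr]
    congr 1; ring
  have hRN : 23 * R ≤ N := by
    have h1 : u * R ≤ N := by
      rw [hu, hR, ← Real.rpow_add hNr]
      calc (N : ℝ) ^ (δ / 8 + (1 - 3 * δ / 8)) ≤ (N : ℝ) ^ (1 : ℝ) :=
            Real.rpow_le_rpow_of_exponent_le hNr1 (by linarith)
        _ = N := Real.rpow_one _
    nlinarith
  have hspan : ((M₁ + (2 * m + 1) * (2 * L) : ℕ) : ℝ) ≤ N + 23 * R := by
    have h1 : (M₁ : ℝ) ≤ N + 1 := by exact_mod_cast hMN2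
    have h2 : (2 * (m : ℝ) + 1) ≤ 11 * u := by linarith
    have h3 : (2 * (m : ℝ) + 1) * (2 * L) ≤ 11 * u * (2 * P) := by
      apply mul_le_mul h2 (by linarith) (by positivity) (by linarith)
    have h4 : 11 * u * (2 * P) = 22 * R := by rw [← huP]; ring
    push_cast
    linarith
  have hspan2 : ((M₁ + (2 * m + 1) * (2 * L) : ℕ) : ℝ) ≤ 3 * N := by linarith
  have hspan3 : M₁ + (2 * m + 1) * (2 * L) ≤ 3 * N := by exact_mod_cast hspan2
  have hf : ∀ n, N ≤ n → n ≤ 3 * N → fW n ≤ Real.exp y := by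
    intro n hn hn3
    refine (fW_le (h₀ n (by omega))).trans ?_
    apply Real.exp_le_exp.2
    rw [hy]
    apply Real.rpow_le_rpow (Nat.cast_nonneg _) _ (by positivity)
    exact_mod_cast hn3
  have hexp : Real.exp y < 3 ^ m := by
    have h1 : Real.exp y ≤ Real.exp ((m : ℝ) * 1) := Real.exp_le_exp.2 (by linarith)
    rw [Real.exp_nat_mul] at h1
    refine lt_of_le_of_lt h1 ?_
    exact pow_lt_pow_left₀ (by
      have := Real.exp_one_lt_d9
      norm_num at this ⊢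
      linarith) (Real.exp_pos 1).le (by omega)
  have h2Lpos : (0 : ℝ) < ((2 * L : ℕ) : ℝ) := by exact_mod_cast (by omega : 0 < 2 * L)
  have hSle : ∀ j ≤ 2 * m, SS M₁ L j < 3 ^ m * SS M₁ L m := by
    intro j hj
    have hj2 : j * (2 * L) + 2 * L ≤ (2 * m + 1) * (2 * L) := by
      have : (j + 1) * (2 * L) ≤ (2 * m + 1) * (2 * L) := Nat.mul_le_mul_right _ (by omega)
      calc j * (2 * L) + 2 * L = (j + 1) * (2 * L) := by ring
        _ ≤ _ := this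
    have h1 : SS M₁ L j ≤ ((2 * L : ℕ) : ℝ) * Real.exp y := SS_le (by
      intro n hn1 hn2
      exact hf n (by omega) (by omega))
    have h2 := SS_ge M₁ L m
    calc SS M₁ L j ≤ ((2 * L : ℕ) : ℝ) * Real.exp y := h1
      _ < ((2 * L : ℕ) : ℝ) * 3 ^ m := mul_lt_mul_of_pos_left hexp h2Lpos
      _ = 3 ^ m * ((2 * L : ℕ) : ℝ) := mul_comm _ _
      _ ≤ 3 ^ m * SS M₁ L m := mul_le_mul_of_nonneg_left h2 (by positivity)
  obtain ⟨j, hj1, hj2, hj3⟩ := pigeon (fun j => SS M₁ L j) m hm1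
    (fun j => lt_of_lt_of_le h2Lpos (SS_ge M₁ L j)) (hSle 0 (by omega)) (hSle (2 * m) le_rfl)
  have hle : 2 * L ≤ j * (2 * L) := Nat.le_mul_of_pos_left _ hj1
  have hwin' := hwin mu⁻¹ (inv_pos.2 mu_pos) le_rfl (M₁ + j * (2 * L)) (2 * L) (by omega) (by omega)
  have hκ : 0 ≤ ((2 * L : ℕ) : ℝ) ^ (δ / 4 - 1) := Real.rpow_nonneg h2Lpos.le _
  obtain ⟨i, hi, hcp⟩ := block_step hC0 hL1 hj1 hwin' hκ hj3
  have hj4 : j * (2 * L) + 2 * L ≤ (2 * m + 1) * (2 * L) := by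
    have : (j + 1) * (2 * L) ≤ (2 * m + 1) * (2 * L) := Nat.mul_le_mul_right _ (by omega)
    calc j * (2 * L) + 2 * L = (j + 1) * (2 * L) := by ring
      _ ≤ _ := this
  refine ⟨M₁ + j * (2 * L) + 2 * i, by omega, ?_, ?_, ?_⟩
  · have e : M₁ + j * (2 * L) + 2 * i = M₁ + 2 * (j * L + i) := by ring
    rw [e]
    exact hodd.add_even (even_two_mul _)
  · rw [← hR]
    refine le_trans ?_ hspan
    exact_mod_cast (by omega : M₁ + j * (2 * L) + 2 * i ≤ M₁ + (2 * m + 1) * (2 * L))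
  · refine hcp.trans ?_
    apply mul_le_mul_of_nonneg_left _ (by positivity)
    calc ((2 * L : ℕ) : ℝ) ^ (δ / 4 - 1) ≤ P ^ (δ / 4 - 1) :=
          Real.rpow_le_rpow_of_nonpos (by linarith) h2L (by linarith)
      _ = (N : ℝ) ^ ((1 - δ / 2) * (δ / 4 - 1)) := by rw [hP, ← Real.rpow_mul hNr.le]
      _ ≤ (N : ℝ) ^ (-1 + 3 * δ / 4) := by
          apply Real.rpow_le_rpow_of_exponent_le hNr1
          nlinarith

end Pool.Agent.SawClose
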