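import Pool.Agent.SawClose.Ratio

/-!
Comparison of the laws of `n`-step and `(n+1)`-step self-avoiding walks, sharper constant.
-/

set_option autoImplicit false

open Pool.Agent.SawKes Pool.Agent.SawLim MeasureTheory Filter Topology

namespace Pool.Agent.SawClose

/-- the constant of the comparison -/
noncomputable def th : ℝ := (9 + mu ^ 2) / (6 * mu)

lemma th_pos : 0 < th := by
  unfold th
  have := mu_pos
  positivity

lemma th_sq : th ^ 2 = (9 + mu ^ 2) / (6 * mu ^ 2) * ((9 + mu ^ 2) / 6) := by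
  unfold th
  have := mu_pos
  field_simp

theorem law_one (δ : ℝ) (hδ : 0 < δ) (hδ' : δ < 1 / 2) : ∃ C₁ C₀ : ℝ, ∃ N : ℕ, 0 ≤ C₁ ∧ 0 ≤ C₀ ∧
    1 ≤ N ∧ ∀ n : ℕ, N ≤ n →
    ∀ F : C(unitInterval, EuclideanSpace ℝ (Fin 2)) → ℝ, LipschitzWith 1 F → (∀ x, 0 ≤ F x) →
      (∀ x, F x ≤ 1) → ∀ b : ℝ, 0 ≤ b →
      EF F b (n + 1) ≤ th ^ 2 * EF F b n + C₁ * b + C₀ * (n : ℝ) ^ (δ - 1 / 2) ∧
      EF F b n ≤ EF F b (n + 2) + C₁ * b + C₀ * (n : ℝ) ^ (δ - 1 / 2) := by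
  obtain ⟨a, ha, _, hbal⟩ := balanced_large
  obtain ⟨N₁, h₁⟩ := hbal δ hδ hδ'
  obtain ⟨C, hC, hR⟩ := merging_aux δ hδ hδ'
  obtain ⟨D, hD, N₄, hN₄, h₄⟩ := ratio_large δ hδ hδ'
  have hm : 1 ≤ mu ^ 2 := one_le_pow₀ one_le_mu
  obtain ⟨K, hKdef⟩ : ∃ K, K = KC (mu ^ 2) a := ⟨_, rfl⟩
  have h8 : 8 ≤ K := by rw [hKdef]; exact eight_le_KC hm ha
  obtain ⟨N₂, h₂⟩ : ∃ N : ℕ, ∀ n : ℕ, N ≤ n → (n : ℝ) ^ (δ - 1 / 2) ≤ 1 / (2 * K + 2 * C + 1) := by
    have h : Filter.Tendsto (fun n : ℕ => (n : ℝ) ^ (-(1 / 2 - δ))) Filter.atTop (nhds 0) :=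
      (tendsto_rpow_neg_atTop (by linarith : 0 < 1 / 2 - δ)).comp tendsto_natCast_atTop_atTop
    have h3 := h.eventually (ge_mem_nhds (show (0 : ℝ) < 1 / (2 * K + 2 * C + 1) by positivity))
    obtain ⟨N, hN⟩ := Filter.eventually_atTop.1 h3
    refine ⟨N, fun n hn => ?_⟩
    have := hN n hn
    rwa [neg_sub] at this
  obtain ⟨N₃, h₃⟩ : ∃ N : ℕ, ∀ n : ℕ, N ≤ n → 8 * mu ^ 2 ≤ a * n := by
    obtain ⟨N, hN⟩ := exists_nat_ge (8 * mu ^ 2 / a)
    refine ⟨N, fun n hn => ?_⟩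
    have : (N : ℝ) ≤ n := by exact_mod_cast hn
    have h3 : 8 * mu ^ 2 / a ≤ n := hN.trans this
    rw [div_le_iff₀ ha] at h3
    linarith
  obtain ⟨τ, hτ⟩ : ∃ τ, τ = (9 + mu ^ 2) / (6 * mu ^ 2) := ⟨_, rfl⟩
  have hτ0 : 0 < τ := by rw [hτ]; have := mu_pos; positivity
  refine ⟨10 + (τ + 1) * (180 * K) + 20 * K,
    D * (9 + mu ^ 2) / 6 + (τ + 1) * (C + 72 * K + D) + 8 * K,
    N₁ + N₂ + N₃ + N₄, by positivity, by positivity, by omega, fun n hn F hF hF0 hF1 b hb => ?_⟩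
  have hn1 : 1 ≤ n := by omega
  have k1 := h₁ n (by omega)
  have k2 := h₂ n (by omega)
  have k3 := h₃ n (by omega)
  have k4 := (hR n hn1).1
  obtain ⟨-, r2, r3, r4⟩ := h₄ n (by omega)
  have hnr : (1 : ℝ) ≤ n := by exact_mod_cast hn1
  have hn0 : (0 : ℝ) < n := by linarith
  have hen : 1 / (n : ℝ) ≤ (n : ℝ) ^ (δ - 1 / 2) := by
    rw [one_div, ← Real.rpow_neg_one]
    exact Real.rpow_le_rpow_of_exponent_le hnr (by linarith)
  have hE0 : 0 < (n : ℝ) ^ (δ - 1 / 2) := Real.rpow_pos_of_pos hn0 _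
  have hFabs : ∀ x, |F x| ≤ 1 := fun x => by rw [abs_of_nonneg (hF0 x)]; exact hF1 x
  obtain ⟨e, he⟩ : ∃ e, e = (n : ℝ) ^ (δ - 1 / 2) := ⟨_, rfl⟩
  rw [← he] at k1 k2 k4 r2 r3 r4 hen hE0 ⊢
  rw [le_div_iff₀ (by positivity)] at k2
  have hKe : K * e ≤ 1 / 2 := by
    have g1 : 0 ≤ C * e := by positivity
    have g2 : e * (2 * K + 2 * C + 1) = 2 * (K * e) + 2 * (C * e) + e := by ring
    linarith
  have s0 := EF_two hm ha hn1 k3 hen (by rw [← hKdef]; exact hKe) k1 hF hFabs hb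
  rw [← hKdef] at s0
  have c0 := cN_pos n
  have c1 := cN_pos (n + 1)
  have c2 := cN_pos (n + 2)
  have EF0 : ∀ m, 0 ≤ EF F b m := fun m => avg_nonneg (fun _ _ => hF0 _)
  have EF1 : ∀ m, EF F b m ≤ 1 := by
    intro m
    have h1 : EF F b m ≤ avg m (fun _ => (1 : ℝ)) := avg_mono (fun _ _ => hF1 _)
    refine h1.trans (le_of_eq ?_)
    rw [avg_eq, Finset.sum_const, nsmul_eq_mul]
    have := card_saws_pos m
    field_simp
  have key := ext_EF hF hF0 hF1 hb hn1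
  rw [← hτ] at r2
  have hR9 : cN (n + 2) / cN n ≤ 9 := by
    rw [div_le_iff₀ c0]
    have h1 := cN_succ_le hn1
    have h2 : cN (n + 2) ≤ 3 * cN (n + 1) := cN_succ_le (n := n + 1) (by omega)
    linarith
  have hR3 : cN (n + 2) / cN (n + 1) ≤ 3 := by
    rw [div_le_iff₀ c1]
    exact cN_succ_le (n := n + 1) (by omega)
  obtain ⟨A0, hA0⟩ : ∃ A0, A0 = EF F b n := ⟨_, rfl⟩
  obtain ⟨A1, hA1⟩ : ∃ A1, A1 = EF F b (n + 1) := ⟨_, rfl⟩
  obtain ⟨A2, hA2⟩ : ∃ A2, A2 = EF F b (n + 2) := ⟨_, rfl⟩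
  have z0 := EF0 n
  have z1 := EF0 (n + 1)
  have z2 := EF0 (n + 2)
  have y0 := EF1 n
  rw [← hA0, ← hA1, ← hA2] at key
  rw [← hA0, ← hA2] at s0
  rw [← hA0, ← hA1, ← hA2]
  rw [← hA0] at z0 y0
  rw [← hA1] at z1
  rw [← hA2] at z2
  -- divide by `6 c_{n+1}`
  have d1 : A1 ≤ cN n / cN (n + 1) *
      (9 * A0 + cN (n + 2) / cN n * A2 + ((cl (n + 1)).card : ℝ) / cN n) / 6 +
      (30 + 10 * (cN (n + 2) / cN (n + 1))) * b / 6 := by
    have e1 : (cN n / cN (n + 1) *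
      (9 * A0 + cN (n + 2) / cN n * A2 + ((cl (n + 1)).card : ℝ) / cN n) / 6 +
      (30 + 10 * (cN (n + 2) / cN (n + 1))) * b / 6) * (6 * cN (n + 1)) =
      9 * (cN n * A0) + cN (n + 2) * A2 + (30 * cN (n + 1) + 10 * cN (n + 2)) * b +
        ((cl (n + 1)).card : ℝ) := by
      field_simp
      ring
    have e2 : A1 * (6 * cN (n + 1)) ≤ (cN n / cN (n + 1) *
      (9 * A0 + cN (n + 2) / cN n * A2 + ((cl (n + 1)).card : ℝ) / cN n) / 6 +
      (30 + 10 * (cN (n + 2) / cN (n + 1))) * b / 6) * (6 * cN (n + 1)) := by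
      rw [e1]; linarith
    exact le_of_mul_le_mul_right e2 (by positivity)
  have d2 : cN (n + 2) / cN n * A2 ≤ mu ^ 2 * A0 + C * e + 36 * K * (5 * b + 2 * e) := by
    have e1 : A2 ≤ A0 + 4 * K * (5 * b + 2 * e) := by linarith [(abs_le.1 s0).2]
    have e2 : cN (n + 2) / cN n * A2 ≤ cN (n + 2) / cN n * (A0 + 4 * K * (5 * b + 2 * e)) :=
      mul_le_mul_of_nonneg_left e1 (by positivity)
    have e3 : cN (n + 2) / cN n * A0 ≤ (mu ^ 2 + C * e) * A0 :=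
      mul_le_mul_of_nonneg_right (by linarith [(abs_le.1 k4).2]) z0
    have e4 : C * e * A0 ≤ C * e := by
      have : 0 ≤ C * e := by positivity
      exact mul_le_of_le_one_right this y0
    have e5 : cN (n + 2) / cN n * (4 * K * (5 * b + 2 * e)) ≤ 9 * (4 * K * (5 * b + 2 * e)) :=
      mul_le_mul_of_nonneg_right hR9 (by positivity)
    have e6 : cN (n + 2) / cN n * (A0 + 4 * K * (5 * b + 2 * e)) =
        cN (n + 2) / cN n * A0 + cN (n + 2) / cN n * (4 * K * (5 * b + 2 * e)) := by ring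
    have e7 : (mu ^ 2 + C * e) * A0 = mu ^ 2 * A0 + C * e * A0 := by ring
    have e8 : 9 * (4 * K * (5 * b + 2 * e)) = 36 * K * (5 * b + 2 * e) := by ring
    rw [e6] at e2
    rw [e7] at e3
    rw [e8] at e5
    linarith only [e2, e3, e4, e5]
  have d3 : 9 * A0 + cN (n + 2) / cN n * A2 + ((cl (n + 1)).card : ℝ) / cN n ≤
      (9 + mu ^ 2) * A0 + (180 * K * b + (C + 72 * K + D) * e) := by
    linarith
  have d4 : 0 ≤ (9 + mu ^ 2) * A0 + (180 * K * b + (C + 72 * K + D) * e) := by positivity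
  have d5 : cN n / cN (n + 1) *
      (9 * A0 + cN (n + 2) / cN n * A2 + ((cl (n + 1)).card : ℝ) / cN n) ≤
      (τ + D * e) * ((9 + mu ^ 2) * A0 + (180 * K * b + (C + 72 * K + D) * e)) := by
    apply mul_le_mul r2 d3
    · have : 0 ≤ ((cl (n + 1)).card : ℝ) / cN n := by positivity
      positivity
    · positivity
  have d6 : (τ + D * e) * ((9 + mu ^ 2) * A0 + (180 * K * b + (C + 72 * K + D) * e)) ≤
      τ * (9 + mu ^ 2) * A0 + D * (9 + mu ^ 2) * e +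
        (τ + 1) * (180 * K * b + (C + 72 * K + D) * e) := by
    have g1 : D * e * ((9 + mu ^ 2) * A0) ≤ D * e * (9 + mu ^ 2) := by
      apply mul_le_mul_of_nonneg_left _ (by positivity)
      exact mul_le_of_le_one_right (by positivity) y0
    have g2 : (τ + D * e) * (180 * K * b + (C + 72 * K + D) * e) ≤
        (τ + 1) * (180 * K * b + (C + 72 * K + D) * e) :=
      mul_le_mul_of_nonneg_right (by linarith) (by positivity)
    have g3 : (τ + D * e) * ((9 + mu ^ 2) * A0 + (180 * K * b + (C + 72 * K + D) * e)) =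
        τ * (9 + mu ^ 2) * A0 + D * e * ((9 + mu ^ 2) * A0) +
          (τ + D * e) * (180 * K * b + (C + 72 * K + D) * e) := by ring
    have g4 : D * (9 + mu ^ 2) * e = D * e * (9 + mu ^ 2) := by ring
    rw [g3, g4]
    linarith only [g1, g2]
  have d7 : (30 + 10 * (cN (n + 2) / cN (n + 1))) * b / 6 ≤ 10 * b := by
    have g1 : cN (n + 2) / cN (n + 1) * b ≤ 3 * b := mul_le_mul_of_nonneg_right hR3 hb
    have g2 : (30 + 10 * (cN (n + 2) / cN (n + 1))) * b / 6 =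
        5 * b + 10 / 6 * (cN (n + 2) / cN (n + 1) * b) := by ring
    rw [g2]
    linarith only [g1]
  constructor
  · rw [th_sq, ← hτ]
    have q1 : 0 ≤ (τ + 1) * (180 * K * b + (C + 72 * K + D) * e) := by positivity
    have q2 : 0 ≤ K * b := by positivity
    have q3 : 0 ≤ K * e := by positivity
    have q4 : A1 ≤ (τ * (9 + mu ^ 2) * A0 + D * (9 + mu ^ 2) * e +
        (τ + 1) * (180 * K * b + (C + 72 * K + D) * e)) / 6 + 10 * b := by linarith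
    have q5 : τ * ((9 + mu ^ 2) / 6) * A0 + (10 + (τ + 1) * (180 * K) + 20 * K) * b +
        (D * (9 + mu ^ 2) / 6 + (τ + 1) * (C + 72 * K + D) + 8 * K) * e =
        (τ * (9 + mu ^ 2) * A0 + D * (9 + mu ^ 2) * e) / 6 +
        (τ + 1) * (180 * K * b + (C + 72 * K + D) * e) + 10 * b + 20 * (K * b) + 8 * (K * e) := by
      ring
    rw [q5]
    linarith
  · have g1 := (abs_le.1 s0).1
    have q2 : 0 ≤ K * b := by positivity
    have q3 : 0 ≤ K * e := by positivity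
    have q4 : 0 ≤ (τ + 1) * (180 * K) * b := by positivity
    have q5 : 0 ≤ (D * (9 + mu ^ 2) / 6 + (τ + 1) * (C + 72 * K + D)) * e := by positivity
    have q6 : (10 + (τ + 1) * (180 * K) + 20 * K) * b +
        (D * (9 + mu ^ 2) / 6 + (τ + 1) * (C + 72 * K + D) + 8 * K) * e =
        10 * b + (τ + 1) * (180 * K) * b + 20 * (K * b) +
          (D * (9 + mu ^ 2) / 6 + (τ + 1) * (C + 72 * K + D)) * e + 8 * (K * e) := by ring
    have q7 : 4 * K * (5 * b + 2 * e) = 20 * (K * b) + 8 * (K * e) := by ring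
    rw [q7] at g1
    rw [add_assoc, q6]
    linarith only [g1, q4, q5, hb]

theorem law_large (δ : ℝ) (hδ : 0 < δ) (hδ' : δ < 1 / 2) : ∃ C₁ C₀ : ℝ, ∃ N : ℕ, 0 ≤ C₁ ∧
    ∀ n : ℕ, N ≤ n → 1 ≤ n →
    ∀ F : C(unitInterval, EuclideanSpace ℝ (Fin 2)) → ℝ, LipschitzWith 1 F → (∀ x, 0 ≤ F x) →
      (∀ x, F x ≤ 1) → ∀ b : ℝ, 0 ≤ b →
      EF F b (n + 1) ≤ th ^ 2 * EF F b n + C₁ * b + C₀ * (n : ℝ) ^ (δ - 1 / 2) ∧
      EF F b n ≤ th ^ 2 * EF F b (n + 1) + C₁ * b + C₀ * (n : ℝ) ^ (δ - 1 / 2) := by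
  obtain ⟨C₁, C₀, N, hC₁, hC₀, hN, h⟩ := law_one δ hδ hδ'
  refine ⟨2 * C₁, 2 * C₀, N, by positivity, fun n hn hn1 F hF hF0 hF1 b hb => ?_⟩
  have hnr : (0 : ℝ) < n := by exact_mod_cast hn1
  have hE0 : 0 < (n : ℝ) ^ (δ - 1 / 2) := Real.rpow_pos_of_pos hnr _
  obtain ⟨a1, a2⟩ := h n hn F hF hF0 hF1 b hb
  obtain ⟨b1, -⟩ := h (n + 1) (by omega) F hF hF0 hF1 b hb
  have b1' : EF F b (n + 2) ≤ th ^ 2 * EF F b (n + 1) + C₁ * b +
      C₀ * ((n + 1 : ℕ) : ℝ) ^ (δ - 1 / 2) := b1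
  have k2 : ((n + 1 : ℕ) : ℝ) ^ (δ - 1 / 2) ≤ (n : ℝ) ^ (δ - 1 / 2) := by
    apply Real.rpow_le_rpow_of_nonpos hnr _ (by linarith)
    push_cast; linarith
  have k3 := mul_le_mul_of_nonneg_left k2 hC₀
  have k4 : 0 ≤ C₁ * b := by positivity
  have k5 : 0 ≤ C₀ * (n : ℝ) ^ (δ - 1 / 2) := by positivity
  constructor <;> linarith

theorem law_quant (δ : ℝ) (hδ : 0 < δ) (hδ' : δ < 1 / 2) : ∃ C : ℝ, 0 ≤ C ∧
    ∀ n : ℕ, 1 ≤ n →
    ∀ F : C(unitInterval, EuclideanSpace ℝ (Fin 2)) → ℝ, LipschitzWith 1 F → (∀ x, 0 ≤ F x) →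
      (∀ x, F x ≤ 1) → ∀ b : ℝ, 0 ≤ b →
      EF F b (n + 1) ≤ th ^ 2 * EF F b n + C * (b + (n : ℝ) ^ (δ - 1 / 2)) ∧
      EF F b n ≤ th ^ 2 * EF F b (n + 1) + C * (b + (n : ℝ) ^ (δ - 1 / 2)) := by
  obtain ⟨C₁, C₀, N, hC₁, h⟩ := law_large δ hδ hδ'
  have hth : 0 < th ^ 2 := pow_pos th_pos 2
  let ι := {p : (C(unitInterval, EuclideanSpace ℝ (Fin 2)) → ℝ) × ℝ //
    LipschitzWith 1 p.1 ∧ (∀ x, 0 ≤ p.1 x) ∧ (∀ x, p.1 x ≤ 1) ∧ 0 ≤ p.2}
  have EF0 : ∀ (i : ι) m, 0 ≤ EF i.1.1 i.1.2 m := fun i m => avg_nonneg (fun _ _ => i.2.2.1 _)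
  have EF1 : ∀ (i : ι) m, EF i.1.1 i.1.2 m ≤ 1 := by
    intro i m
    have h1 : EF i.1.1 i.1.2 m ≤ avg m (fun _ => (1 : ℝ)) := avg_mono (fun _ _ => i.2.2.2.1 _)
    refine h1.trans (le_of_eq ?_)
    rw [avg_eq, Finset.sum_const, nsmul_eq_mul]
    have := card_saws_pos m
    field_simp
  obtain ⟨D1, p1, h1⟩ := extend_rpow (ι := ι)
    (fun i n => EF i.1.1 i.1.2 (n + 1) - th ^ 2 * EF i.1.1 i.1.2 n - C₁ * i.1.2)
    (fun _ => 1) (δ - 1 / 2) C₀ N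
    (fun i n hn hn1 => by
      have := (h n hn hn1 i.1.1 i.2.1 i.2.2.1 i.2.2.2.1 i.1.2 i.2.2.2.2).1
      linarith)
    (fun i n hn => by
      have a1 := EF1 i (n + 1)
      have a2 : 0 ≤ th ^ 2 * EF i.1.1 i.1.2 n := mul_nonneg (by positivity) (EF0 i n)
      have a3 : 0 ≤ C₁ * i.1.2 := mul_nonneg hC₁ i.2.2.2.2
      linarith)
  obtain ⟨D2, p2, h2⟩ := extend_rpow (ι := ι)
    (fun i n => EF i.1.1 i.1.2 n - th ^ 2 * EF i.1.1 i.1.2 (n + 1) - C₁ * i.1.2)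
    (fun _ => 1) (δ - 1 / 2) C₀ N
    (fun i n hn hn1 => by
      have := (h n hn hn1 i.1.1 i.2.1 i.2.2.1 i.2.2.2.1 i.1.2 i.2.2.2.2).2
      linarith)
    (fun i n hn => by
      have a1 := EF1 i n
      have a2 : 0 ≤ th ^ 2 * EF i.1.1 i.1.2 (n + 1) := mul_nonneg (by positivity) (EF0 i (n + 1))
      have a3 : 0 ≤ C₁ * i.1.2 := mul_nonneg hC₁ i.2.2.2.2
      linarith)
  refine ⟨C₁ + D1 + D2, by linarith, fun n hn F hF hF0 hF1 b hb => ?_⟩
  have hn0 : (0 : ℝ) < n := by exact_mod_cast hn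
  have hE : 0 < (n : ℝ) ^ (δ - 1 / 2) := Real.rpow_pos_of_pos hn0 _
  have g1 := h1 ⟨(F, b), hF, hF0, hF1, hb⟩ n hn
  have g2 := h2 ⟨(F, b), hF, hF0, hF1, hb⟩ n hn
  simp only at g1 g2
  have m1 := mul_nonneg hC₁ hE.le
  have m2 := mul_nonneg p1 hE.le
  have m3 := mul_nonneg p2 hE.le
  have m4 := mul_nonneg p1 hb
  have m5 := mul_nonneg p2 hb
  have m6 : (C₁ + D1 + D2) * (b + (n : ℝ) ^ (δ - 1 / 2)) =
      C₁ * b + D1 * b + D2 * b + C₁ * (n : ℝ) ^ (δ - 1 / 2) + D1 * (n : ℝ) ^ (δ - 1 / 2) +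
        D2 * (n : ℝ) ^ (δ - 1 / 2) := by ring
  rw [m6]
  constructor <;> linarith

/-! ### The ratio `c_{n+1} / c_n` at all lengths -/

theorem ratio_all (δ : ℝ) (hδ : 0 < δ) (hδ' : δ < 1 / 2) : ∃ C : ℝ, 0 ≤ C ∧
    ∀ n : ℕ, 1 ≤ n →
      cN (n + 1) / cN n ≤ (9 + mu ^ 2) / 6 + C * (n : ℝ) ^ (δ - 1 / 2) ∧
      6 * mu ^ 2 / (9 + mu ^ 2) - C * (n : ℝ) ^ (δ - 1 / 2) ≤ cN (n + 1) / cN n := by
  obtain ⟨D, hD, N, hN, h⟩ := ratio_large δ hδ hδ'
  have hmu := mu_pos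
  have large : ∀ n : ℕ, N ≤ n → 1 ≤ n →
      6 * mu ^ 2 / (9 + mu ^ 2) - cN (n + 1) / cN n ≤
        (6 * mu ^ 2 / (9 + mu ^ 2) * 3 * D) * (n : ℝ) ^ (δ - 1 / 2) := by
    intro n hn hn1
    obtain ⟨-, h2, -, -⟩ := h n hn
    have c0 := cN_pos n
    have c1 := cN_pos (n + 1)
    obtain ⟨e, he⟩ : ∃ e, e = (n : ℝ) ^ (δ - 1 / 2) := ⟨_, rfl⟩
    have he0 : 0 ≤ e := by rw [he]; positivity
    rw [← he] at h2 ⊢
    obtain ⟨q, hq⟩ : ∃ q, q = cN (n + 1) / cN n := ⟨_, rfl⟩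
    have hq0 : 0 < q := by rw [hq]; positivity
    have hq3 : q ≤ 3 := by
      rw [hq, div_le_iff₀ c0]; exact cN_succ_le hn1
    have e1 : cN n / cN (n + 1) = q⁻¹ := by rw [hq, inv_div]
    rw [e1] at h2
    rw [← hq]
    obtain ⟨v, hv⟩ : ∃ v, v = 6 * mu ^ 2 / (9 + mu ^ 2) := ⟨_, rfl⟩
    have hv0 : 0 < v := by rw [hv]; positivity
    have e2 : (9 + mu ^ 2) / (6 * mu ^ 2) = v⁻¹ := by rw [hv, inv_div]
    rw [e2] at h2
    rw [← hv]
    have e3 : 1 ≤ q * (v⁻¹ + D * e) := by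
      have := mul_le_mul_of_nonneg_left h2 hq0.le
      rwa [mul_inv_cancel₀ hq0.ne'] at this
    have e4 : v ≤ q * (1 + v * (D * e)) := by
      have := mul_le_mul_of_nonneg_left e3 hv0.le
      have e5 : v * (q * (v⁻¹ + D * e)) = q * (v * v⁻¹ + v * (D * e)) := by ring
      rw [e5, mul_inv_cancel₀ hv0.ne'] at this
      linarith
    have e5 : q * (v * (D * e)) ≤ 3 * (v * (D * e)) :=
      mul_le_mul_of_nonneg_right hq3 (by positivity)
    have e6 : q * (1 + v * (D * e)) = q + q * (v * (D * e)) := by ring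
    have e7 : v * 3 * D * e = 3 * (v * (D * e)) := by ring
    rw [e6] at e4
    rw [e7]
    linarith only [e4, e5]
  obtain ⟨C1, p1, h1⟩ := extend_rpow (ι := Unit) (fun _ n => cN (n + 1) / cN n - (9 + mu ^ 2) / 6)
    (fun _ => 3) (δ - 1 / 2) D N
    (fun _ n hn hn1 => by
      have := (h n hn).1
      linarith)
    (fun _ n hn1 => by
      have c0 := cN_pos n
      have : cN (n + 1) / cN n ≤ 3 := by
        rw [div_le_iff₀ c0]; exact cN_succ_le hn1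
      have h2 : 0 < (9 + mu ^ 2) / 6 := by positivity
      linarith)
  obtain ⟨C2, p2, h2⟩ := extend_rpow (ι := Unit)
    (fun _ n => 6 * mu ^ 2 / (9 + mu ^ 2) - cN (n + 1) / cN n)
    (fun _ => 6 * mu ^ 2 / (9 + mu ^ 2)) (δ - 1 / 2) (6 * mu ^ 2 / (9 + mu ^ 2) * 3 * D) N
    (fun _ n hn hn1 => large n hn hn1)
    (fun _ n hn1 => by
      have c0 := cN_pos n
      have c1 := cN_pos (n + 1)
      have : 0 ≤ cN (n + 1) / cN n := by positivity
      linarith)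
  refine ⟨C1 + C2, by linarith, fun n hn => ?_⟩
  have hn0 : (0 : ℝ) < n := by exact_mod_cast hn
  have hE : 0 < (n : ℝ) ^ (δ - 1 / 2) := Real.rpow_pos_of_pos hn0 _
  have g1 := h1 () n hn
  have g2 := h2 () n hn
  have m1 := mul_nonneg p1 hE.le
  have m2 := mul_nonneg p2 hE.le
  constructor
  · linarith
  · linarith

/-! ### The limit form -/

section

variable [MeasurableSpace C(unitInterval, EuclideanSpace ℝ (Fin 2))]
  [BorelSpace C(unitInterval, EuclideanSpace ℝ (Fin 2))]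

/-- **Even and odd limit points are comparable.** -/
theorem law_limit (φ : ℕ → ℕ) (hφ : Tendsto φ atTop atTop) (lam : ℝ)
    (hlam : Tendsto (fun k => s (φ k + 1) / s (φ k)) atTop (𝓝 lam))
    (ν ν' : Measure C(unitInterval, EuclideanSpace ℝ (Fin 2))) [IsProbabilityMeasure ν]
    [IsProbabilityMeasure ν'] (h : WLim φ ν) (h' : WLim (fun k => φ k + 1) ν')
    (A : Set C(unitInterval, EuclideanSpace ℝ (Fin 2))) (hA : MeasurableSet A) :
    ν' ((fun x => lam • x) ⁻¹' A) ≤ ENNReal.ofReal (th ^ 2) * ν A ∧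
    ν A ≤ ENNReal.ofReal (th ^ 2) * ν' ((fun x => lam • x) ⁻¹' A) := by
  obtain ⟨C, hC, hq⟩ := law_quant (1 / 4) (by norm_num) (by norm_num)
  have hmeas : Measurable fun x : C(unitInterval, EuclideanSpace ℝ (Fin 2)) => lam • x :=
    (continuous_const_smul lam).measurable
  have hc0 : 0 ≤ th ^ 2 := by positivity
  have hmap : ν' ((fun x => lam • x) ⁻¹' A) =
      (ν'.map (fun x : C(unitInterval, EuclideanSpace ℝ (Fin 2)) => lam • x)) A :=
    (Measure.map_apply hmeas hA).symm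
  have hprob : IsProbabilityMeasure
      (ν'.map (fun x : C(unitInterval, EuclideanSpace ℝ (Fin 2)) => lam • x)) :=
    Measure.isProbabilityMeasure_map hmeas.aemeasurable
  have herr : Tendsto (fun k => C * (1 / s (φ k) + (φ k : ℝ) ^ ((1 : ℝ) / 4 - 1 / 2))) atTop
      (𝓝 0) := by
    have t1 : Tendsto (fun k => 1 / s (φ k)) atTop (𝓝 0) := by
      simp only [one_div]
      exact tendsto_inv_atTop_zero.comp (tendsto_s.comp hφ)
    have t2 : Tendsto (fun k => (φ k : ℝ) ^ ((1 : ℝ) / 4 - 1 / 2)) atTop (𝓝 0) := by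
      have e : ((1 : ℝ) / 4 - 1 / 2) = -(1 / 4) := by norm_num
      rw [e]
      exact (tendsto_rpow_neg_atTop (by norm_num : (0 : ℝ) < 1 / 4)).comp
        (tendsto_natCast_atTop_atTop.comp hφ)
    have := (t1.add t2).const_mul C
    simpa using this
  have hEF : ∀ F : C(unitInterval, EuclideanSpace ℝ (Fin 2)) → ℝ, LipschitzWith 1 F →
      (∀ x, 0 ≤ F x) → (∀ x, F x ≤ 1) →
      Tendsto (fun k => EF F (1 / s (φ k)) (φ k)) atTop (𝓝 (∫ x, F x ∂ν)) ∧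
      Tendsto (fun k => EF F (1 / s (φ k)) (φ k + 1)) atTop (𝓝 (∫ x, F (lam • x) ∂ν')) := by
    intro F hF hF0 hF1
    constructor
    · have t1 := WLim_apply h F hF.continuous hF0 hF1
      refine t1.congr' ?_
      filter_upwards [hφ.eventually_ge_atTop 1] with k hk
      unfold EF
      have hs := s_pos hk
      have e : 1 / s (φ k) * s (φ k) = 1 := by field_simp
      rw [e]
      simp only [one_smul]
    · have t1 := rescale_limit h' (fun k => s (φ k + 1) / s (φ k)) lam hlam F hF hF0 hF1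
      refine t1.congr (fun k => ?_)
      unfold EF
      have e : 1 / s (φ k) * s (φ k + 1) = s (φ k + 1) / s (φ k) := by ring
      rw [e]
  have hineq : ∀ F : C(unitInterval, EuclideanSpace ℝ (Fin 2)) → ℝ, LipschitzWith 1 F →
      (∀ x, 0 ≤ F x) → (∀ x, F x ≤ 1) →
      ∫ x, F (lam • x) ∂ν' ≤ th ^ 2 * ∫ x, F x ∂ν ∧
      ∫ x, F x ∂ν ≤ th ^ 2 * ∫ x, F (lam • x) ∂ν' := by
    intro F hF hF0 hF1
    obtain ⟨t1, t2⟩ := hEF F hF hF0 hF1
    constructor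
    · have t3 := (t1.const_mul (th ^ 2)).add herr
      rw [add_zero] at t3
      apply le_of_tendsto_of_tendsto t2 t3
      filter_upwards [hφ.eventually_ge_atTop 1] with k hk
      exact (hq (φ k) hk F hF hF0 hF1 (1 / s (φ k)) (by have := s_pos hk; positivity)).1
    · have t3 := (t2.const_mul (th ^ 2)).add herr
      rw [add_zero] at t3
      apply le_of_tendsto_of_tendsto t1 t3
      filter_upwards [hφ.eventually_ge_atTop 1] with k hk
      exact (hq (φ k) hk F hF hF0 hF1 (1 / s (φ k)) (by have := s_pos hk; positivity)).2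
  have hint : ∀ F : C(unitInterval, EuclideanSpace ℝ (Fin 2)) → ℝ, LipschitzWith 1 F →
      ∫ x, F x ∂(ν'.map (fun x : C(unitInterval, EuclideanSpace ℝ (Fin 2)) => lam • x)) =
      ∫ x, F (lam • x) ∂ν' := by
    intro F hF
    exact integral_map hmeas.aemeasurable hF.continuous.aestronglyMeasurable
  rw [hmap]
  constructor
  · apply measure_le_of_lip _ _ _ hc0 _ A hA
    intro F hF hF0 hF1
    rw [hint F hF]
    exact (hineq F hF hF0 hF1).1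
  · apply measure_le_of_lip _ _ _ hc0 _ A hA
    intro F hF hF0 hF1
    rw [hint F hF]
    exact (hineq F hF hF0 hF1).2

end

end Pool.Agent.SawClose
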