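import Pool.Agent.SawClose.Basic

/-!
Extensions of self-avoiding walks by one step at the end, at the start, and at both sides.
-/

set_option autoImplicit false

open Pool.Agent.SawLim

namespace Pool.Agent.SawClose

open scoped Classical in
/-- free directions at the last site -/
noncomputable def RE (n : ℕ) (v : ℕ → ℤ × ℤ) : Finset (ℤ × ℤ) :=
  (dirs.image fun d => v n + d).filter fun a => ∀ j ≤ n, v j ≠ a

open scoped Classical in
/-- free neighbours of the first site -/
noncomputable def RS (n : ℕ) (v : ℕ → ℤ × ℤ) : Finset (ℤ × ℤ) :=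
  dirs.filter fun a => ∀ j ≤ n, v j ≠ a

lemma mem_RE {n : ℕ} {v : ℕ → ℤ × ℤ} {a : ℤ × ℤ} :
    a ∈ RE n v ↔ adj (v n) a ∧ ∀ j ≤ n, v j ≠ a := by
  classical
  unfold RE
  rw [Finset.mem_filter, Finset.mem_image, adj_iff]
  refine and_congr_left fun _ => ?_
  constructor
  · rintro ⟨d, hd, rfl⟩
    rwa [add_sub_cancel_left]
  · intro h
    exact ⟨a - v n, h, by abel⟩

lemma mem_RS {n : ℕ} {v : ℕ → ℤ × ℤ} {a : ℤ × ℤ} :
    a ∈ RS n v ↔ adj 0 a ∧ ∀ j ≤ n, v j ≠ a := by
  classical
  unfold RS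
  rw [Finset.mem_filter, adj_iff, sub_zero]

lemma card_dirs : dirs.card = 4 := by decide

lemma card_RE_le {n : ℕ} (hn : 1 ≤ n) {v : ℕ → ℤ × ℤ} (h : IsW n v) : (RE n v).card ≤ 3 := by
  classical
  have h1 : (RE n v) ⊆ (dirs.image fun d => v n + d).erase (v (n - 1)) := by
    intro a ha
    rw [Finset.mem_erase]
    constructor
    · rintro rfl
      exact (mem_RE.1 ha).2 (n - 1) (by omega) rfl
    · unfold RE at ha
      exact (Finset.mem_filter.1 ha).1
  refine (Finset.card_le_card h1).trans ?_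
  have h2 : v (n - 1) ∈ (dirs.image fun d => v n + d) := by
    rw [Finset.mem_image]
    refine ⟨v (n - 1) - v n, ?_, by abel⟩
    have := h.2.1 (n - 1) (by omega)
    rw [show n - 1 + 1 = n by omega, adj_comm, adj_iff] at this
    exact this
  rw [Finset.card_erase_of_mem h2]
  have h3 : (dirs.image fun d => v n + d).card ≤ 4 := by
    refine Finset.card_image_le.trans ?_
    rw [card_dirs]
  omega

lemma card_RS_le {n : ℕ} (hn : 1 ≤ n) {v : ℕ → ℤ × ℤ} (h : IsW n v) : (RS n v).card ≤ 3 := by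
  classical
  have h1 : (RS n v) ⊆ dirs.erase (v 1) := by
    intro a ha
    rw [Finset.mem_erase]
    constructor
    · rintro rfl
      exact (mem_RS.1 ha).2 1 hn rfl
    · unfold RS at ha
      exact (Finset.mem_filter.1 ha).1
  refine (Finset.card_le_card h1).trans ?_
  have h2 : v 1 ∈ dirs := by
    have := h.2.1 0 (by omega)
    rw [h.1, adj_iff, sub_zero] at this
    exact this
  rw [Finset.card_erase_of_mem h2, card_dirs]

/-- the walk without its first step, moved back to the origin -/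
def tl (n : ℕ) (u : ℕ → ℤ × ℤ) : ℕ → ℤ × ℤ := fun k => u (min k n + 1) - u 1

lemma tl_of_le {n k : ℕ} (u : ℕ → ℤ × ℤ) (h : k ≤ n) : tl n u k = u (k + 1) - u 1 := by
  unfold tl; rw [min_eq_left h]

lemma isW_tl {n : ℕ} {u : ℕ → ℤ × ℤ} (h : IsW (n + 1) u) : IsW n (tl n u) := by
  refine ⟨?_, ?_, ?_, ?_⟩
  · rw [tl_of_le _ (Nat.zero_le _), sub_self]
  · intro k hk
    rw [tl_of_le _ hk.le, tl_of_le _ hk, adj_sub]
    exact h.2.1 (k + 1) (by omega)
  · intro i j hij hj he
    rw [tl_of_le _ (by omega), tl_of_le _ hj] at he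
    exact h.2.2.1 (i + 1) (j + 1) (by omega) (by omega) (sub_left_inj.1 he)
  · intro k hk
    unfold tl
    rw [min_eq_right hk, min_self]

lemma tr_inj {n : ℕ} {u u' : ℕ → ℤ × ℤ} (h : IsW (n + 1) u) (h' : IsW (n + 1) u')
    (e : tr n u = tr n u') (e' : u (n + 1) = u' (n + 1)) : u = u' := by
  funext k
  rcases Nat.lt_or_ge n k with hk | hk
  · rw [h.2.2.2 k (by omega), h'.2.2.2 k (by omega), e']
  · have := congrFun e k
    rwa [tr_of_le _ hk, tr_of_le _ hk] at this

/-- (I1) -/
theorem sum_tr_le (n : ℕ) (g : (ℕ → ℤ × ℤ) → ℝ) (hg : ∀ v ∈ W n, 0 ≤ g v) :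
    ∑ u ∈ W (n + 1), g (tr n u) ≤ ∑ v ∈ W n, g v * ((RE n v).card : ℝ) := by
  classical
  rw [← Finset.sum_fiberwise_of_maps_to (s := W (n + 1)) (t := W n) (g := tr n)
    (fun u hu => mem_W.2 (isW_tr (mem_W.1 hu) (by omega)))]
  apply Finset.sum_le_sum
  intro v hv
  have h1 : ∑ u ∈ W (n + 1) with tr n u = v, g (tr n u) =
      (((W (n + 1)).filter fun u => tr n u = v).card : ℝ) * g v := by
    rw [← nsmul_eq_mul, ← Finset.sum_const]
    apply Finset.sum_congr rfl
    intro u hu
    rw [(Finset.mem_filter.1 hu).2]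
  rw [h1, mul_comm]
  apply mul_le_mul_of_nonneg_left _ (hg v hv)
  have h2 : ((W (n + 1)).filter fun u => tr n u = v).card ≤ (RE n v).card := by
    apply Finset.card_le_card_of_injOn (fun u => u (n + 1))
    · intro u hu
      rw [Finset.mem_coe, Finset.mem_filter, mem_W] at hu
      obtain ⟨hu1, hu2⟩ := hu
      rw [Finset.mem_coe, mem_RE]
      have e : ∀ j ≤ n, v j = u j := fun j hj => by rw [← hu2, tr_of_le _ hj]
      rw [e n le_rfl]
      refine ⟨hu1.2.1 n (by omega), fun j hj => ?_⟩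
      rw [e j hj]
      exact hu1.2.2.1 j (n + 1) (by omega) le_rfl
    · intro u hu u' hu' he
      rw [Finset.mem_coe, Finset.mem_filter, mem_W] at hu hu'
      exact tr_inj hu.1 hu'.1 (hu.2.trans hu'.2.symm) he
  exact_mod_cast h2

/-- (I2) -/
theorem sum_tl_le (n : ℕ) (g : (ℕ → ℤ × ℤ) → ℝ) (hg : ∀ v ∈ W n, 0 ≤ g v) :
    ∑ u ∈ W (n + 1), g (tl n u) ≤ ∑ v ∈ W n, g v * ((RS n v).card : ℝ) := by
  classical
  rw [← Finset.sum_fiberwise_of_maps_to (s := W (n + 1)) (t := W n) (g := tl n)
    (fun u hu => mem_W.2 (isW_tl (mem_W.1 hu)))]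
  apply Finset.sum_le_sum
  intro v hv
  have h1 : ∑ u ∈ W (n + 1) with tl n u = v, g (tl n u) =
      (((W (n + 1)).filter fun u => tl n u = v).card : ℝ) * g v := by
    rw [← nsmul_eq_mul, ← Finset.sum_const]
    apply Finset.sum_congr rfl
    intro u hu
    rw [(Finset.mem_filter.1 hu).2]
  rw [h1, mul_comm]
  apply mul_le_mul_of_nonneg_left _ (hg v hv)
  have h2 : ((W (n + 1)).filter fun u => tl n u = v).card ≤ (RS n v).card := by
    apply Finset.card_le_card_of_injOn (fun u => - u 1)
    · intro u hu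
      rw [Finset.mem_coe, Finset.mem_filter, mem_W] at hu
      obtain ⟨hu1, hu2⟩ := hu
      rw [Finset.mem_coe, mem_RS]
      constructor
      · have := hu1.2.1 0 (by omega)
        rw [hu1.1, adj_iff, sub_zero] at this
        rw [adj_comm, adj_iff, sub_neg_eq_add, zero_add]
        exact this
      · intro j hj he
        rw [← hu2, tl_of_le _ hj, sub_eq_neg_self] at he
        have := hu1.2.2.1 0 (j + 1) (by omega) (by omega)
        rw [hu1.1] at this
        exact this he.symm
    · intro u hu u' hu' he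
      rw [Finset.mem_coe, Finset.mem_filter, mem_W] at hu hu'
      have e1 : u 1 = u' 1 := neg_inj.1 he
      funext k
      rcases Nat.eq_zero_or_pos k with h0 | h0
      · rw [h0, hu.1.1, hu'.1.1]
      · obtain ⟨i, rfl⟩ : ∃ i, k = i + 1 := ⟨k - 1, by omega⟩
        rcases Nat.lt_or_ge n i with hi | hi
        · rw [hu.1.2.2.2 (i + 1) (by omega), hu'.1.2.2.2 (i + 1) (by omega)]
          have := congrFun (hu.2.trans hu'.2.symm) n
          rw [tl_of_le _ le_rfl, tl_of_le _ le_rfl, e1] at this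
          exact sub_left_inj.1 this
        · have := congrFun (hu.2.trans hu'.2.symm) i
          rw [tl_of_le _ hi, tl_of_le _ hi, e1] at this
          exact sub_left_inj.1 this
  exact_mod_cast h2

/-- extension at both sides: `0, v 0 - b, ..., v n - b, a - b` -/
def ext2 (n : ℕ) (v : ℕ → ℤ × ℤ) (a b : ℤ × ℤ) : ℕ → ℤ × ℤ := fun k =>
  if k = 0 then 0 else if k ≤ n + 1 then v (k - 1) - b else a - b

lemma ext2_mid {n k : ℕ} (v : ℕ → ℤ × ℤ) (a b : ℤ × ℤ) (hk : k ≤ n) :
    ext2 n v a b (k + 1) = v k - b := by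
  unfold ext2
  rw [if_neg (by omega), if_pos (by omega), Nat.add_sub_cancel]

lemma ext2_last {n k : ℕ} (v : ℕ → ℤ × ℤ) (a b : ℤ × ℤ) (hk : n + 2 ≤ k) :
    ext2 n v a b k = a - b := by
  unfold ext2
  rw [if_neg (by omega), if_neg (by omega)]

lemma isW_ext2 {n : ℕ} {v : ℕ → ℤ × ℤ} (h : IsW n v) {a b : ℤ × ℤ} (ha : a ∈ RE n v)
    (hb : b ∈ RS n v) (hab : a ≠ b) : IsW (n + 2) (ext2 n v a b) := by
  rw [mem_RE] at ha
  rw [mem_RS] at hb
  refine ⟨by unfold ext2; simp, ?_, ?_, ?_⟩
  · intro k hk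
    rcases Nat.eq_zero_or_pos k with h0 | h0
    · subst h0
      rw [ext2_mid v a b (Nat.zero_le _), h.1]
      have e : ext2 n v a b 0 = 0 := by unfold ext2; simp
      rw [e, adj_comm, adj_iff, sub_sub_cancel, ← sub_zero b, ← adj_iff]
      exact hb.1
    · obtain ⟨i, rfl⟩ : ∃ i, k = i + 1 := ⟨k - 1, by omega⟩
      rw [ext2_mid v a b (by omega)]
      rcases Nat.lt_or_ge i n with hi | hi
      · rw [ext2_mid v a b (by omega), adj_sub]
        exact h.2.1 i hi
      · have : i = n := by omega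
        subst this
        rw [ext2_last v a b (by omega), adj_sub]
        exact ha.1
  · intro i j hij hj
    have e0 : ext2 n v a b 0 = 0 := by unfold ext2; simp
    rcases Nat.lt_or_ge (n + 1) j with hjl | hjl
    · rw [ext2_last v a b (k := j) (by omega)]
      rcases Nat.eq_zero_or_pos i with h0 | h0
      · subst h0
        rw [e0]
        intro he
        exact hab (sub_eq_zero.1 he.symm)
      · obtain ⟨i', rfl⟩ : ∃ i', i = i' + 1 := ⟨i - 1, by omega⟩
        rw [ext2_mid v a b (by omega)]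
        intro he
        exact ha.2 i' (by omega) (sub_left_inj.1 he)
    · obtain ⟨j', rfl⟩ : ∃ j', j = j' + 1 := ⟨j - 1, by omega⟩
      rw [ext2_mid v a b (k := j') (by omega)]
      rcases Nat.eq_zero_or_pos i with h0 | h0
      · subst h0
        rw [e0]
        intro he
        exact hb.2 j' (by omega) (sub_eq_zero.1 he.symm)
      · obtain ⟨i', rfl⟩ : ∃ i', i = i' + 1 := ⟨i - 1, by omega⟩
        rw [ext2_mid v a b (by omega)]
        intro he
        exact h.2.2.1 i' j' (by omega) (by omega) (sub_left_inj.1 he)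
  · intro k hk
    rw [ext2_last v a b hk, ext2_last v a b le_rfl]

/-- the middle part of an `(n+2)`-step walk -/
def mid (n : ℕ) (z : ℕ → ℤ × ℤ) : ℕ → ℤ × ℤ := tl n (tr (n + 1) z)

lemma mid_ext2 {n : ℕ} {v : ℕ → ℤ × ℤ} (h : IsW n v) (a b : ℤ × ℤ) :
    mid n (ext2 n v a b) = v := by
  funext k
  unfold mid tl
  rw [tr_of_le _ (by omega), tr_of_le _ (by omega), ext2_mid v a b (by omega),
    show (1 : ℕ) = 0 + 1 from rfl, ext2_mid v a b (Nat.zero_le _), h.1, sub_sub_sub_cancel_right,
    sub_zero]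
  rcases le_total k n with hk | hk
  · rw [min_eq_left hk]
  · rw [min_eq_right hk, h.2.2.2 k hk]

lemma isW_mid {n : ℕ} {z : ℕ → ℤ × ℤ} (h : IsW (n + 2) z) : IsW n (mid n z) :=
  isW_tl (isW_tr h (by omega))

/-- closing up: `v` followed by the common neighbour `a` of its two ends -/
def cls (n : ℕ) (v : ℕ → ℤ × ℤ) (a : ℤ × ℤ) : ℕ → ℤ × ℤ := fun k => if k ≤ n then v k else a

lemma cls_mem {n : ℕ} {v : ℕ → ℤ × ℤ} (h : IsW n v) {a : ℤ × ℤ} (ha : a ∈ RE n v)
    (hb : a ∈ RS n v) : cls n v a ∈ cl (n + 1) := by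
  rw [mem_RE] at ha
  rw [mem_RS] at hb
  have e1 : ∀ k ≤ n, cls n v a k = v k := fun k hk => by unfold cls; rw [if_pos hk]
  have e2 : ∀ k, n < k → cls n v a k = a := fun k hk => by unfold cls; rw [if_neg (by omega)]
  rw [mem_cl]
  refine ⟨⟨by rw [e1 0 (Nat.zero_le _)]; exact h.1, ?_, ?_, ?_⟩, ?_⟩
  · intro k hk
    rcases Nat.lt_or_ge k n with hkn | hkn
    · rw [e1 k hkn.le, e1 (k + 1) hkn]; exact h.2.1 k hkn
    · have : k = n := by omega
      subst this
      rw [e1 k le_rfl, e2 (k + 1) (by omega)]; exact ha.1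
  · intro i j hij hj
    rcases Nat.lt_or_ge n j with hjn | hjn
    · rw [e2 j hjn, e1 i (by omega)]
      exact ha.2 i (by omega)
    · rw [e1 j hjn, e1 i (by omega)]
      exact h.2.2.1 i j hij hjn
  · intro k hk
    rw [e2 k (by omega), e2 (n + 1) (by omega)]
  · rw [e2 (n + 1) (by omega)]; exact hb.1

/-- (I3) -/
theorem sum_mid_ge (n : ℕ) (g : (ℕ → ℤ × ℤ) → ℝ) (M : ℝ) (hg : ∀ v ∈ W n, 0 ≤ g v)
    (hM : ∀ v ∈ W n, ∀ a ∈ RE n v, a ∈ RS n v → g v ≤ M) :
    ∑ v ∈ W n, g v * ((RE n v).card * (RS n v).card : ℝ) ≤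
      ∑ z ∈ W (n + 2), g (mid n z) + M * ((cl (n + 1)).card : ℝ) := by
  classical
  -- pairs with distinct components
  have hA : ∀ v ∈ W n, (((RE n v ×ˢ RS n v).filter fun p => p.1 ≠ p.2).card : ℝ) ≤
      (((W (n + 2)).filter fun z => mid n z = v).card : ℝ) := by
    intro v hv
    have hv' := mem_W.1 hv
    have : ((RE n v ×ˢ RS n v).filter fun p => p.1 ≠ p.2).card ≤
        ((W (n + 2)).filter fun z => mid n z = v).card := by
      apply Finset.card_le_card_of_injOn (fun p => ext2 n v p.1 p.2)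
      · rintro ⟨a, b⟩ hp
        rw [Finset.mem_coe, Finset.mem_filter, Finset.mem_product] at hp
        rw [Finset.mem_coe, Finset.mem_filter, mem_W]
        exact ⟨isW_ext2 hv' hp.1.1 hp.1.2 hp.2, mid_ext2 hv' a b⟩
      · rintro ⟨a, b⟩ _ ⟨a', b'⟩ _ he
        beta_reduce at he
        have h1 := congrFun he (0 + 1)
        rw [ext2_mid v a b (Nat.zero_le _), ext2_mid v a' b' (Nat.zero_le _)] at h1
        have e1 : b = b' := sub_right_inj.1 h1
        have h2 := congrFun he (n + 2)
        rw [ext2_last v a b le_rfl, ext2_last v a' b' le_rfl, e1] at h2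
        rw [e1, sub_left_inj.1 h2]
    exact_mod_cast this
  -- common neighbours
  have hB : ∑ v ∈ W n, g v * (((RE n v ∩ RS n v).card : ℕ) : ℝ) ≤ M * ((cl (n + 1)).card : ℝ) := by
    have h1 : ∑ v ∈ W n, g v * (((RE n v ∩ RS n v).card : ℕ) : ℝ) ≤
        ∑ v ∈ W n, M * (((RE n v ∩ RS n v).card : ℕ) : ℝ) := by
      apply Finset.sum_le_sum
      intro v hv
      rcases (RE n v ∩ RS n v).eq_empty_or_nonempty with h0 | ⟨a, ha⟩
      · rw [h0]; simp
      · rw [Finset.mem_inter] at ha
        exact mul_le_mul_of_nonneg_right (hM v hv a ha.1 ha.2) (Nat.cast_nonneg _)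
    refine h1.trans ?_
    rw [← Finset.mul_sum]
    rcases (cl (n + 1)).eq_empty_or_nonempty with h0 | h0
    · have : ∀ v ∈ W n, (((RE n v ∩ RS n v).card : ℕ) : ℝ) = 0 := by
        intro v hv
        have h2 : RE n v ∩ RS n v = ∅ := by
          rw [Finset.eq_empty_iff_forall_notMem]
          intro a ha
          rw [Finset.mem_inter] at ha
          have := cls_mem (mem_W.1 hv) ha.1 ha.2
          rw [h0] at this
          exact Finset.notMem_empty _ this
        rw [h2]; simp
      rw [Finset.sum_eq_zero this, h0]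
      simp
    · by_cases hne : ∃ v ∈ W n, ∃ a ∈ RE n v, a ∈ RS n v
      · obtain ⟨v, hv, a, ha, hb⟩ := hne
        have hM0 : 0 ≤ M := (hg v hv).trans (hM v hv a ha hb)
        apply mul_le_mul_of_nonneg_left _ hM0
        have h3 : (∑ v ∈ W n, (RE n v ∩ RS n v).card) ≤ (cl (n + 1)).card := by
          rw [← Finset.card_sigma]
          apply Finset.card_le_card_of_injOn (fun p => cls n p.1 p.2)
          · rintro ⟨v, a⟩ hp
            rw [Finset.mem_coe, Finset.mem_sigma, Finset.mem_inter] at hp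
            exact cls_mem (mem_W.1 hp.1) hp.2.1 hp.2.2
          · rintro ⟨v, a⟩ hp ⟨v', a'⟩ hp' he
            rw [Finset.mem_coe, Finset.mem_sigma] at hp hp'
            beta_reduce at he
            simp only at he
            have e1 : v = v' := by
              funext k
              rcases le_total k n with hk | hk
              · have := congrFun he k
                unfold cls at this
                rwa [if_pos hk, if_pos hk] at this
              · rw [show v k = v n from (mem_W.1 hp.1).2.2.2 k hk,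
                  show v' k = v' n from (mem_W.1 hp'.1).2.2.2 k hk]
                have := congrFun he n
                unfold cls at this
                rwa [if_pos le_rfl, if_pos le_rfl] at this
            subst e1
            have e2 := congrFun he (n + 1)
            unfold cls at e2
            rw [if_neg (by omega), if_neg (by omega)] at e2
            rw [e2]
        exact_mod_cast h3
      · push Not at hne
        have : ∀ v ∈ W n, (((RE n v ∩ RS n v).card : ℕ) : ℝ) = 0 := by
          intro v hv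
          have h2 : RE n v ∩ RS n v = ∅ := by
            rw [Finset.eq_empty_iff_forall_notMem]
            intro a ha
            rw [Finset.mem_inter] at ha
            exact hne v hv a ha.1 ha.2
          rw [h2]; simp
        rw [Finset.sum_eq_zero this, mul_zero]
        -- no pair has common neighbours: the closing walks give a contradiction
        exfalso
        obtain ⟨u, hu⟩ := h0
        obtain ⟨hu1, hu2⟩ := mem_cl.1 hu
        refine hne (tr n u) (mem_W.2 (isW_tr hu1 (by omega))) (u (n + 1)) ?_ ?_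
        · rw [mem_RE]
          refine ⟨by rw [tr_of_le _ le_rfl]; exact hu1.2.1 n (by omega), fun j hj => ?_⟩
          rw [tr_of_le _ hj]
          exact hu1.2.2.1 j (n + 1) (by omega) le_rfl
        · rw [mem_RS]
          refine ⟨hu2, fun j hj => ?_⟩
          rw [tr_of_le _ hj]
          exact hu1.2.2.1 j (n + 1) (by omega) le_rfl
  have hC : ∀ v ∈ W n, ((RE n v).card * (RS n v).card : ℝ) =
      (((RE n v ×ˢ RS n v).filter fun p => p.1 ≠ p.2).card : ℝ) +
        (((RE n v ∩ RS n v).card : ℕ) : ℝ) := by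
    intro v _
    have h1 : (RE n v ∩ RS n v).card = ((RE n v ×ˢ RS n v).filter fun p => ¬ p.1 ≠ p.2).card := by
      apply Finset.card_bij (fun a _ => (a, a))
      · intro a ha
        rw [Finset.mem_inter] at ha
        rw [Finset.mem_filter, Finset.mem_product]
        exact ⟨⟨ha.1, ha.2⟩, by simp⟩
      · intro a _ b _ he
        exact (Prod.ext_iff.1 he).1
      · rintro ⟨a, b⟩ hp
        rw [Finset.mem_filter, Finset.mem_product] at hp
        obtain ⟨⟨h1, h2⟩, h3⟩ := hp
        have h3' : a = b := by simpa using h3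
        subst h3'
        exact ⟨a, Finset.mem_inter.2 ⟨h1, h2⟩, rfl⟩
    have h2 := Finset.card_filter_add_card_filter_not (s := RE n v ×ˢ RS n v) (fun p => p.1 ≠ p.2)
    rw [Finset.card_product] at h2
    rw [h1]
    exact_mod_cast h2.symm
  calc ∑ v ∈ W n, g v * ((RE n v).card * (RS n v).card : ℝ)
      = ∑ v ∈ W n, (g v * (((RE n v ×ˢ RS n v).filter fun p => p.1 ≠ p.2).card : ℝ) +
          g v * (((RE n v ∩ RS n v).card : ℕ) : ℝ)) := by
        apply Finset.sum_congr rfl
        intro v hv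
        rw [hC v hv, mul_add]
    _ = ∑ v ∈ W n, g v * (((RE n v ×ˢ RS n v).filter fun p => p.1 ≠ p.2).card : ℝ) +
          ∑ v ∈ W n, g v * (((RE n v ∩ RS n v).card : ℕ) : ℝ) := Finset.sum_add_distrib
    _ ≤ ∑ v ∈ W n, g v * (((W (n + 2)).filter fun z => mid n z = v).card : ℝ) +
          M * ((cl (n + 1)).card : ℝ) := by
        apply add_le_add _ hB
        apply Finset.sum_le_sum
        intro v hv
        exact mul_le_mul_of_nonneg_left (hA v hv) (hg v hv)
    _ = ∑ z ∈ W (n + 2), g (mid n z) + M * ((cl (n + 1)).card : ℝ) := by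
        congr 1
        rw [← Finset.sum_fiberwise_of_maps_to (s := W (n + 2)) (t := W n) (g := mid n)
          (fun u hu => mem_W.2 (isW_mid (mem_W.1 hu)))]
        apply Finset.sum_congr rfl
        intro v _
        rw [mul_comm, ← nsmul_eq_mul, ← Finset.sum_const]
        apply Finset.sum_congr rfl
        intro u hu
        rw [(Finset.mem_filter.1 hu).2]

/-- **The two-sided extension inequality.** -/
theorem ext_ineq {n : ℕ} (hn : 1 ≤ n) (g : (ℕ → ℤ × ℤ) → ℝ) (M : ℝ) (hg : ∀ v ∈ W n, 0 ≤ g v)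
    (hM : ∀ v ∈ W n, ∀ a ∈ RE n v, a ∈ RS n v → g v ≤ M) :
    3 * (∑ u ∈ W (n + 1), g (tr n u) + ∑ u ∈ W (n + 1), g (tl n u)) ≤
      9 * ∑ v ∈ W n, g v + ∑ z ∈ W (n + 2), g (mid n z) + M * ((cl (n + 1)).card : ℝ) := by
  have h1 := sum_tr_le n g hg
  have h2 := sum_tl_le n g hg
  have h3 := sum_mid_ge n g M hg hM
  have h4 : 3 * (∑ v ∈ W n, g v * ((RE n v).card : ℝ) + ∑ v ∈ W n, g v * ((RS n v).card : ℝ)) ≤
      9 * ∑ v ∈ W n, g v + ∑ v ∈ W n, g v * ((RE n v).card * (RS n v).card : ℝ) := by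
    rw [← Finset.sum_add_distrib, Finset.mul_sum, Finset.mul_sum, ← Finset.sum_add_distrib]
    apply Finset.sum_le_sum
    intro v hv
    have a1 : ((RE n v).card : ℝ) ≤ 3 := by exact_mod_cast card_RE_le hn (mem_W.1 hv)
    have a2 : ((RS n v).card : ℝ) ≤ 3 := by exact_mod_cast card_RS_le hn (mem_W.1 hv)
    have a3 : 0 ≤ (3 - ((RE n v).card : ℝ)) * (3 - ((RS n v).card : ℝ)) :=
      mul_nonneg (by linarith) (by linarith)
    have a4 := mul_nonneg (hg v hv) a3
    nlinarith
  linarith

end Pool.Agent.SawClose
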