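import Pool.Agent.SawClose.AllN
import Pool.Agent.SawClose.Pairs
import Pool.Agent.SawLim.Parity3

/-!
The two-sided extension inequality for path functionals, and the ratio `c_{n+1} / c_n`.
-/

set_option autoImplicit false

open Pool.Agent.SawLim Pool.Agent.SawKes

namespace Pool.Agent.SawClose

/-- restriction to the times `0, ..., n` -/
def res (n : ℕ) (v : ℕ → ℤ × ℤ) : Fin (n + 1) → ℤ × ℤ := fun j => v j

lemma res_wN {n : ℕ} (w : Fin (n + 1) → ℤ × ℤ) : res n (wN n w) = w := by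
  funext j
  exact (w_eq_wN w j).symm

lemma wN_res {n : ℕ} {v : ℕ → ℤ × ℤ} (h : IsW n v) : wN n (res n v) = v := by
  funext k
  rcases le_total k n with hk | hk
  · rw [wN_of_le _ hk]; rfl
  · rw [wN_ge _ hk, wN_of_le _ le_rfl, h.2.2.2 k hk]; rfl

lemma isSAW_res {n : ℕ} {v : ℕ → ℤ × ℤ} (h : IsW n v) : IsSAW n (res n v) :=
  isSAW_of v (fun _ => rfl) h.1 h.2.1 h.2.2.1

lemma sum_W_avg (n : ℕ) (f : (Fin (n + 1) → ℤ × ℤ) → ℝ) :
    ∑ v ∈ W n, f (res n v) = cN n * avg n f := by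
  rw [sum_W, avg_eq, ← cN_eq]
  have h := cN_pos n
  have : ∑ w ∈ saws n, f (res n (wN n w)) = ∑ w ∈ saws n, f w :=
    Finset.sum_congr rfl fun w _ => by rw [res_wN]
  rw [this]
  field_simp

lemma res_tr (n : ℕ) (v : ℕ → ℤ × ℤ) : res n (tr n v) = ini n (res (n + 1) v) := by
  funext j
  have hj := j.2
  show tr n v j = v ((j.castSucc : Fin (n + 1 + 1)) : ℕ)
  rw [tr_of_le _ (by omega)]
  rfl

lemma pt_sub' (p q : ℤ × ℤ) : pt (p - q) = pt p - pt q := by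
  ext j
  fin_cases j <;> simp [pt]

lemma norm_pt_one {n : ℕ} {v : ℕ → ℤ × ℤ} (h : IsW n v) (hn : 1 ≤ n) : ‖pt (v 1)‖ ≤ 1 := by
  apply norm_pt_dir_le
  have := h.2.1 0 (by omega)
  rw [h.1, adj_iff, sub_zero] at this
  exact this

lemma norm_step {n : ℕ} {v : ℕ → ℤ × ℤ} (h : IsW n v) {i j : ℕ} (hi : i ≤ n) (hj : j ≤ n)
    (c : ℕ) (h1 : i ≤ j + c) (h2 : j ≤ i + c) : ‖pt (v i) - pt (v j)‖ ≤ c := by
  have hs := isSAW_res h
  have e := wN_res h
  rcases le_total i j with hij | hij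
  · obtain ⟨d, rfl⟩ := Nat.exists_eq_add_of_le hij
    rw [norm_sub_rev]
    have := norm_pt_sub_le hs d hj
    rw [e] at this
    refine this.trans ?_
    exact_mod_cast (by omega : d ≤ c)
  · obtain ⟨d, rfl⟩ := Nat.exists_eq_add_of_le hij
    have := norm_pt_sub_le hs d hi
    rw [e] at this
    refine this.trans ?_
    exact_mod_cast (by omega : d ≤ c)

theorem tr_close {n : ℕ} (hn : 1 ≤ n) {v : ℕ → ℤ × ℤ} (h : IsW (n + 1) v) :
    ‖s (n + 1) • X (n + 1) (res (n + 1) v) - s n • X n (res n (tr n v))‖ ≤ 4 := by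
  rw [res_tr]
  exact ini_close hn (isSAW_res h)

theorem tl_close {n : ℕ} (hn : 1 ≤ n) {v : ℕ → ℤ × ℤ} (h : IsW (n + 1) v) :
    ‖s (n + 1) • X (n + 1) (res (n + 1) v) - s n • X n (res n (tl n v))‖ ≤ 6 := by
  rw [ContinuousMap.norm_le _ (by norm_num)]
  intro t
  show ‖s (n + 1) • X (n + 1) (res (n + 1) v) t - s n • X n (res n (tl n v)) t‖ ≤ 6
  have h' := isW_tl h
  obtain ⟨j, j1, j2, j3, j4⟩ := interp_close (isSAW_res h') hn t
  obtain ⟨i, i1, i2, i3, i4⟩ := interp_close (isSAW_res h) (by omega) t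
  have t0 := t.2.1
  have t1 := t.2.2
  push_cast at i2 i3
  have e1 : j ≤ i + 2 := by
    have : (j : ℝ) ≤ i + 2 := by nlinarith
    exact_mod_cast this
  have e2 : i ≤ j + 2 := by
    have : (i : ℝ) ≤ j + 2 := by nlinarith
    exact_mod_cast this
  rw [wN_res h', tl_of_le v j1.le] at j4
  rw [wN_res h] at i4
  have k1 := norm_step h (i := i) (j := j + 1) (by omega) (by omega) 3 (by omega) (by omega)
  have k2 := norm_pt_one h (by omega)
  have k3 : pt (v i) - pt (v (j + 1) - v 1) = (pt (v i) - pt (v (j + 1))) + pt (v 1) := by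
    rw [pt_sub']; abel
  have k4 : ‖pt (v i) - pt (v (j + 1) - v 1)‖ ≤ 4 := by
    rw [k3]
    refine (norm_add_le _ _).trans ?_
    push_cast at k1
    linarith
  calc ‖s (n + 1) • X (n + 1) (res (n + 1) v) t - s n • X n (res n (tl n v)) t‖
      = ‖(s (n + 1) • X (n + 1) (res (n + 1) v) t - pt (v i)) +
        (pt (v i) - pt (v (j + 1) - v 1)) -
        (s n • X n (res n (tl n v)) t - pt (v (j + 1) - v 1))‖ := by congr 1; abel
    _ ≤ 1 + 4 + 1 := (norm_sub_le _ _).trans (add_le_add ((norm_add_le _ _).trans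
        (add_le_add i4 k4)) j4)
    _ = 6 := by norm_num

theorem mid_close {n : ℕ} (hn : 1 ≤ n) {z : ℕ → ℤ × ℤ} (h : IsW (n + 2) z) :
    ‖s (n + 2) • X (n + 2) (res (n + 2) z) - s n • X n (res n (mid n z))‖ ≤ 10 := by
  have h1 : ‖s (n + 2) • X (n + 2) (res (n + 2) z) -
      s (n + 1) • X (n + 1) (res (n + 1) (tr (n + 1) z))‖ ≤ 4 :=
    tr_close (n := n + 1) (by omega) h
  have h2 := tl_close hn (isW_tr (l := n + 1) h (by omega))
  calc ‖s (n + 2) • X (n + 2) (res (n + 2) z) - s n • X n (res n (mid n z))‖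
      = ‖(s (n + 2) • X (n + 2) (res (n + 2) z) -
          s (n + 1) • X (n + 1) (res (n + 1) (tr (n + 1) z))) +
        (s (n + 1) • X (n + 1) (res (n + 1) (tr (n + 1) z)) -
          s n • X n (res n (mid n z)))‖ := by congr 1; abel
    _ ≤ 4 + 6 := (norm_add_le _ _).trans (add_le_add h1 h2)
    _ = 10 := by norm_num

lemma F_close {F : C(unitInterval, EuclideanSpace ℝ (Fin 2)) → ℝ} (hF : LipschitzWith 1 F)
    {b c x y : ℝ} (hb : 0 ≤ b) {p q : C(unitInterval, EuclideanSpace ℝ (Fin 2))}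
    (h : ‖x • p - y • q‖ ≤ c) : |F ((b * x) • p) - F ((b * y) • q)| ≤ c * b := by
  have h4 := lip_abs hF ((b * x) • p) ((b * y) • q)
  have h5 : (b * x) • p - (b * y) • q = b • (x • p - y • q) := by
    rw [smul_sub, smul_smul, smul_smul]
  rw [h5, norm_smul, Real.norm_of_nonneg hb] at h4
  refine h4.trans ?_
  have := mul_le_mul_of_nonneg_left h hb
  linarith

/-- the extension inequality for path functionals -/
theorem ext_EF {F : C(unitInterval, EuclideanSpace ℝ (Fin 2)) → ℝ} (hF : LipschitzWith 1 F)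
    (h0 : ∀ x, 0 ≤ F x) (h1 : ∀ x, F x ≤ 1) {b : ℝ} (hb : 0 ≤ b) {n : ℕ} (hn : 1 ≤ n) :
    6 * (cN (n + 1) * EF F b (n + 1)) ≤ 9 * (cN n * EF F b n) + cN (n + 2) * EF F b (n + 2) +
      (30 * cN (n + 1) + 10 * cN (n + 2)) * b + ((cl (n + 1)).card : ℝ) := by
  have key := ext_ineq hn (fun v => F ((b * s n) • X n (res n v))) 1 (fun _ _ => h0 _)
    (fun _ _ _ _ _ => h1 _)
  have a0 : ∑ v ∈ W n, F ((b * s n) • X n (res n v)) = cN n * EF F b n :=
    sum_W_avg n (fun w => F ((b * s n) • X n w))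
  have a1 : ∑ v ∈ W (n + 1), F ((b * s (n + 1)) • X (n + 1) (res (n + 1) v)) =
      cN (n + 1) * EF F b (n + 1) :=
    sum_W_avg (n + 1) (fun w => F ((b * s (n + 1)) • X (n + 1) w))
  have a2 : ∑ v ∈ W (n + 2), F ((b * s (n + 2)) • X (n + 2) (res (n + 2) v)) =
      cN (n + 2) * EF F b (n + 2) :=
    sum_W_avg (n + 2) (fun w => F ((b * s (n + 2)) • X (n + 2) w))
  have hcard : ∀ m, ((W m).card : ℝ) = cN m := by
    intro m
    rw [card_W, cN_eq]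
  have b1 : cN (n + 1) * EF F b (n + 1) - 4 * b * cN (n + 1) ≤
      ∑ u ∈ W (n + 1), F ((b * s n) • X n (res n (tr n u))) := by
    rw [← a1, ← hcard (n + 1)]
    have : ∑ v ∈ W (n + 1), F ((b * s (n + 1)) • X (n + 1) (res (n + 1) v)) -
        4 * b * ((W (n + 1)).card : ℝ) =
        ∑ v ∈ W (n + 1), (F ((b * s (n + 1)) • X (n + 1) (res (n + 1) v)) - 4 * b) := by
      rw [Finset.sum_sub_distrib, Finset.sum_const, nsmul_eq_mul]; ring
    rw [this]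
    apply Finset.sum_le_sum
    intro v hv
    have := (abs_le.1 (F_close hF hb (tr_close hn (mem_W.1 hv)))).2
    linarith
  have b2 : cN (n + 1) * EF F b (n + 1) - 6 * b * cN (n + 1) ≤
      ∑ u ∈ W (n + 1), F ((b * s n) • X n (res n (tl n u))) := by
    rw [← a1, ← hcard (n + 1)]
    have : ∑ v ∈ W (n + 1), F ((b * s (n + 1)) • X (n + 1) (res (n + 1) v)) -
        6 * b * ((W (n + 1)).card : ℝ) =
        ∑ v ∈ W (n + 1), (F ((b * s (n + 1)) • X (n + 1) (res (n + 1) v)) - 6 * b) := by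
      rw [Finset.sum_sub_distrib, Finset.sum_const, nsmul_eq_mul]; ring
    rw [this]
    apply Finset.sum_le_sum
    intro v hv
    have := (abs_le.1 (F_close hF hb (tl_close hn (mem_W.1 hv)))).2
    linarith
  have b3 : ∑ z ∈ W (n + 2), F ((b * s n) • X n (res n (mid n z))) ≤
      cN (n + 2) * EF F b (n + 2) + 10 * b * cN (n + 2) := by
    rw [← a2, ← hcard (n + 2)]
    have : ∑ v ∈ W (n + 2), F ((b * s (n + 2)) • X (n + 2) (res (n + 2) v)) +
        10 * b * ((W (n + 2)).card : ℝ) =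
        ∑ v ∈ W (n + 2), (F ((b * s (n + 2)) • X (n + 2) (res (n + 2) v)) + 10 * b) := by
      rw [Finset.sum_add_distrib, Finset.sum_const, nsmul_eq_mul]; ring
    rw [this]
    apply Finset.sum_le_sum
    intro v hv
    have := (abs_le.1 (F_close hF hb (mid_close hn (mem_W.1 hv)))).1
    linarith
  rw [a0] at key
  linarith

/-- the extension inequality for the numbers of walks -/
theorem ext_count {n : ℕ} (hn : 1 ≤ n) :
    6 * cN (n + 1) ≤ 9 * cN n + cN (n + 2) + ((cl (n + 1)).card : ℝ) := by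
  have key := ext_ineq hn (fun _ => 1) 1 (fun _ _ => zero_le_one) (fun _ _ _ _ _ => le_rfl)
  simp only [Finset.sum_const, nsmul_eq_mul, mul_one, one_mul] at key
  rw [card_W, card_W, card_W, ← cN_eq, ← cN_eq, ← cN_eq] at key
  linarith

/-- the extension inequality for the squared end-to-end distance -/
theorem ext_sq {n : ℕ} (hn : 1 ≤ n) {θ : ℝ} (hθ : 0 < θ) :
    6 * (cN (n + 1) * ((1 - θ) * s (n + 1) ^ 2 - 1 / θ)) ≤ 9 * (cN n * s n ^ 2) +
      cN (n + 2) * ((1 + θ) * s (n + 2) ^ 2 + 4 * (1 + 1 / θ)) + 4 * ((cl (n + 1)).card : ℝ) := by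
  have key := ext_ineq hn (fun v => ‖pt (v n)‖ ^ 2) 4 (fun _ _ => by positivity)
    (fun v hv a ha hb => by
      have h1 := (mem_RE.1 ha).1
      have h2 := (mem_RS.1 hb).1
      rw [adj_iff] at h1 h2
      rw [sub_zero] at h2
      have e : pt (v n) = pt a - pt (a - v n) := by rw [← pt_sub']; congr 1; abel
      have h3 : ‖pt (v n)‖ ≤ 2 := by
        rw [e]
        refine (norm_sub_le _ _).trans ?_
        have := norm_pt_dir_le h1
        have := norm_pt_dir_le h2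
        linarith
      have h4 := norm_nonneg (pt (v n))
      nlinarith)
  have hlast : ∀ m (v : ℕ → ℤ × ℤ), res m v (Fin.last m) = v m := fun m v => rfl
  have hsq : ∀ m, 1 ≤ m → ∑ v ∈ W m, ‖pt (v m)‖ ^ 2 = cN m * s m ^ 2 := by
    intro m hm
    rw [s_sq hm]
    exact sum_W_avg m (fun w => ‖pt (w (Fin.last m))‖ ^ 2)
  have hcard : ∀ m, ((W m).card : ℝ) = cN m := by
    intro m
    rw [card_W, cN_eq]
  have low : ∀ x y : ℝ, 0 ≤ x → x ≤ y + 1 → 0 ≤ y → (1 - θ) * x ^ 2 - 1 / θ ≤ y ^ 2 := by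
    intro x y hx hxy hy
    have h6 : 0 ≤ (θ * x - 1) ^ 2 / θ := by positivity
    have h7 : (θ * x - 1) ^ 2 / θ = θ * x ^ 2 - 2 * x + 1 / θ := by
      field_simp
      ring
    rcases le_or_gt 1 x with h | h
    · have : (x - 1) ^ 2 ≤ y ^ 2 := pow_le_pow_left₀ (by linarith) (by linarith) 2
      nlinarith
    · have : (1 - θ) * x ^ 2 - 1 / θ ≤ 0 := by
        have h8 : x ^ 2 ≤ x := by nlinarith
        have h9 : 0 ≤ θ * x ^ 2 + 1 / θ - x ^ 2 := by nlinarith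
        linarith
      have := sq_nonneg y
      linarith
  have b1 : cN (n + 1) * ((1 - θ) * s (n + 1) ^ 2 - 1 / θ) ≤
      ∑ u ∈ W (n + 1), ‖pt (tr n u n)‖ ^ 2 := by
    have e : cN (n + 1) * ((1 - θ) * s (n + 1) ^ 2 - 1 / θ) =
        ∑ u ∈ W (n + 1), ((1 - θ) * ‖pt (u (n + 1))‖ ^ 2 - 1 / θ) := by
      rw [Finset.sum_sub_distrib, Finset.sum_const, nsmul_eq_mul, ← Finset.mul_sum,
        hsq (n + 1) (by omega), hcard]
      ring
    rw [e]
    apply Finset.sum_le_sum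
    intro u hu
    apply low _ _ (norm_nonneg _) _ (norm_nonneg _)
    rw [tr_of_le _ le_rfl]
    have := norm_step (mem_W.1 hu) (i := n + 1) (j := n) le_rfl (by omega) 1 (by omega) (by omega)
    have h2 := norm_sub_norm_le (pt (u (n + 1))) (pt (u n))
    push_cast at this
    linarith
  have b2 : cN (n + 1) * ((1 - θ) * s (n + 1) ^ 2 - 1 / θ) ≤
      ∑ u ∈ W (n + 1), ‖pt (tl n u n)‖ ^ 2 := by
    have e : cN (n + 1) * ((1 - θ) * s (n + 1) ^ 2 - 1 / θ) =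
        ∑ u ∈ W (n + 1), ((1 - θ) * ‖pt (u (n + 1))‖ ^ 2 - 1 / θ) := by
      rw [Finset.sum_sub_distrib, Finset.sum_const, nsmul_eq_mul, ← Finset.mul_sum,
        hsq (n + 1) (by omega), hcard]
      ring
    rw [e]
    apply Finset.sum_le_sum
    intro u hu
    apply low _ _ (norm_nonneg _) _ (norm_nonneg _)
    rw [tl_of_le _ le_rfl, pt_sub']
    have h1 := norm_pt_one (mem_W.1 hu) (by omega)
    have h2 := norm_sub_norm_le (pt (u (n + 1))) (pt (u 1))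
    linarith
  have b3 : ∑ z ∈ W (n + 2), ‖pt (mid n z n)‖ ^ 2 ≤
      cN (n + 2) * ((1 + θ) * s (n + 2) ^ 2 + 4 * (1 + 1 / θ)) := by
    have e : cN (n + 2) * ((1 + θ) * s (n + 2) ^ 2 + 4 * (1 + 1 / θ)) =
        ∑ u ∈ W (n + 2), ((1 + θ) * ‖pt (u (n + 2))‖ ^ 2 + 4 * (1 + 1 / θ)) := by
      rw [Finset.sum_add_distrib, Finset.sum_const, nsmul_eq_mul, ← Finset.mul_sum,
        hsq (n + 2) (by omega), hcard]
      ring
    rw [e]
    apply Finset.sum_le_sum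
    intro z hz
    have hz' := mem_W.1 hz
    have e1 : mid n z n = z (n + 1) - z 1 := by
      unfold mid
      rw [tl_of_le _ le_rfl, tr_of_le _ le_rfl, tr_of_le _ (by omega)]
    rw [e1]
    have h1 := norm_pt_one hz' (by omega)
    have h2 := norm_step hz' (i := n + 1) (j := n + 2) (by omega) le_rfl 1 (by omega) (by omega)
    push_cast at h2
    set x := ‖pt (z (n + 2))‖ with hx
    have hx0 : 0 ≤ x := norm_nonneg _
    have h3 : ‖pt (z (n + 1) - z 1)‖ ≤ x + 2 := by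
      rw [pt_sub']
      have k1 := norm_sub_le (pt (z (n + 1))) (pt (z 1))
      have k2 := norm_sub_norm_le (pt (z (n + 1))) (pt (z (n + 2)))
      linarith
    have h4 : ‖pt (z (n + 1) - z 1)‖ ^ 2 ≤ (x + 2) ^ 2 :=
      pow_le_pow_left₀ (norm_nonneg _) h3 2
    have h6 : 0 ≤ (θ * x - 2) ^ 2 / θ := by positivity
    have h7 : (θ * x - 2) ^ 2 / θ = θ * x ^ 2 - 4 * x + 4 / θ := by
      field_simp
      ring
    have h8 : 4 / θ = 4 * (1 / θ) := by ring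
    nlinarith
  rw [hsq n hn] at key
  linarith

/-! ### The ratio -/

lemma cl_eq (n : ℕ) : ((cl n).card : ℝ) = cp n * cN n := by
  unfold cp
  have h := cN_pos n
  rw [card_W, ← cN_eq]
  field_simp

lemma cN_succ_le4 (n : ℕ) (hn : 1 ≤ n) : cN (n + 1) ≤ 3 * cN n := cN_succ_le hn

/-- for all large `n`: `c_{n+1}/c_n ≤ σ + O(e)`, `c_n/c_{n+1} ≤ σ/μ² + O(e)`, with
`σ = (9+μ²)/6` -/
theorem ratio_large (δ : ℝ) (hδ : 0 < δ) (hδ' : δ < 1 / 2) : ∃ C : ℝ, 0 ≤ C ∧ ∃ N : ℕ, 1 ≤ N ∧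
    ∀ n : ℕ, N ≤ n →
    cN (n + 1) / cN n ≤ (9 + mu ^ 2) / 6 + C * (n : ℝ) ^ (δ - 1 / 2) ∧
    cN n / cN (n + 1) ≤ (9 + mu ^ 2) / (6 * mu ^ 2) + C * (n : ℝ) ^ (δ - 1 / 2) ∧
    ((cl (n + 1)).card : ℝ) / cN n ≤ C * (n : ℝ) ^ (δ - 1 / 2) ∧
    C * (n : ℝ) ^ (δ - 1 / 2) ≤ 1 := by
  obtain ⟨C₁, hC₁, hR⟩ := merging_aux δ hδ hδ'
  obtain ⟨C₂, hC₂, hcl⟩ := cp_all δ hδ hδ'
  have hm : 1 ≤ mu ^ 2 := one_le_pow₀ one_le_mu
  -- first bound
  have f1 : ∀ n : ℕ, 1 ≤ n → ((cl (n + 1)).card : ℝ) / cN n ≤ 3 * C₂ * (n : ℝ) ^ (δ - 1 / 2) := by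
    intro n hn
    have hnr : (0 : ℝ) < n := by exact_mod_cast hn
    have c0 := cN_pos n
    rw [div_le_iff₀ c0, cl_eq]
    have h1 := hcl (n + 1) (by omega)
    have h2 : ((n + 1 : ℕ) : ℝ) ^ (δ - 1 / 2) ≤ (n : ℝ) ^ (δ - 1 / 2) := by
      apply Real.rpow_le_rpow_of_nonpos hnr _ (by linarith)
      push_cast; linarith
    have h3 := cN_succ_le hn
    have h4 : cp (n + 1) ≤ C₂ * (n : ℝ) ^ (δ - 1 / 2) :=
      h1.trans (mul_le_mul_of_nonneg_left h2 hC₂)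
    have h5 : 0 ≤ C₂ * (n : ℝ) ^ (δ - 1 / 2) := by positivity
    calc cp (n + 1) * cN (n + 1) ≤ (C₂ * (n : ℝ) ^ (δ - 1 / 2)) * (3 * cN n) :=
          mul_le_mul h4 h3 (cN_pos _).le h5
      _ = _ := by ring
  have f2 : ∀ n : ℕ, 1 ≤ n → cN (n + 1) / cN n ≤
      (9 + mu ^ 2) / 6 + (C₁ + 3 * C₂) * (n : ℝ) ^ (δ - 1 / 2) := by
    intro n hn
    have c0 := cN_pos n
    have h1 := ext_count hn
    have h2 := (abs_le.1 (hR n hn).1).2
    have h3 := f1 n hn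
    rw [div_le_iff₀ c0] at h3 ⊢
    have h4 : cN (n + 2) = cN (n + 2) / cN n * cN n := by field_simp
    have h5 : cN (n + 2) ≤ (mu ^ 2 + C₁ * (n : ℝ) ^ (δ - 1 / 2)) * cN n := by
      rw [h4]
      exact mul_le_mul_of_nonneg_right (by linarith) c0.le
    have hnr : (0 : ℝ) < n := by exact_mod_cast hn
    have h6 : 0 ≤ C₁ * (n : ℝ) ^ (δ - 1 / 2) * cN n := by positivity
    have h7 : 0 ≤ C₂ * (n : ℝ) ^ (δ - 1 / 2) * cN n := by positivity
    have h8 : ((9 + mu ^ 2) / 6 + (C₁ + 3 * C₂) * (n : ℝ) ^ (δ - 1 / 2)) * cN n =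
        (9 * cN n + mu ^ 2 * cN n) / 6 + C₁ * (n : ℝ) ^ (δ - 1 / 2) * cN n +
          3 * (C₂ * (n : ℝ) ^ (δ - 1 / 2) * cN n) := by ring
    have h9 : (mu ^ 2 + C₁ * (n : ℝ) ^ (δ - 1 / 2)) * cN n =
        mu ^ 2 * cN n + C₁ * (n : ℝ) ^ (δ - 1 / 2) * cN n := by ring
    have h10 : 3 * C₂ * (n : ℝ) ^ (δ - 1 / 2) * cN n =
        3 * (C₂ * (n : ℝ) ^ (δ - 1 / 2) * cN n) := by ring
    rw [h8]
    rw [h9] at h5
    rw [h10] at h3
    linarith only [h1, h3, h5, h6, h7]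
  obtain ⟨D, hD⟩ : ∃ D, D = C₁ + 3 * C₂ := ⟨_, rfl⟩
  rw [← hD] at f2
  have hD0 : 0 ≤ D := by rw [hD]; positivity
  obtain ⟨σ, hσ⟩ : ∃ σ, σ = (9 + mu ^ 2) / 6 := ⟨_, rfl⟩
  rw [← hσ] at f2
  have hσ0 : 0 < σ := by rw [hσ]; positivity
  obtain ⟨N, hN⟩ : ∃ N : ℕ, ∀ n : ℕ, N ≤ n → (n : ℝ) ^ (δ - 1 / 2) ≤
      1 / (2 * (C₁ + D + 3 * C₂ + 2 * (D + 2 * σ * C₁)) + 1) := by
    have h : Filter.Tendsto (fun n : ℕ => (n : ℝ) ^ (-(1 / 2 - δ))) Filter.atTop (nhds 0) :=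
      (tendsto_rpow_neg_atTop (by linarith : 0 < 1 / 2 - δ)).comp tendsto_natCast_atTop_atTop
    have h3 := h.eventually (ge_mem_nhds (show (0 : ℝ) <
      1 / (2 * (C₁ + D + 3 * C₂ + 2 * (D + 2 * σ * C₁)) + 1) by positivity))
    obtain ⟨N, hN⟩ := Filter.eventually_atTop.1 h3
    refine ⟨N, fun n hn => ?_⟩
    have := hN n hn
    rwa [neg_sub] at this
  refine ⟨D + 3 * C₂ + 2 * (D + 2 * σ * C₁), by positivity, max N 1, le_max_right _ _,
    fun n hn => ?_⟩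
  have hn1 : 1 ≤ n := (le_max_right _ _).trans hn
  have hnN : N ≤ n := (le_max_left _ _).trans hn
  have hnr : (0 : ℝ) < n := by exact_mod_cast hn1
  have hsm := hN n hnN
  obtain ⟨e, he⟩ : ∃ e, e = (n : ℝ) ^ (δ - 1 / 2) := ⟨_, rfl⟩
  have he0 : 0 < e := by rw [he]; exact Real.rpow_pos_of_pos hnr _
  have g1 := f1 n hn1
  have g2 := f2 n hn1
  rw [← he] at hsm g1 g2 ⊢
  rw [le_div_iff₀ (by positivity)] at hsm
  have hT0 : 0 ≤ σ * C₁ := by positivity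
  have p1 : 0 ≤ C₁ * e := by positivity
  have p2 : 0 ≤ D * e := by positivity
  have p3 : 0 ≤ C₂ * e := by positivity
  have p4 : 0 ≤ σ * C₁ * e := by positivity
  have p5 : (D + 3 * C₂ + 2 * (D + 2 * σ * C₁)) * e =
      D * e + 3 * (C₂ * e) + 2 * (D * e) + 4 * (σ * C₁ * e) := by ring
  have p6 : 3 * C₂ * e = 3 * (C₂ * e) := by ring
  refine ⟨by rw [p5]; linarith, ?_, by rw [p5]; linarith, ?_⟩
  rotate_left
  · have p7 : (2 * (C₁ + D + 3 * C₂ + 2 * (D + 2 * σ * C₁)) + 1) =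
        2 * (D + 3 * C₂ + 2 * (D + 2 * σ * C₁)) + (2 * C₁ + 1) := by ring
    rw [p7, mul_add] at hsm
    have p8 : e * (2 * (D + 3 * C₂ + 2 * (D + 2 * σ * C₁))) =
        2 * ((D + 3 * C₂ + 2 * (D + 2 * σ * C₁)) * e) := by ring
    have p9 : 0 ≤ e * (2 * C₁ + 1) := by positivity
    linarith
  -- lower bound for the ratio
  have c0 := cN_pos n
  have c1 := cN_pos (n + 1)
  have c2 := cN_pos (n + 2)
  have k1 := f2 (n + 1) (by omega)
  have k2 : ((n + 1 : ℕ) : ℝ) ^ (δ - 1 / 2) ≤ e := by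
    rw [he]
    apply Real.rpow_le_rpow_of_nonpos hnr _ (by linarith)
    push_cast; linarith
  have k3 : cN (n + 2) / cN (n + 1) ≤ σ + D * e :=
    k1.trans (by have := mul_le_mul_of_nonneg_left k2 hD0; linarith)
  have k4 := (abs_le.1 (hR n hn1).1).1
  rw [← he] at k4
  have k5 : mu ^ 2 - C₁ * e ≤ cN (n + 2) / cN n := by linarith
  have k6 : C₁ * e ≤ 1 / 2 := by
    have q1 : e * (2 * (C₁ + D + 3 * C₂ + 2 * (D + 2 * σ * C₁)) + 1) =
        2 * (C₁ * e) + 2 * (D * e) + 6 * (C₂ * e) + 4 * (D * e) + 8 * (σ * C₁ * e) + e := by ring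
    rw [q1] at hsm
    linarith only [hsm, p2, p3, p4, he0]
  have k7 : cN n / cN (n + 1) = cN (n + 2) / cN (n + 1) / (cN (n + 2) / cN n) := by
    field_simp
  rw [k7]
  have k8 : (0 : ℝ) < mu ^ 2 - C₁ * e := by linarith
  have k9 : cN (n + 2) / cN (n + 1) / (cN (n + 2) / cN n) ≤ (σ + D * e) / (mu ^ 2 - C₁ * e) := by
    apply div_le_div₀ (by positivity) k3 k8 k5
  refine k9.trans ?_
  rw [div_le_iff₀ k8]
  have e1 : (9 + mu ^ 2) / (6 * mu ^ 2) = σ / mu ^ 2 := by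
    rw [hσ]; field_simp
  rw [e1]
  have hmu0 : 0 < mu ^ 2 := by linarith
  have e2 : (σ / mu ^ 2 + (D + 3 * C₂ + 2 * (D + 2 * σ * C₁)) * e) * (mu ^ 2 - C₁ * e) =
      σ - σ / mu ^ 2 * (C₁ * e) + (D + 3 * C₂ + 2 * (D + 2 * σ * C₁)) * e * (mu ^ 2 - C₁ * e) := by
    have : σ / mu ^ 2 * mu ^ 2 = σ := div_mul_cancel₀ _ hmu0.ne'
    linear_combination this
  rw [e2]
  have e3 : σ / mu ^ 2 ≤ σ := div_le_self hσ0.le hm
  have e4 : σ / mu ^ 2 * (C₁ * e) ≤ σ * (C₁ * e) := mul_le_mul_of_nonneg_right e3 p1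
  have e5 : (1 : ℝ) / 2 ≤ mu ^ 2 - C₁ * e := by linarith
  have e6 : 0 ≤ (D + 3 * C₂ + 2 * (D + 2 * σ * C₁)) * e := by positivity
  have e7 : (D + 3 * C₂ + 2 * (D + 2 * σ * C₁)) * e * (1 / 2) ≤
      (D + 3 * C₂ + 2 * (D + 2 * σ * C₁)) * e * (mu ^ 2 - C₁ * e) :=
    mul_le_mul_of_nonneg_left e5 e6
  have e8 : (D + 3 * C₂ + 2 * (D + 2 * σ * C₁)) * e * (1 / 2) =
      D * e / 2 + 3 * (C₂ * e) / 2 + D * e + 2 * (σ * C₁ * e) := by ring
  have e9 : σ * (C₁ * e) = σ * C₁ * e := by ring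
  rw [e8] at e7
  rw [e9] at e4
  linarith only [e7, e4, p2, p3, p4]

end Pool.Agent.SawClose
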