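import Pool.Agent.SawClose.Basic

/-!
Averages of closing probabilities: the rotation argument.
-/

set_option autoImplicit false

open Pool.Agent.SawLim

namespace Pool.Agent.SawClose

/-! ### The real variable lemma -/

lemma abel_bound (K : ℕ) (G C : ℕ → ℝ) (hG : ∀ l < K, 0 < G l)
    (hanti : ∀ l, l + 1 < K → G (l + 1) ≤ G l)
    (hT : ∀ l < K, ∑ j ∈ Finset.Ico l K, C j ≤ 4 * G l) :
    ∀ k, 1 ≤ k → k ≤ K → ∑ l ∈ Finset.range k, C l / G l + (∑ j ∈ Finset.Ico k K, C j) / G (k - 1) ≤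
      4 * (1 + Real.log (G 0 / G (k - 1))) := by
  intro k hk
  induction k, hk using Nat.le_induction with
  | base =>
    intro h1
    have g0 := hG 0 (by omega)
    have e1 : ∑ j ∈ Finset.Ico 0 K, C j = C 0 + ∑ j ∈ Finset.Ico 1 K, C j :=
      Finset.sum_eq_sum_Ico_succ_bot (by omega) C
    have h2 := hT 0 (by omega)
    rw [Finset.sum_range_one, Nat.sub_self, div_self g0.ne', Real.log_one, ← add_div, ← e1,
      div_le_iff₀ g0]
    linarith
  | succ k hk ih =>
    intro h1
    have ih' := ih (by omega)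
    have g1 := hG k (by omega)
    have g2 := hG (k - 1) (by omega)
    have g0 := hG 0 (by omega)
    have ha := hanti (k - 1) (by omega)
    rw [Nat.sub_add_cancel hk] at ha
    have e1 : ∑ j ∈ Finset.Ico k K, C j = C k + ∑ j ∈ Finset.Ico (k + 1) K, C j :=
      Finset.sum_eq_sum_Ico_succ_bot (by omega) C
    have h2 := hT k (by omega)
    rw [Finset.sum_range_succ, Nat.add_sub_cancel]
    set T := ∑ j ∈ Finset.Ico k K, C j with hTdef
    have e2 : ∑ l ∈ Finset.range k, C l / G l + C k / G k +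
        (∑ j ∈ Finset.Ico (k + 1) K, C j) / G k =
        (∑ l ∈ Finset.range k, C l / G l + T / G (k - 1)) + T * (1 / G k - 1 / G (k - 1)) := by
      have : ∑ j ∈ Finset.Ico (k + 1) K, C j = T - C k := by rw [e1]; ring
      rw [this]
      ring
    rw [e2]
    have h3 : 0 ≤ 1 / G k - 1 / G (k - 1) := by
      rw [sub_nonneg]
      exact one_div_le_one_div_of_le g1 ha
    have h4 : T * (1 / G k - 1 / G (k - 1)) ≤ 4 * G k * (1 / G k - 1 / G (k - 1)) :=
      mul_le_mul_of_nonneg_right h2 h3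
    have h5 : 4 * G k * (1 / G k - 1 / G (k - 1)) = 4 * (1 - G k / G (k - 1)) := by
      field_simp
    have h6 : 1 - G k / G (k - 1) ≤ Real.log (G (k - 1) / G k) := by
      have := Real.one_sub_inv_le_log_of_pos (div_pos g2 g1)
      rwa [inv_div] at this
    have h7 : Real.log (G 0 / G k) = Real.log (G 0 / G (k - 1)) + Real.log (G (k - 1) / G k) := by
      rw [← Real.log_mul (div_pos g0 g2).ne' (div_pos g2 g1).ne']
      congr 1
      field_simp
    rw [h7]
    linarith

lemma snake_real (K : ℕ) (hK : 1 ≤ K) (G C : ℕ → ℝ) (hG : ∀ l < K, 0 < G l)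
    (hC : ∀ l < K, 0 < C l) (hanti : ∀ l, l + 1 < K → G (l + 1) ≤ G l)
    (hT : ∀ l < K, ∑ j ∈ Finset.Ico l K, C j ≤ 4 * G l) :
    (K : ℝ) ^ 2 ≤ 4 * (1 + Real.log (G 0 / G (K - 1))) * ∑ l ∈ Finset.range K, G l / C l := by
  have h1 := abel_bound K G C hG hanti hT K hK le_rfl
  rw [Finset.Ico_self, Finset.sum_empty, zero_div, add_zero] at h1
  have h2 := Finset.sum_mul_sq_le_sq_mul_sq (Finset.range K) (fun l => Real.sqrt (C l / G l))
    (fun l => Real.sqrt (G l / C l))
  have e1 : ∑ l ∈ Finset.range K, Real.sqrt (C l / G l) * Real.sqrt (G l / C l) = K := by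
    have : ∀ l ∈ Finset.range K, Real.sqrt (C l / G l) * Real.sqrt (G l / C l) = 1 := by
      intro l hl
      rw [Finset.mem_range] at hl
      have g := hG l hl
      have c := hC l hl
      rw [← Real.sqrt_mul (div_pos c g).le]
      have : C l / G l * (G l / C l) = 1 := by field_simp
      rw [this, Real.sqrt_one]
    rw [Finset.sum_congr rfl this]
    simp
  have e2 : ∑ l ∈ Finset.range K, Real.sqrt (C l / G l) ^ 2 = ∑ l ∈ Finset.range K, C l / G l := by
    apply Finset.sum_congr rfl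
    intro l hl
    rw [Finset.mem_range] at hl
    exact Real.sq_sqrt (div_pos (hC l hl) (hG l hl)).le
  have e3 : ∑ l ∈ Finset.range K, Real.sqrt (G l / C l) ^ 2 = ∑ l ∈ Finset.range K, G l / C l := by
    apply Finset.sum_congr rfl
    intro l hl
    rw [Finset.mem_range] at hl
    exact Real.sq_sqrt (div_pos (hG l hl) (hC l hl)).le
  rw [e1, e2, e3] at h2
  refine h2.trans (mul_le_mul_of_nonneg_right h1 ?_)
  apply Finset.sum_nonneg
  intro l hl
  rw [Finset.mem_range] at hl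
  exact (div_pos (hG l hl) (hC l hl)).le

/-! ### Weights -/

/-- weight of the walks avoiding the first `l` steps of `χ` -/
noncomputable def GG (x : ℝ) (N K l : ℕ) (χ : ℕ → ℤ × ℤ) : ℝ :=
  ∑ m ∈ Finset.Ico (N - K + 1) (N + K), x ^ m * (Z l χ m).card

open scoped Classical in
/-- weight of the closing continuations of the first `l` steps of `χ` -/
noncomputable def CC (x : ℝ) (N K l : ℕ) (χ : ℕ → ℤ × ℤ) : ℝ :=
  ∑ n ∈ Finset.Ico N (N + K), x ^ (n - l) * ((cl n).filter fun v => tr l v = tr l χ).card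

lemma GG_nonneg {x : ℝ} (hx : 0 < x) (N K l : ℕ) (χ : ℕ → ℤ × ℤ) : 0 ≤ GG x N K l χ :=
  Finset.sum_nonneg fun _ _ => by positivity

lemma CC_nonneg {x : ℝ} (hx : 0 < x) (N K l : ℕ) (χ : ℕ → ℤ × ℤ) : 0 ≤ CC x N K l χ :=
  Finset.sum_nonneg fun _ _ => by positivity

lemma GG_anti {x : ℝ} (hx : 0 < x) (N K : ℕ) {l l' : ℕ} (h : l ≤ l') (χ : ℕ → ℤ × ℤ) :
    GG x N K l' χ ≤ GG x N K l χ := by
  apply Finset.sum_le_sum
  intro m _
  apply mul_le_mul_of_nonneg_left _ (by positivity)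
  exact_mod_cast Finset.card_le_card (Z_anti h χ)

lemma GG_tr (x : ℝ) (N K l : ℕ) (χ : ℕ → ℤ × ℤ) : GG x N K l (tr l χ) = GG x N K l χ := by
  unfold GG
  apply Finset.sum_congr rfl
  intro m _
  rw [Z_congr (fun i hi => tr_of_le χ hi)]

lemma CC_tr (x : ℝ) (N K l : ℕ) (χ : ℕ → ℤ × ℤ) : CC x N K l (tr l χ) = CC x N K l χ := by
  unfold CC
  apply Finset.sum_congr rfl
  intro m _
  rw [tr_tr le_rfl]

lemma sum_CC_le {x : ℝ} (hx : 0 < x) {N K : ℕ} (hKN : K ≤ N) (χ : ℕ → ℤ × ℤ)
    (hχ : ∀ i j, i < K → j < K → χ i = χ j → i = j) (l₀ : ℕ) :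
    ∑ l ∈ Finset.Ico l₀ K, CC x N K l χ ≤ 4 * GG x N K l₀ χ := by
  classical
  have h1 : ∀ l ∈ Finset.Ico l₀ K, CC x N K l χ ≤
      ∑ m ∈ Finset.Ico (N - K + 1) (N + K),
        x ^ m * (((cl (l + m)).filter fun v => tr l v = tr l χ).card : ℝ) := by
    intro l hl
    rw [Finset.mem_Ico] at hl
    unfold CC
    have e1 : Finset.Ico N (N + K) = Finset.Ico ((N - l) + l) ((N + K - l) + l) := by
      rw [Nat.sub_add_cancel (by omega), Nat.sub_add_cancel (by omega)]
    rw [e1, ← Finset.sum_Ico_add' (fun n => x ^ (n - l) *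
      (((cl n).filter fun v => tr l v = tr l χ).card : ℝ))]
    simp only [Nat.add_sub_cancel]
    have e2 : ∀ m, m + l = l + m := fun m => Nat.add_comm m l
    simp only [e2]
    apply Finset.sum_le_sum_of_subset_of_nonneg
    · intro m hm
      rw [Finset.mem_Ico] at hm ⊢
      omega
    · intro m _ _
      positivity
  refine (Finset.sum_le_sum h1).trans ?_
  rw [Finset.sum_comm]
  unfold GG
  rw [Finset.mul_sum]
  apply Finset.sum_le_sum
  intro m hm
  rw [Finset.mem_Ico] at hm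
  rw [← Finset.mul_sum]
  have h2 := sum_card_cl_le χ l₀ K m (by omega) hχ
  have h3 : (∑ l ∈ Finset.Ico l₀ K, (((cl (l + m)).filter fun v => tr l v = tr l χ).card : ℝ)) ≤
      ((Z l₀ χ m).card : ℝ) * 4 := by exact_mod_cast h2
  calc x ^ m * ∑ l ∈ Finset.Ico l₀ K, (((cl (l + m)).filter fun v => tr l v = tr l χ).card : ℝ)
      ≤ x ^ m * (((Z l₀ χ m).card : ℝ) * 4) := mul_le_mul_of_nonneg_left h3 (by positivity)
    _ = 4 * (x ^ m * (Z l₀ χ m).card) := by ring

lemma CC_pos {x : ℝ} (hx : 0 < x) {N K l n : ℕ} {v : ℕ → ℤ × ℤ} (hn : n ∈ Finset.Ico N (N + K))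
    (hv : v ∈ cl n) : 0 < CC x N K l v := by
  classical
  unfold CC
  apply Finset.sum_pos' (fun _ _ => by positivity)
  refine ⟨n, hn, ?_⟩
  have : 0 < ((cl n).filter fun w => tr l w = tr l v).card :=
    Finset.card_pos.2 ⟨v, Finset.mem_filter.2 ⟨hv, rfl⟩⟩
  have h2 : (0 : ℝ) < ((cl n).filter fun w => tr l w = tr l v).card := by exact_mod_cast this
  positivity

lemma tr_self {l : ℕ} {A : ℕ → ℤ × ℤ} (h : IsW l A) : tr l A = A := by
  funext k
  rcases le_total k l with hk | hk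
  · rw [tr_of_le _ hk]
  · rw [tr_ge _ hk, h.2.2.2 k hk]

/-- disintegration of the closing walks with respect to their first `l` steps -/
theorem disint {x : ℝ} (hx : 0 < x) {N K l : ℕ} (hl : l ≤ N) (Φ : (ℕ → ℤ × ℤ) → ℝ)
    (hΦ : ∀ A ∈ W l, 0 ≤ Φ A) :
    ∑ n ∈ Finset.Ico N (N + K), ∑ v ∈ cl n, x ^ n * (Φ (tr l v) / CC x N K l v) ≤
      x ^ l * ∑ A ∈ W l, Φ A := by
  classical
  have h1 : ∀ n ∈ Finset.Ico N (N + K), ∑ v ∈ cl n, x ^ n * (Φ (tr l v) / CC x N K l v) =
      ∑ A ∈ W l, x ^ n * (Φ A / CC x N K l A) * (((cl n).filter fun v => tr l v = tr l A).card : ℝ) := by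
    intro n hn
    rw [Finset.mem_Ico] at hn
    rw [← Finset.sum_fiberwise_of_maps_to (s := cl n) (t := W l) (g := tr l)
      (fun v hv => mem_W.2 (isW_tr (mem_cl.1 hv).1 (by omega)))]
    apply Finset.sum_congr rfl
    intro A hA
    rw [tr_self (mem_W.1 hA)]
    have : ∑ v ∈ cl n with tr l v = A, x ^ n * (Φ (tr l v) / CC x N K l v) =
        ∑ v ∈ cl n with tr l v = A, x ^ n * (Φ A / CC x N K l A) := by
      apply Finset.sum_congr rfl
      intro v hv
      rw [Finset.mem_filter] at hv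
      rw [← CC_tr x N K l v, hv.2]
    rw [this, Finset.sum_const, nsmul_eq_mul]
    ring
  rw [Finset.sum_congr rfl h1, Finset.sum_comm, Finset.mul_sum]
  apply Finset.sum_le_sum
  intro A hA
  have h2 : ∑ n ∈ Finset.Ico N (N + K), x ^ n * (Φ A / CC x N K l A) *
      (((cl n).filter fun v => tr l v = tr l A).card : ℝ) =
      x ^ l * (Φ A / CC x N K l A) * CC x N K l A := by
    rw [CC, Finset.mul_sum]
    apply Finset.sum_congr rfl
    intro n hn
    rw [Finset.mem_Ico] at hn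
    have : x ^ n = x ^ l * x ^ (n - l) := by rw [← pow_add]; congr 1; omega
    rw [this]
    ring
  rw [h2, mul_assoc]
  apply mul_le_mul_of_nonneg_left _ (by positivity)
  rcases eq_or_ne (CC x N K l A) 0 with h0 | h0
  · rw [h0, mul_zero]; exact hΦ A hA
  · rw [div_mul_cancel₀ _ h0]

/-- total weight of walks in a window -/
noncomputable def WW (x : ℝ) (N K : ℕ) : ℝ :=
  ∑ n ∈ Finset.Ico (N - K + 1) (N + 2 * K), x ^ n * (W n).card

/-- total weight of closing walks in a window -/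
noncomputable def QQ (x : ℝ) (N K : ℕ) : ℝ := ∑ n ∈ Finset.Ico N (N + K), x ^ n * (cl n).card

lemma sum_GG_le {x : ℝ} (hx : 0 < x) {N K l : ℕ} (hl : l < K) :
    x ^ l * ∑ A ∈ W l, GG x N K l A ≤ WW x N K := by
  classical
  unfold GG
  rw [Finset.sum_comm, Finset.mul_sum]
  have h1 : ∀ m ∈ Finset.Ico (N - K + 1) (N + K),
      x ^ l * ∑ A ∈ W l, x ^ m * ((Z l A m).card : ℝ) ≤ x ^ (m + l) * (W (m + l)).card := by
    intro m _
    rw [← Finset.mul_sum, ← mul_assoc, ← pow_add, Nat.add_comm l m]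
    apply mul_le_mul_of_nonneg_left _ (by positivity)
    have := sum_card_Z_le l m
    rw [Nat.add_comm l m] at this
    exact_mod_cast this
  refine (Finset.sum_le_sum h1).trans ?_
  rw [Finset.sum_Ico_add' (fun n => x ^ n * ((W n).card : ℝ))]
  unfold WW
  apply Finset.sum_le_sum_of_subset_of_nonneg
  · intro n hn
    rw [Finset.mem_Ico] at hn ⊢
    omega
  · intro n _ _
    positivity

lemma GG_zero_le {x : ℝ} (hx : 0 < x) {N K : ℕ} (hK : 1 ≤ K) (χ : ℕ → ℤ × ℤ) :
    GG x N K 0 χ ≤ WW x N K := by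
  classical
  unfold GG WW
  refine le_trans (Finset.sum_le_sum (g := fun n => x ^ n * ((W n).card : ℝ)) ?_) ?_
  · intro m _
    apply mul_le_mul_of_nonneg_left _ (by positivity)
    have : (Z 0 χ m).card ≤ (W m).card := Finset.card_le_card (by
      intro B hB
      exact mem_W.2 (mem_Z.1 hB).1)
    exact_mod_cast this
  · apply Finset.sum_le_sum_of_subset_of_nonneg
    · intro n hn
      rw [Finset.mem_Ico] at hn ⊢
      omega
    · intro n _ _
      positivity

/-- a point where two nonnegative functions are both at most twice their averages -/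
lemma markov2 {ι κ : Type*} (s : Finset ι) (t : ι → Finset κ) (w : ι → ℝ)
    (hw : ∀ i ∈ s, 0 < w i) (X Y : κ → ℝ) (hX : ∀ i ∈ s, ∀ v ∈ t i, 0 ≤ X v)
    (hY : ∀ i ∈ s, ∀ v ∈ t i, 0 ≤ Y v) (Q a b : ℝ) (hQ : Q = ∑ i ∈ s, ∑ _v ∈ t i, w i)
    (hQ0 : 0 < Q) (ha0 : 0 < a) (hb0 : 0 < b) (ha : ∑ i ∈ s, ∑ v ∈ t i, w i * X v ≤ a)
    (hb : ∑ i ∈ s, ∑ v ∈ t i, w i * Y v ≤ b) :
    ∃ i ∈ s, ∃ v ∈ t i, X v ≤ 2 * (a / Q) ∧ Y v ≤ 2 * (b / Q) := by
  by_contra hcon
  push Not at hcon
  have key : ∀ i ∈ s, ∀ v ∈ t i, w i * 2 < w i * (Q / a * X v + Q / b * Y v) := by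
    intro i hi v hv
    apply mul_lt_mul_of_pos_left _ (hw i hi)
    have x0 := hX i hi v hv
    have y0 := hY i hi v hv
    have qa : 0 < Q / a := div_pos hQ0 ha0
    have qb : 0 < Q / b := div_pos hQ0 hb0
    by_cases h : X v ≤ 2 * (a / Q)
    · have h2 := hcon i hi v hv h
      have h3 := mul_lt_mul_of_pos_left h2 qb
      have e : Q / b * (2 * (b / Q)) = 2 := by field_simp
      rw [e] at h3
      have := mul_nonneg qa.le x0
      linarith
    · push Not at h
      have h3 := mul_lt_mul_of_pos_left h qa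
      have e : Q / a * (2 * (a / Q)) = 2 := by field_simp
      rw [e] at h3
      have := mul_nonneg qb.le y0
      linarith
  obtain ⟨i₁, hi₁, hne⟩ : ∃ i ∈ s, (t i).Nonempty := by
    by_contra hno
    push Not at hno
    rw [hQ, Finset.sum_eq_zero] at hQ0
    · exact lt_irrefl _ hQ0
    · intro i hi
      rw [hno i hi, Finset.sum_empty]
  have e1 : ∑ i ∈ s, ∑ v ∈ t i, w i * (Q / a * X v + Q / b * Y v) =
      Q / a * (∑ i ∈ s, ∑ v ∈ t i, w i * X v) + Q / b * ∑ i ∈ s, ∑ v ∈ t i, w i * Y v := by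
    rw [Finset.mul_sum, Finset.mul_sum, ← Finset.sum_add_distrib]
    apply Finset.sum_congr rfl
    intro n _
    rw [Finset.mul_sum, Finset.mul_sum, ← Finset.sum_add_distrib]
    apply Finset.sum_congr rfl
    intro v _
    ring
  have e2 : ∑ i ∈ s, ∑ v ∈ t i, w i * 2 = Q * 2 := by
    rw [hQ, Finset.sum_mul]
    apply Finset.sum_congr rfl
    intro n _
    rw [Finset.sum_mul]
  have h1 : Q * 2 < ∑ i ∈ s, ∑ v ∈ t i, w i * (Q / a * X v + Q / b * Y v) := by
    rw [← e2]
    apply Finset.sum_lt_sum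
    · intro i hi
      exact Finset.sum_le_sum fun v hv => (key i hi v hv).le
    · exact ⟨i₁, hi₁, Finset.sum_lt_sum_of_nonempty hne fun v hv => key i₁ hi₁ v hv⟩
  rw [e1] at h1
  have b1 := mul_le_mul_of_nonneg_left ha (div_pos hQ0 ha0).le
  have b2 := mul_le_mul_of_nonneg_left hb (div_pos hQ0 hb0).le
  have c1 : Q / a * a = Q := by field_simp
  have c2 : Q / b * b = Q := by field_simp
  linarith

/-- **The rotation argument.** -/
theorem snake {x : ℝ} (hx : 0 < x) {N K : ℕ} (hK : 1 ≤ K) (hKN : K ≤ N)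
    (hQ : 0 < QQ x N K) :
    (K : ℝ) ≤ 8 * (WW x N K / QQ x N K) *
      (1 + Real.log (8 * (x ^ (K - 1) * (W (K - 1)).card) * (WW x N K / QQ x N K))) := by
  classical
  have hcardW : ∀ n, (0 : ℝ) < (W n).card := by
    intro n
    rw [card_W]; exact card_saws_pos n
  have hV0 : 0 < WW x N K := by
    unfold WW
    apply Finset.sum_pos
    · intro n _
      have := hcardW n
      positivity
    · exact ⟨N, Finset.mem_Ico.2 ⟨by omega, by omega⟩⟩
  have hf0 : 0 < x ^ (K - 1) * ((W (K - 1)).card : ℝ) := by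
    have := hcardW (K - 1)
    positivity
  -- the two averages
  have a1 : ∑ n ∈ Finset.Ico N (N + K), ∑ v ∈ cl n, x ^ n *
      (∑ l ∈ Finset.range K, GG x N K l v / CC x N K l v) ≤ K * WW x N K := by
    have e1 : ∑ n ∈ Finset.Ico N (N + K), ∑ v ∈ cl n, x ^ n *
        (∑ l ∈ Finset.range K, GG x N K l v / CC x N K l v) =
        ∑ l ∈ Finset.range K, ∑ n ∈ Finset.Ico N (N + K), ∑ v ∈ cl n,
          x ^ n * (GG x N K l (tr l v) / CC x N K l v) := by
      simp only [Finset.mul_sum, GG_tr]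
      rw [Finset.sum_comm' (s := Finset.range K) (t := fun _ => Finset.Ico N (N + K))
        (t' := Finset.Ico N (N + K)) (s' := fun _ => Finset.range K) (by intros; tauto)]
      apply Finset.sum_congr rfl
      intro n _
      rw [Finset.sum_comm]
    rw [e1]
    have e2 : ∀ l ∈ Finset.range K, ∑ n ∈ Finset.Ico N (N + K), ∑ v ∈ cl n,
          x ^ n * (GG x N K l (tr l v) / CC x N K l v) ≤ WW x N K := by
      intro l hl
      rw [Finset.mem_range] at hl
      exact (disint hx (by omega) (fun A => GG x N K l A) (fun A _ => GG_nonneg hx N K l A)).trans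
        (sum_GG_le hx hl)
    refine (Finset.sum_le_sum e2).trans (le_of_eq ?_)
    rw [Finset.sum_const, Finset.card_range, nsmul_eq_mul]
  have a2 : ∑ n ∈ Finset.Ico N (N + K), ∑ v ∈ cl n, x ^ n * (1 / CC x N K (K - 1) v) ≤
      x ^ (K - 1) * ((W (K - 1)).card : ℝ) := by
    have := disint hx (N := N) (K := K) (l := K - 1) (by omega) (fun _ => (1 : ℝ))
      (fun _ _ => zero_le_one)
    rw [Finset.sum_const, nsmul_eq_mul, mul_one] at this
    exact this
  have hQe : QQ x N K = ∑ n ∈ Finset.Ico N (N + K), ∑ v ∈ cl n, x ^ n := by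
    unfold QQ
    apply Finset.sum_congr rfl
    intro n _
    rw [Finset.sum_const, nsmul_eq_mul, mul_comm]
  obtain ⟨n, hn, v, hv, hX, hY⟩ := markov2 (Finset.Ico N (N + K)) cl (fun n => x ^ n)
    (fun n _ => by positivity) (fun v => ∑ l ∈ Finset.range K, GG x N K l v / CC x N K l v)
    (fun v => 1 / CC x N K (K - 1) v)
    (fun n _ v _ => Finset.sum_nonneg fun l _ => div_nonneg (GG_nonneg hx N K l v)
      (CC_nonneg hx N K l v))
    (fun n _ v _ => div_nonneg zero_le_one (CC_nonneg hx N K (K - 1) v))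
    (QQ x N K) (K * WW x N K) (x ^ (K - 1) * ((W (K - 1)).card : ℝ)) hQe hQ
    (mul_pos (by exact_mod_cast hK) hV0) hf0 a1 a2
  have hn' := Finset.mem_Ico.1 hn
  have hvW := (mem_cl.1 hv).1
  have hinj : ∀ i j, i < K → j < K → v i = v j → i = j := fun i j hi hj he =>
    hvW.inj (by omega) (by omega) he
  have hT := sum_CC_le hx hKN v hinj
  have hC : ∀ l < K, 0 < CC x N K l v := fun l _ => CC_pos hx hn hv
  have hG : ∀ l < K, CC x N K l v / 4 ≤ GG x N K l v := by
    intro l hl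
    have h1 := hT l
    have h2 : CC x N K l v ≤ ∑ j ∈ Finset.Ico l K, CC x N K j v :=
      Finset.single_le_sum (f := fun j => CC x N K j v) (fun j _ => CC_nonneg hx N K j v)
        (Finset.mem_Ico.2 ⟨le_rfl, hl⟩)
    linarith
  have hGpos : ∀ l < K, 0 < GG x N K l v := fun l hl =>
    lt_of_lt_of_le (by have := hC l hl; positivity) (hG l hl)
  have hmain := snake_real K hK (fun l => GG x N K l v) (fun l => CC x N K l v) hGpos hC
    (fun l _ => GG_anti hx N K (Nat.le_succ l) v) (fun l _ => hT l)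
  beta_reduce at hmain hX hY
  have g0 := GG_zero_le hx (N := N) hK v
  have g1 := hG (K - 1) (by omega)
  have g2 := hC (K - 1) (by omega)
  have g3 := GG_anti hx N K (Nat.zero_le (K - 1)) v
  have g4 := hGpos (K - 1) (by omega)
  have g5 := hGpos 0 (by omega)
  have g6 : 0 ≤ ∑ l ∈ Finset.range K, GG x N K l v / CC x N K l v :=
    Finset.sum_nonneg fun l _ => div_nonneg (GG_nonneg hx N K l v) (CC_nonneg hx N K l v)
  have hK0 : (0 : ℝ) < K := by exact_mod_cast hK
  generalize WW x N K = V at *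
  generalize QQ x N K = Q at *
  generalize x ^ (K - 1) * ((W (K - 1)).card : ℝ) = f at *
  generalize GG x N K 0 v = G0 at *
  generalize GG x N K (K - 1) v = G1 at *
  generalize CC x N K (K - 1) v = C1 at *
  generalize ∑ l ∈ Finset.range K, GG x N K l v / CC x N K l v = R at *
  have hlog : Real.log (G0 / G1) ≤ Real.log (8 * f * (V / Q)) := by
    apply Real.log_le_log (div_pos g5 g4)
    rw [div_le_iff₀ g4]
    have h4 : Q / (2 * f) ≤ C1 := by
      rw [div_le_iff₀ (by positivity)]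
      rw [div_le_iff₀ g2] at hY
      have : 2 * (f / Q) * C1 = 2 * f * C1 / Q := by ring
      rw [this, le_div_iff₀ hQ] at hY
      linarith
    calc G0 ≤ V := g0
      _ = 8 * f * (V / Q) * (Q / (2 * f) / 4) := by field_simp; norm_num
      _ ≤ 8 * f * (V / Q) * G1 := by
          apply mul_le_mul_of_nonneg_left _ (by positivity)
          linarith
  have hlog0 : 0 ≤ Real.log (G0 / G1) := by
    apply Real.log_nonneg
    rw [le_div_iff₀ g4, one_mul]
    exact g3
  have h5 : (K : ℝ) ^ 2 ≤ 4 * (1 + Real.log (8 * f * (V / Q))) * (2 * (K * V / Q)) := by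
    refine hmain.trans ?_
    apply mul_le_mul
    · linarith
    · exact hX
    · exact g6
    · linarith
  have h6 : 4 * (1 + Real.log (8 * f * (V / Q))) * (2 * (K * V / Q)) =
      (8 * (V / Q) * (1 + Real.log (8 * f * (V / Q)))) * K := by ring
  rw [h6, sq] at h5
  exact le_of_mul_le_mul_right h5 hK0

end Pool.Agent.SawClose
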